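import Pool.Agent.P.MP_9d026e_co.Ord

/-! The additive polynomial of a finite subgroup. -/

open Polynomial Finset

namespace Pool.Agent.P.MP_9d026e_co

variable {p : ℕ} [Fact p.Prime] {k : Type*} [Field k] [Algebra (ZMod p) k] {e : ℕ}

/-- coefficientwise derivative -/
noncomputable def Dc (F : k[X][X]) : k[X][X] := F.sum fun i a => monomial i (derivative a)

lemma Dc_add (F G : k[X][X]) : Dc (F + G) = Dc F + Dc G := by
  unfold Dc
  exact sum_add_index F G _ (by simp) (by simp)

lemma Dc_monomial (i : ℕ) (a : k[X]) : Dc (monomial i a) = monomial i (derivative a) := by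
  unfold Dc
  exact sum_monomial_index _ _ (by simp)

lemma coeff_Dc (F : k[X][X]) (i : ℕ) : (Dc F).coeff i = derivative (F.coeff i) := by
  induction F using Polynomial.induction_on' with
  | add F G h1 h2 => simp [Dc_add, h1, h2]
  | monomial n a =>
    rw [Dc_monomial, coeff_monomial, coeff_monomial]
    split_ifs <;> simp

lemma chain_rule (F : k[X][X]) (z : k[X]) :
    derivative (F.eval z) = F.derivative.eval z * derivative z + (Dc F).eval z := by
  induction F using Polynomial.induction_on' with
  | add F G h1 h2 => simp only [Dc_add, eval_add, derivative_add, h1, h2]; ring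
  | monomial n a =>
    rw [Dc_monomial]
    simp only [eval_monomial, derivative_monomial, derivative_mul, derivative_pow, map_natCast]
    ring

/-- linear combination -/
noncomputable def comb (u : Fin e → k[X]) (c : Fin e → ZMod p) : k[X] := ∑ i, c i • u i

lemma comb_add (u : Fin e → k[X]) (c c' : Fin e → ZMod p) :
    comb u (c + c') = comb u c + comb u c' := by
  simp [comb, add_smul, Finset.sum_add_distrib]

lemma comb_zero (u : Fin e → k[X]) : comb u (0 : Fin e → ZMod p) = 0 := by simp [comb]

lemma comb_neg (u : Fin e → k[X]) (c : Fin e → ZMod p) : comb u (-c) = - comb u c := by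
  simp [comb]

lemma comb_eq_val (u : Fin e → k[X]) (c : Fin e → ZMod p) :
    comb u c = ∑ i, (c i).val • u i := by
  refine Finset.sum_congr rfl fun i _ => ?_
  rw [← Nat.cast_smul_eq_nsmul (ZMod p), ZMod.natCast_zmod_val]

lemma comb_injective {u : Fin e → k[X]} (hu : LinearIndependent (ZMod p) u) :
    Function.Injective (comb (p := p) u) := by
  intro c c' h
  have h0 : ∑ i, (c - c') i • u i = 0 := by
    simp only [Pi.sub_apply, sub_smul, Finset.sum_sub_distrib]
    exact sub_eq_zero.2 h
  have := Fintype.linearIndependent_iff.1 hu _ h0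
  ext i
  exact sub_eq_zero.1 (this i)

variable (p) in
/-- the polynomial whose roots are the combinations -/
noncomputable def FU (u : Fin e → k[X]) : k[X][X] :=
  ∏ c : Fin e → ZMod p, (X - C (comb u c))

lemma monic_FU (u : Fin e → k[X]) : (FU p u).Monic :=
  monic_prod_of_monic _ _ fun _ _ => monic_X_sub_C _

lemma natDegree_FU (u : Fin e → k[X]) : (FU p u).natDegree = p ^ e := by
  unfold FU
  rw [natDegree_prod_of_monic _ _ fun _ _ => monic_X_sub_C _]
  simp [ZMod.card]

lemma eval_FU (u : Fin e → k[X]) (z : k[X]) :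
    (FU p u).eval z = ∏ c : Fin e → ZMod p, (z - comb u c) := by
  simp [FU, eval_prod]

lemma eval_FU_comb (u : Fin e → k[X]) (c : Fin e → ZMod p) : (FU p u).eval (comb u c) = 0 := by
  rw [eval_FU]
  exact Finset.prod_eq_zero (mem_univ c) (sub_self _)

lemma eval_FU_add_comb (u : Fin e → k[X]) (z : k[X]) (c : Fin e → ZMod p) :
    (FU p u).eval (comb u c + z) = (FU p u).eval z := by
  rw [eval_FU, eval_FU, ← Equiv.prod_comp (Equiv.addRight c)]
  refine Finset.prod_congr rfl fun c' _ => ?_
  simp only [Equiv.coe_addRight, comb_add]; ring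

lemma eq_zero_of_comb {u : Fin e → k[X]} (hu : LinearIndependent (ZMod p) u) {L : k[X][X]}
    (hL : ∀ i, p ^ e ≤ i → L.coeff i = 0) (h : ∀ c : Fin e → ZMod p, L.eval (comb u c) = 0) :
    L = 0 := by
  refine eq_zero_of_degree_lt_of_eval_index_eq_zero (univ : Finset (Fin e → ZMod p))
    (v := comb u) (comb_injective hu).injOn ?_ fun c _ => h c
  rw [degree_lt_iff_coeff_zero]
  intro i hi
  apply hL
  simpa [ZMod.card] using hi

lemma taylor_FU {u : Fin e → k[X]} (hu : LinearIndependent (ZMod p) u) (z : k[X]) :
    taylor z (FU p u) = FU p u + C ((FU p u).eval z) := by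
  have : taylor z (FU p u) - (FU p u + C ((FU p u).eval z)) = 0 := by
    by_cases he : e = 0
    · subst he
      have h1 : FU p u = X := by simp [FU, comb]
      simp [h1]
    refine eq_zero_of_comb hu ?_ ?_
    · intro i hi
      have hpe : 1 < p ^ e := Nat.one_lt_pow he (Fact.out : p.Prime).one_lt
      rw [coeff_sub, coeff_add, coeff_C, if_neg (by omega), add_zero]
      rcases hi.eq_or_lt with h | h
      · have h1 := (monic_FU (p := p) u).coeff_natDegree
        have h2 : (taylor z (FU p u)).coeff (taylor z (FU p u)).natDegree = 1 := by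
          rw [coeff_natDegree, leadingCoeff_taylor, (monic_FU u).leadingCoeff]
        rw [natDegree_taylor] at h2
        rw [natDegree_FU] at h1 h2
        rw [← h, h1, h2, sub_self]
      · rw [coeff_eq_zero_of_natDegree_lt (by rw [natDegree_taylor, natDegree_FU]; exact h),
          coeff_eq_zero_of_natDegree_lt (by rw [natDegree_FU]; exact h), sub_self]
    · intro c
      rw [eval_sub, eval_add, eval_C, taylor_eval, eval_FU_add_comb, eval_FU_comb]; ring
  exact sub_eq_zero.1 this

lemma derivative_FU_eval {u : Fin e → k[X]} (hu : LinearIndependent (ZMod p) u) (z : k[X]) :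
    (FU p u).derivative.eval z = (FU p u).coeff 1 := by
  rw [← taylor_coeff_one, taylor_FU hu, coeff_add, coeff_C, if_neg one_ne_zero, add_zero]

lemma coeff_one_FU_ne_zero {u : Fin e → k[X]} (hu : LinearIndependent (ZMod p) u) :
    (FU p u).coeff 1 ≠ 0 := by
  classical
  rw [← derivative_FU_eval hu 0, FU, ← Finset.mul_prod_erase _ _ (mem_univ (0 : Fin e → ZMod p)),
    comb_zero, derivative_mul]
  simp only [map_zero, sub_zero, derivative_X, one_mul, eval_add, eval_mul, eval_X, zero_mul,
    add_zero, eval_prod, eval_sub, eval_C, zero_sub]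
  rw [Finset.prod_ne_zero_iff]
  intro c hc h
  apply (mem_erase.1 hc).1
  apply comb_injective hu
  rw [comb_zero, neg_eq_zero.1 h]

/-- the defect of the differential relation -/
noncomputable def kap (p : ℕ) (β l0 l1 z : k[X]) : k[X] :=
  β * derivative z - (l0 * z + l1 * z ^ p)

lemma charP_k : CharP k p := charP_of_injective_algebraMap (algebraMap (ZMod p) k).injective p

variable (p) in
/-- `kap` as an additive map -/
noncomputable def kapHom (β l0 l1 : k[X]) : k[X] →+ k[X] :=
  AddMonoidHom.mk' (kap p β l0 l1) fun x y => by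
    have : CharP k p := charP_k
    unfold kap
    rw [add_pow_char, derivative_add]; ring

lemma kapHom_apply (β l0 l1 z : k[X]) : kapHom p β l0 l1 z = kap p β l0 l1 z := rfl

lemma kap_comb {β l0 l1 : k[X]} {u : Fin e → k[X]} (h : ∀ i, kapHom p β l0 l1 (u i) = 0)
    (c : Fin e → ZMod p) : kapHom p β l0 l1 (comb u c) = 0 := by
  rw [comb_eq_val, map_sum]
  simp only [map_nsmul, h, smul_zero, Finset.sum_const_zero]

lemma deriv_FU {β l0 l1 : k[X]} {u : Fin 2 → k[X]} (hu : LinearIndependent (ZMod p) u)
    (h : ∀ i, kapHom p β l0 l1 (u i) = 0) (z : k[X]) :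
    β * derivative ((FU p u).eval z) = (FU p u).coeff 1 * kapHom p β l0 l1 z := by
  set L : k[X][X] := C ((FU p u).coeff 1) * (C l0 * X + C l1 * X ^ p) + C β * Dc (FU p u) with hL
  have h1 : ∀ z, β * derivative ((FU p u).eval z) =
      (FU p u).coeff 1 * kapHom p β l0 l1 z + L.eval z := by
    intro z
    rw [chain_rule, derivative_FU_eval hu, kapHom_apply, kap, hL]
    simp only [eval_add, eval_mul, eval_C, eval_X, eval_pow]
    ring
  have hp : 1 < p := (Fact.out : p.Prime).one_lt
  have h2 : L = 0 := by
    refine eq_zero_of_comb hu ?_ ?_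
    · intro i hi
      have hi1 : p < i := by nlinarith
      rw [hL]
      simp only [coeff_add, coeff_C_mul, coeff_X_pow, coeff_X, coeff_Dc]
      rw [if_neg (by omega), if_neg (by omega)]
      rcases hi.eq_or_lt with h | h
      · have h1 := (monic_FU (p := p) u).coeff_natDegree
        rw [natDegree_FU] at h1
        rw [← h, h1]; simp
      · rw [coeff_eq_zero_of_natDegree_lt (p := FU p u) (n := i) (by rw [natDegree_FU]; exact h)]
        simp
    · intro c
      have := h1 (comb u c)
      rw [eval_FU_comb, kap_comb h] at this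
      simpa using this.symm
  rw [h1, h2]; simp

end Pool.Agent.P.MP_9d026e_co
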