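import Pool.Agent.P.MP_9d026e_co.AddPoly

/-! The endgame when the base point does not satisfy the differential relation. -/

open Polynomial Finset

namespace Pool.Agent.P.MP_9d026e_co

variable {p : ℕ} [Fact p.Prime] {k : Type} [Field k] [Algebra (ZMod p) k]

/-- multiples of a power -/
def Hl {R : Type*} [CommRing R] (π : R) (l : ℕ) : AddSubgroup R where
  carrier := {f | π ^ l ∣ f}
  add_mem' := dvd_add
  zero_mem' := dvd_zero _
  neg_mem' := fun h => (dvd_neg).2 h

lemma mem_Hl {R : Type*} [CommRing R] {π f : R} {l : ℕ} : f ∈ Hl π l ↔ π ^ l ∣ f := Iff.rfl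

open Classical in
lemma half_cube {ι R : Type*} [Fintype ι] [AddCommGroup R] (H : AddSubgroup R) (a : R) (d : ι → R)
    {j : ι} (hj : d j ∉ H) :
    2 * (univ.filter fun S : Finset ι => a + ∑ i ∈ S, d i ∈ H).card ≤ 2 ^ Fintype.card ι := by
  let σ : Finset ι → Finset ι := fun S => if j ∈ S then S.erase j else insert j S
  have hσ : Function.Involutive σ := by
    intro S
    by_cases h : j ∈ S <;> simp [σ, h]
  have h1 : (univ.filter fun S : Finset ι => a + ∑ i ∈ S, d i ∈ H).card ≤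
      (univ.filter fun S : Finset ι => ¬ (a + ∑ i ∈ S, d i ∈ H)).card := by
    refine card_le_card_of_injOn σ ?_ hσ.injective.injOn
    intro S hS
    simp only [coe_filter, mem_univ, true_and, Set.mem_ofPred_eq] at hS ⊢
    intro h2
    apply hj
    by_cases h : j ∈ S
    · have := H.sub_mem hS h2
      simp only [σ, h, if_true] at this
      rw [← Finset.add_sum_erase S d h] at this
      convert this using 1; abel
    · have := H.sub_mem h2 hS
      simp only [σ, h, if_false] at this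
      rw [Finset.sum_insert h] at this
      convert this using 1; abel
  have h2 := card_filter_add_card_filter_not (s := (univ : Finset (Finset ι)))
    (fun S : Finset ι => a + ∑ i ∈ S, d i ∈ H)
  rw [card_univ, Fintype.card_finset] at h2
  omega

open Classical in
variable (p) in
/-- number of combinations in a subgroup -/
noncomputable def NH {e : ℕ} (H : AddSubgroup k[X]) (u : Fin e → k[X]) : ℕ :=
  (univ.filter fun c : Fin e → ZMod p => comb u c ∈ H).card

lemma NH_mono {e : ℕ} {H H' : AddSubgroup k[X]} (h : H ≤ H') (u : Fin e → k[X]) :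
    NH p H u ≤ NH p H' u := by
  classical
  unfold NH
  refine card_le_card fun c hc => ?_
  simp only [mem_filter, mem_univ, true_and] at hc ⊢
  exact h hc

lemma dvd_NH {e : ℕ} {H : AddSubgroup k[X]} {u : Fin e → k[X]} {c : Fin e → ZMod p} (hc : c ≠ 0)
    (h : comb u c ∈ H) : p ∣ NH p H u := by
  classical
  let φ : (Fin e → ZMod p) →+ k[X] := AddMonoidHom.mk' (comb u) (comb_add u)
  have h1 : NH p H u = Nat.card (H.comap φ) := by
    unfold NH
    rw [Nat.card_eq_fintype_card, Fintype.card_subtype]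
    congr
  have h2 : addOrderOf c = p := addOrderOf_eq_prime (by ext i; simp) hc
  have h3 := AddSubgroup.addOrderOf_dvd_natCard _ (show c ∈ H.comap φ from h)
  rwa [h2, ← h1] at h3

lemma exists_of_NH_ne_one {e : ℕ} {H : AddSubgroup k[X]} {u : Fin e → k[X]} (h : NH p H u ≠ 1) :
    ∃ c : Fin e → ZMod p, c ≠ 0 ∧ comb u c ∈ H := by
  classical
  by_contra hc
  push Not at hc
  apply h
  unfold NH
  rw [card_eq_one]
  refine ⟨0, ?_⟩
  ext c
  simp only [mem_filter, mem_univ, true_and, mem_singleton]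
  constructor
  · intro h1; by_contra h2; exact hc c h2 h1
  · rintro rfl; rw [comb_zero]; exact H.zero_mem

lemma NH_ne_one {e : ℕ} {H : AddSubgroup k[X]} {u : Fin e → k[X]} {c : Fin e → ZMod p} (hc : c ≠ 0)
    (h : comb u c ∈ H) : NH p H u ≠ 1 := fun h1 =>
  (Fact.out : p.Prime).one_lt.ne' (Nat.dvd_one.1 (h1 ▸ dvd_NH hc h))

open Classical in
lemma level_A {r b : ℕ} {η : ℝ} (hF : FourierOK p r 2 b η) (hη : η ≤ 1 / (4 * (p : ℝ) ^ 2))
    (hΩ : (Om r 2 b).Nonempty) (H : AddSubgroup k[X]) (d : Fin r × Fin 2 × Fin b → k[X])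
    (a : k[X]) :
    ((Om r 2 b).card : ℝ) * (p : ℝ) ^ 2 *
        (((univ.filter fun S : Finset (Fin r × Fin 2 × Fin b) => a + ∑ j ∈ S, d j ∈ H).card : ℝ)
          / 2 ^ (r * 2 * b)) +
      1 / 2 * (((Om r 2 b).filter fun w => NH p H (uu d w) = 1).card : ℝ) ≤
      ∑ w ∈ Om r 2 b, (NH p H (uu d w) : ℝ) := by
  set x : ℝ := ((univ.filter fun S : Finset (Fin r × Fin 2 × Fin b) =>
    a + ∑ j ∈ S, d j ∈ H).card : ℝ) / 2 ^ (r * 2 * b) with hx
  have hcard : Fintype.card (Fin r × Fin 2 × Fin b) = r * 2 * b := by simp [mul_assoc]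
  have hΩ0 : (0 : ℝ) < (Om r 2 b).card := by exact_mod_cast hΩ.card_pos
  have hp1 : (1 : ℝ) < p := by exact_mod_cast (Fact.out : p.Prime).one_lt
  by_cases hall : ∀ j, d j ∈ H
  · have hN : ∀ w, NH p H (uu d w) = p ^ 2 := by
      intro w
      unfold NH
      rw [filter_true_of_mem, card_univ]
      · simp [ZMod.card]
      · intro c _
        rw [comb_eq_val]
        refine H.sum_mem fun i _ => H.nsmul_mem ?_ _
        exact H.sub_mem (H.sum_mem fun _ _ => hall _) (H.sum_mem fun _ _ => hall _)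
    have hx1 : x ≤ 1 := by
      rw [hx, div_le_one (by positivity)]
      have := card_le_univ (univ.filter fun S : Finset (Fin r × Fin 2 × Fin b) =>
        a + ∑ j ∈ S, d j ∈ H)
      rw [Fintype.card_finset, hcard] at this
      exact_mod_cast this
    have h1 : (Om r 2 b).filter (fun w => NH p H (uu d w) = 1) = ∅ := by
      refine filter_false_of_mem fun w _ => ?_
      rw [hN]
      exact (Nat.one_lt_pow two_ne_zero (Fact.out : p.Prime).one_lt).ne'
    rw [h1]
    simp only [hN, sum_const, nsmul_eq_mul, card_empty, Nat.cast_zero, mul_zero, add_zero,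
      Nat.cast_pow]
    have : 0 ≤ ((Om r 2 b).card : ℝ) * (p : ℝ) ^ 2 := by positivity
    nlinarith
  · push Not at hall
    obtain ⟨j, hj⟩ := hall
    have hx2 : x ≤ 1 / 2 := by
      have := half_cube H a d hj
      rw [hcard] at this
      rw [hx, div_le_div_iff₀ (by positivity) (by norm_num), one_mul, mul_comm]
      exact_mod_cast this
    let cnt : (Fin 2 → ZMod p) → ℝ := fun c =>
      (((Om r 2 b).filter fun w => comb (uu d w) c ∈ H).card : ℝ)
    have hcnt : ∀ c, ((Om r 2 b).card : ℝ) * (x - η) ≤ cnt c := by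
      intro c
      have h := fourier_subgroup hF H d a (fun i => (c i).val)
      simp only [← comb_eq_val] at h
      have h2 : x - η ≤ cnt c / (Om r 2 b).card := by
        simp only [cnt]; linarith
      rw [le_div_iff₀ hΩ0] at h2
      linarith
    have hsum : ∑ w ∈ Om r 2 b, (NH p H (uu d w) : ℝ) = ∑ c, cnt c := by
      simp only [NH, cnt, card_filter]
      push_cast
      exact Finset.sum_comm
    have h0 : cnt 0 = (Om r 2 b).card := by
      simp only [cnt, comb_zero, H.zero_mem, filter_true]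
    have h3 : ((p : ℝ) ^ 2 - 1) * (((Om r 2 b).card : ℝ) * (x - η)) ≤
        ∑ c ∈ univ.erase (0 : Fin 2 → ZMod p), cnt c := by
      have := Finset.card_nsmul_le_sum (univ.erase (0 : Fin 2 → ZMod p)) cnt _ fun c _ => hcnt c
      rw [card_erase_of_mem (mem_univ _), card_univ, nsmul_eq_mul] at this
      have h4 : Fintype.card (Fin 2 → ZMod p) = p ^ 2 := by simp [ZMod.card]
      rw [h4, Nat.cast_sub (Nat.one_le_pow _ _ (Fact.out : p.Prime).pos)] at this
      exact_mod_cast this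
    have h5 : (((Om r 2 b).filter fun w => NH p H (uu d w) = 1).card : ℝ) + cnt 1 ≤
        (Om r 2 b).card := by
      simp only [cnt]
      rw [← Nat.cast_add, Nat.cast_le, ← card_union_of_disjoint]
      · exact card_le_card (union_subset (filter_subset _ _) (filter_subset _ _))
      · rw [disjoint_filter]
        intro w _ h1 h2
        exact NH_ne_one one_ne_zero h2 h1
    have h6 := hcnt 1
    rw [hsum, ← Finset.add_sum_erase _ _ (mem_univ (0 : Fin 2 → ZMod p)), h0]
    have h7 : (p : ℝ) ^ 2 * η ≤ 1 / 4 := by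
      rw [le_div_iff₀ (by positivity)] at hη
      linarith
    have h8 : ((Om r 2 b).card : ℝ) * (((p : ℝ) ^ 2 - 1 / 2) * η) ≤
        (Om r 2 b).card * ((1 - x) / 2) := by
      refine mul_le_mul_of_nonneg_left ?_ hΩ0.le
      rcases le_total 0 η with h | h
      · nlinarith
      · have : 0 ≤ (p : ℝ) ^ 2 - 1 / 2 := by nlinarith
        nlinarith
    nlinarith

open Classical in
lemma ord_deriv_FU {e : ℕ} (u : Fin e → k[X]) (z : k[X]) (a0 : k) (E : ℕ)
    (hz : (X - C a0) ^ E ∣ z) (h0 : derivative ((FU p u).eval z) ≠ 0) :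
    ∑ l ∈ Icc 1 E, NH p (Hl (X - C a0) l) u ≤
      rootMultiplicity a0 (derivative ((FU p u).eval z)) +
        if NH p (Hl (X - C a0) E) u = 1 then 1 else 0 := by
  set π : k[X] := X - C a0 with hπ
  set B := ∑ l ∈ Icc 1 E, NH p (Hl π l) u with hB
  have h1 : B = ∑ c : Fin e → ZMod p, ∑ l ∈ Icc 1 E, if π ^ l ∣ comb u c then 1 else 0 := by
    rw [hB, Finset.sum_comm]
    refine Finset.sum_congr rfl fun l _ => ?_
    rw [NH, card_filter]
    rfl
  have h2 : π ^ B ∣ (FU p u).eval z := by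
    rw [h1, eval_FU, ← Finset.prod_pow_eq_pow_sum]
    refine Finset.prod_dvd_prod_of_dvd _ _ fun c _ => dvd_sub ?_ (pow_card_dvd π _ E)
    exact (pow_dvd_pow π (card_le_self _ E)).trans hz
  split_ifs with h
  · have := (le_rootMultiplicity_iff h0).2 (pow_sub_one_dvd_derivative_of_pow_dvd h2)
    omega
  · obtain ⟨c, hc, hcH⟩ := exists_of_NH_ne_one h
    have : CharP k p := charP_k
    have h3 : p ∣ B := Finset.dvd_sum fun l hl =>
      dvd_NH hc ((pow_dvd_pow π (mem_Icc.1 hl).2).trans hcH)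
    have h4 := pow_dvd_derivative ((CharP.cast_eq_zero_iff k p B).2 h3) h2
    simpa using (le_rootMultiplicity_iff h0).2 h4

open Classical in
lemma local_A {r b : ℕ} {η : ℝ} (hF : FourierOK p r 2 b η) (hη : η ≤ 1 / (4 * (p : ℝ) ^ 2))
    (hΩ : (Om r 2 b).Nonempty) (d : Fin r × Fin 2 × Fin b → k[X]) (a : k[X])
    (hsq : ∀ S : Finset (Fin r × Fin 2 × Fin b),
      IsSquare (a + ∑ j ∈ S, d j) ∧ a + ∑ j ∈ S, d j ≠ 0)
    (et : _ → k[X]) (h0 : ∀ w ∈ Om r 2 b, et w ≠ 0)
    (het : ∀ w ∈ Om r 2 b, ∀ S : Finset (Fin r × Fin 2 × Fin b),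
      derivative ((FU p (uu d w)).eval (a + ∑ j ∈ S, d j)) = et w) (a0 : k) :
    ((Om r 2 b).card : ℝ) * (p : ℝ) ^ 2 *
      ((∑ S : Finset (Fin r × Fin 2 × Fin b), (rootMultiplicity a0 (a + ∑ j ∈ S, d j) : ℝ))
        / 2 ^ (r * 2 * b)) ≤ ∑ w ∈ Om r 2 b, (rootMultiplicity a0 (et w) : ℝ) := by
  set π : k[X] := X - C a0 with hπ
  obtain ⟨S0, -, hS0⟩ := exists_max_image (univ : Finset (Finset (Fin r × Fin 2 × Fin b)))
    (fun S => rootMultiplicity a0 (a + ∑ j ∈ S, d j)) univ_nonempty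
  set E := rootMultiplicity a0 (a + ∑ j ∈ S0, d j) with hE
  let xx : ℕ → ℝ := fun l => ((univ.filter fun S : Finset (Fin r × Fin 2 × Fin b) =>
    a + ∑ j ∈ S, d j ∈ Hl π l).card : ℝ) / 2 ^ (r * 2 * b)
  have h1 : (∑ S : Finset (Fin r × Fin 2 × Fin b), (rootMultiplicity a0 (a + ∑ j ∈ S, d j) : ℝ))
      / 2 ^ (r * 2 * b) = ∑ l ∈ Icc 1 E, xx l := by
    simp only [xx]
    rw [← Finset.sum_div]
    congr 1
    rw [Finset.sum_congr rfl fun S _ => by
      rw [ord_eq_card (hsq S).2 a0 E (hS0 S (mem_univ _))]]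
    simp only [card_filter]
    push_cast
    rw [Finset.sum_comm]
    rfl
  let NN : ℕ → ℝ := fun l => ∑ w ∈ Om r 2 b, (NH p (Hl π l) (uu d w) : ℝ)
  let PP : ℕ → ℝ := fun l => (((Om r 2 b).filter fun w => NH p (Hl π l) (uu d w) = 1).card : ℝ)
  have h2 : ∑ l ∈ Icc 1 E, NN l ≤ ∑ w ∈ Om r 2 b, (rootMultiplicity a0 (et w) : ℝ) + PP E := by
    simp only [NN, PP, card_filter]
    rw [Finset.sum_comm]
    push_cast
    rw [← Finset.sum_add_distrib]
    refine Finset.sum_le_sum fun w hw => ?_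
    have := ord_deriv_FU (p := p) (uu d w) (a + ∑ j ∈ S0, d j) a0 E
      (pow_rootMultiplicity_dvd _ _) (by rw [het w hw]; exact h0 w hw)
    rw [het w hw] at this
    exact_mod_cast this
  have h3 : ∀ l, ((Om r 2 b).card : ℝ) * (p : ℝ) ^ 2 * xx l + 1 / 2 * PP l ≤ NN l := fun l =>
    level_A hF hη hΩ (Hl π l) d a
  have hPP : ∀ l, 0 ≤ PP l := fun l => Nat.cast_nonneg _
  rw [h1, Finset.mul_sum]
  obtain ⟨m, hm⟩ : Even E := even_ord (hsq S0).1 (hsq S0).2 a0
  rcases Nat.eq_zero_or_pos m with rfl | hm0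
  · rw [hm]
    simp only [add_zero, Icc_eq_empty_of_lt zero_lt_one, sum_empty]
    positivity
  obtain ⟨E', hE'⟩ : ∃ E', E = E' + 1 + 1 := ⟨E - 2, by omega⟩
  have h4 : xx (E' + 1) = xx (E' + 1 + 1) := by
    simp only [xx]
    congr 2
    refine congrArg _ (filter_congr fun S _ => ?_)
    rw [mem_Hl, mem_Hl, ← le_rootMultiplicity_iff (hsq S).2, ← le_rootMultiplicity_iff (hsq S).2]
    obtain ⟨m', hm'⟩ := even_ord (hsq S).1 (hsq S).2 a0
    omega
  have h5 : NN (E' + 1 + 1) ≤ NN (E' + 1) := by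
    refine Finset.sum_le_sum fun w _ => ?_
    exact_mod_cast NH_mono (fun f hf => (pow_dvd_pow π (Nat.le_succ _)).trans hf) _
  have h6 : ∑ l ∈ Icc 1 E', ((Om r 2 b).card : ℝ) * (p : ℝ) ^ 2 * xx l ≤ ∑ l ∈ Icc 1 E', NN l :=
    Finset.sum_le_sum fun l _ => by linarith [h3 l, hPP l]
  rw [hE'] at h2 ⊢
  rw [Finset.sum_Icc_succ_top (by omega), Finset.sum_Icc_succ_top (by omega)] at h2 ⊢
  rw [h4]
  linarith [h3 (E' + 1 + 1)]

lemma natDegree_smul_le' (c : ZMod p) (f : k[X]) : (c • f).natDegree ≤ f.natDegree :=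
  natDegree_smul_le c f

theorem caseA [IsAlgClosed k] {r b : ℕ} {η : ℝ} (hF : FourierOK p r 2 b η)
    (hη : η ≤ 1 / (4 * (p : ℝ) ^ 2)) (hΩ : (Om r 2 b).Nonempty)
    (d : Fin r × Fin 2 × Fin b → k[X]) (a : k[X]) (n : ℕ) (hd : LinearIndependent (ZMod p) d)
    (hsq : ∀ S : Finset (Fin r × Fin 2 × Fin b),
      IsSquare (a + ∑ j ∈ S, d j) ∧ a + ∑ j ∈ S, d j ≠ 0 ∧ (a + ∑ j ∈ S, d j).natDegree = n)
    {β l0 l1 : k[X]} (hβ : β ≠ 0) (hrel : ∀ j, kapHom p β l0 l1 (d j) = 0)
    (ha : kapHom p β l0 l1 a ≠ 0) : False := by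
  classical
  have hu : ∀ w i, kapHom p β l0 l1 (uu d w i) = 0 := by
    intro w i
    rw [map_uu]; simp [uu, hrel]
  have hz : ∀ S : Finset (Fin r × Fin 2 × Fin b),
      kapHom p β l0 l1 (a + ∑ j ∈ S, d j) = kapHom p β l0 l1 a := by
    intro S; simp [map_add, map_sum, hrel]
  let et := fun w => derivative ((FU p (uu d w)).eval a)
  have het : ∀ w ∈ Om r 2 b, ∀ S : Finset (Fin r × Fin 2 × Fin b),
      derivative ((FU p (uu d w)).eval (a + ∑ j ∈ S, d j)) = et w := by
    intro w hw S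
    apply mul_left_cancel₀ hβ
    rw [deriv_FU (linearIndependent_uu hd hw) (hu w), deriv_FU (linearIndependent_uu hd hw) (hu w),
      hz]
  have h0 : ∀ w ∈ Om r 2 b, et w ≠ 0 := by
    intro w hw h
    have := deriv_FU (linearIndependent_uu hd hw) (hu w) a
    rw [show derivative ((FU p (uu d w)).eval a) = et w from rfl, h, mul_zero] at this
    exact mul_ne_zero (coeff_one_FU_ne_zero (linearIndependent_uu hd hw)) ha this.symm
  have han : a.natDegree = n := by simpa using (hsq ∅).2.2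
  have hdn : ∀ j, (d j).natDegree ≤ n := by
    intro j
    have h1 := (hsq {j}).2.2
    rw [sum_singleton] at h1
    have : d j = (a + d j) - a := by ring
    rw [this]
    exact (natDegree_sub_le _ _).trans (by omega)
  have hun : ∀ w i, (uu d w i).natDegree ≤ n := by
    intro w i
    refine (natDegree_sub_le _ _).trans (max_le ?_ ?_) <;>
      exact natDegree_sum_le_of_forall_le _ _ fun _ _ => hdn _
  have hdeg : ∀ w ∈ Om r 2 b, (et w).natDegree + 1 ≤ p ^ 2 * n := by
    intro w hw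
    have h1 : ((FU p (uu d w)).eval a).natDegree ≤ p ^ 2 * n := by
      rw [eval_FU]
      refine (natDegree_prod_le _ _).trans ?_
      refine (Finset.sum_le_card_nsmul _ _ n fun c _ => ?_).trans (by simp [ZMod.card])
      refine (natDegree_sub_le _ _).trans (max_le han.le ?_)
      exact natDegree_sum_le_of_forall_le _ _ fun i _ => (natDegree_smul_le' _ _).trans (hun w i)
    have h2 : ((FU p (uu d w)).eval a).natDegree ≠ 0 := by
      intro h
      apply h0 w hw
      simp only [et]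
      rw [eq_C_of_natDegree_eq_zero h, derivative_C]
    have := natDegree_derivative_lt h2
    simp only [et]; omega
  set T : Finset k := (univ : Finset (Finset (Fin r × Fin 2 × Fin b))).biUnion
    fun S => (a + ∑ j ∈ S, d j).roots.toFinset with hT
  have h1 := Finset.sum_le_sum (s := T) fun a0 _ =>
    local_A hF hη hΩ d a (fun S => ⟨(hsq S).1, (hsq S).2.1⟩) et h0 het a0
  rw [← Finset.mul_sum, ← Finset.sum_div, Finset.sum_comm, Finset.sum_comm (s := T)] at h1
  have h2 : ∀ S : Finset (Fin r × Fin 2 × Fin b),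
      ∑ a0 ∈ T, (rootMultiplicity a0 (a + ∑ j ∈ S, d j) : ℝ) = n := by
    intro S
    rw [← (hsq S).2.2, ← sum_ord_eq T]
    · push_cast; rfl
    · intro x hx
      exact mem_biUnion.2 ⟨S, mem_univ _, Multiset.mem_toFinset.2 hx⟩
  have h3 : ∀ w ∈ Om r 2 b, ∑ a0 ∈ T, (rootMultiplicity a0 (et w) : ℝ) ≤ (p : ℝ) ^ 2 * n - 1 := by
    intro w hw
    have h4 : ∑ a0 ∈ T, rootMultiplicity a0 (et w) + 1 ≤ p ^ 2 * n :=
      (Nat.add_le_add_right (sum_ord_le T) 1).trans (hdeg w hw)
    have h5 : ((∑ a0 ∈ T, rootMultiplicity a0 (et w) + 1 : ℕ) : ℝ) ≤ ((p ^ 2 * n : ℕ) : ℝ) := by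
      exact_mod_cast h4
    push_cast at h5
    linarith
  have h6 := Finset.sum_le_card_nsmul _ _ _ h3
  have hcard : Fintype.card (Fin r × Fin 2 × Fin b) = r * 2 * b := by simp [mul_assoc]
  simp only [h2, sum_const, card_univ, Fintype.card_finset, hcard, nsmul_eq_mul] at h1 h6
  have hΩ0 : (0 : ℝ) < (Om r 2 b).card := by exact_mod_cast hΩ.card_pos
  have h7 : (((2 ^ (r * 2 * b) : ℕ) : ℝ) * n) / 2 ^ (r * 2 * b) = n := by
    push_cast; field_simp
  rw [h7] at h1
  nlinarith

end Pool.Agent.P.MP_9d026e_co
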