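import Pool.Agent.P.MP_9d026e_co.CaseA

/-! The endgame when the base point satisfies the differential relation. -/

open Polynomial Finset

namespace Pool.Agent.P.MP_9d026e_co

variable {p : ℕ} [Fact p.Prime] {k : Type} [Field k] [Algebra (ZMod p) k]

lemma ratio_int {α γ : k} (hα : α ≠ 0) (h : α * γ ^ p - α ^ p * γ = 0) :
    ∃ n : ℤ, γ = n * α := by
  have : CharP k p := charP_k
  have h1 : (γ / α) ^ p = γ / α := by
    rw [div_pow, div_eq_div_iff (pow_ne_zero _ hα) hα]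
    linear_combination h
  obtain ⟨n, hn⟩ := (mem_bot_iff_intCast p k).1 ((Subfield.mem_bot_iff_pow_eq_self k p).2 h1)
  exact ⟨n, by rw [hn]; field_simp⟩

lemma wr_identity {β l0 l1 u g : k[X]} (hu : kapHom p β l0 l1 u = 0)
    (hg : kapHom p β l0 l1 g = 0) :
    β * wronskian u g = l1 * (u * g ^ p - u ^ p * g) := by
  rw [kapHom_apply, kap] at hu hg
  rw [wronskian]
  linear_combination u * hg - g * hu

lemma degB_aux {β l0 l1 u g : k[X]} (hβ : β ≠ 0) (hl : l1 ≠ 0) (hu : kapHom p β l0 l1 u = 0)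
    (hg : kapHom p β l0 l1 g = 0) (hM : u * g ^ p - u ^ p * g ≠ 0)
    (hdeg : p * u.natDegree + g.natDegree ≤ (u * g ^ p - u ^ p * g).natDegree) :
    l1.natDegree + (p - 1) * u.natDegree + 1 ≤ β.natDegree := by
  have h1 := wr_identity hu hg
  have hW : wronskian u g ≠ 0 := by
    intro h; rw [h, mul_zero] at h1; exact mul_ne_zero hl hM h1.symm
  have h2 := congrArg natDegree h1
  rw [natDegree_mul hβ hW, natDegree_mul hl hM] at h2
  have h3 := natDegree_wronskian_lt_add hW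
  obtain ⟨q, hq⟩ : ∃ q, p = q + 1 := ⟨p - 1, by have := (Fact.out : p.Prime).pos; omega⟩
  have h4 : p * u.natDegree = (p - 1) * u.natDegree + u.natDegree := by
    rw [show p - 1 = q by omega, hq]; ring
  omega

lemma degB_ne {β l0 l1 u g : k[X]} (hβ : β ≠ 0) (hl : l1 ≠ 0) (hu : kapHom p β l0 l1 u = 0)
    (hg : kapHom p β l0 l1 g = 0) (hu0 : u ≠ 0) (hg0 : g ≠ 0) (hne : g.natDegree ≠ u.natDegree) :
    l1.natDegree + (p - 1) * u.natDegree + 1 ≤ β.natDegree := by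
  have h1 : (u * g ^ p).natDegree = u.natDegree + p * g.natDegree := by
    rw [natDegree_mul hu0 (pow_ne_zero _ hg0), natDegree_pow]
  have h2 : (u ^ p * g).natDegree = p * u.natDegree + g.natDegree := by
    rw [natDegree_mul (pow_ne_zero _ hu0) hg0, natDegree_pow]
  have hp : 2 ≤ p := (Fact.out : p.Prime).two_le
  rcases lt_or_gt_of_ne hne with h | h
  · have h3 : (u * g ^ p).natDegree < (u ^ p * g).natDegree := by rw [h1, h2]; nlinarith
    refine degB_aux hβ hl hu hg ?_ ?_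
    · intro h0; rw [sub_eq_zero.1 h0] at h3; exact lt_irrefl _ h3
    · rw [natDegree_sub_eq_right_of_natDegree_lt h3, h2]
  · have h3 : (u ^ p * g).natDegree < (u * g ^ p).natDegree := by rw [h1, h2]; nlinarith
    refine degB_aux hβ hl hu hg ?_ ?_
    · intro h0; rw [sub_eq_zero.1 h0] at h3; exact lt_irrefl _ h3
    · rw [natDegree_sub_eq_left_of_natDegree_lt h3, ← h2]; exact h3.le

lemma degB {β l0 l1 u g : k[X]} (hβ : β ≠ 0) (hl : l1 ≠ 0) (hu : kapHom p β l0 l1 u = 0)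
    (hg : kapHom p β l0 l1 g = 0) (hu0 : u ≠ 0) (hind : ∀ n : ℤ, g ≠ n • u) :
    l1.natDegree + (p - 1) * u.natDegree + 1 ≤ β.natDegree := by
  have hg0 : g ≠ 0 := by simpa using hind 0
  by_cases hne : g.natDegree = u.natDegree
  swap
  · exact degB_ne hβ hl hu hg hu0 hg0 hne
  have hco : (u * g ^ p - u ^ p * g).coeff (p * u.natDegree + g.natDegree) =
      u.leadingCoeff * g.leadingCoeff ^ p - u.leadingCoeff ^ p * g.leadingCoeff := by
    have h1 : (u * g ^ p).natDegree = p * u.natDegree + g.natDegree := by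
      rw [natDegree_mul hu0 (pow_ne_zero _ hg0), natDegree_pow, hne]; ring
    have h2 : (u ^ p * g).natDegree = p * u.natDegree + g.natDegree := by
      rw [natDegree_mul (pow_ne_zero _ hu0) hg0, natDegree_pow]
    rw [coeff_sub]
    congr 1
    · rw [← h1, coeff_natDegree, leadingCoeff_mul, leadingCoeff_pow]
    · rw [← h2, coeff_natDegree, leadingCoeff_mul, leadingCoeff_pow]
  by_cases hc : u.leadingCoeff * g.leadingCoeff ^ p - u.leadingCoeff ^ p * g.leadingCoeff = 0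
  · obtain ⟨n, hn⟩ := ratio_int (leadingCoeff_ne_zero.2 hu0) hc
    have hn0 : (n : k) ≠ 0 := by
      intro h; rw [h, zero_mul] at hn; exact leadingCoeff_ne_zero.2 hg0 hn
    have h1 : n • u = C (n : k) * u := by simp
    have h2 : g - n • u ≠ 0 := sub_ne_zero.2 (hind n)
    have h3 : (g - n • u).degree < g.degree := by
      refine degree_sub_lt_left ?_ hg0 ?_
      · rw [h1, degree_C_mul hn0, degree_eq_natDegree hg0, degree_eq_natDegree hu0, hne]
      · rw [h1, leadingCoeff_mul, leadingCoeff_C, hn]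
    refine degB_ne (g := g - n • u) hβ hl hu ?_ hu0 h2 ?_
    · rw [map_sub, map_zsmul, hu, hg]; simp
    · rw [← hne]; exact (natDegree_lt_natDegree h2 h3).ne
  · refine degB_aux hβ hl hu hg ?_ (le_natDegree_of_ne_zero (by rw [hco]; exact hc))
    intro h0; rw [h0, coeff_zero] at hco; exact hc hco.symm

lemma ord_pow {f : k[X]} (hf : f ≠ 0) (a0 : k) (m : ℕ) :
    rootMultiplicity a0 (f ^ m) = m * rootMultiplicity a0 f := by
  induction m with
  | zero => simp [rootMultiplicity_eq_zero]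
  | succ m ih =>
    rw [pow_succ, rootMultiplicity_mul (mul_ne_zero (pow_ne_zero _ hf) hf), ih]; ring

lemma ordB_aux {β l0 l1 u g : k[X]} (hβ : β ≠ 0) (hl : l1 ≠ 0) (hu : kapHom p β l0 l1 u = 0)
    (hg : kapHom p β l0 l1 g = 0) (a0 : k) {s t : ℕ}
    (hM : ¬ (X - C a0) ^ (t + 1) ∣ u * g ^ p - u ^ p * g) (hW : (X - C a0) ^ s ∣ wronskian u g) :
    rootMultiplicity a0 β + s ≤ rootMultiplicity a0 l1 + t := by
  have h1 := wr_identity hu hg
  have hM0 : u * g ^ p - u ^ p * g ≠ 0 := by intro h; rw [h] at hM; exact hM (dvd_zero _)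
  have hW0 : wronskian u g ≠ 0 := by
    intro h; rw [h, mul_zero] at h1; exact mul_ne_zero hl hM0 h1.symm
  have h2 := congrArg (rootMultiplicity a0) h1
  rw [rootMultiplicity_mul (mul_ne_zero hβ hW0), rootMultiplicity_mul (mul_ne_zero hl hM0)] at h2
  rw [← le_rootMultiplicity_iff hM0] at hM
  rw [← le_rootMultiplicity_iff hW0] at hW
  omega

lemma ordB_one {β l0 l1 z g : k[X]} (hβ : β ≠ 0) (hl : l1 ≠ 0) (hz : kapHom p β l0 l1 z = 0)
    (hg : kapHom p β l0 l1 g = 0) (hz0 : z ≠ 0) (a0 : k)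
    (hdvd : (X - C a0) ^ rootMultiplicity a0 z ∣ g)
    (hn : ∀ n : ℤ, ¬ (X - C a0) ^ (rootMultiplicity a0 z + 1) ∣ g - n • z) :
    rootMultiplicity a0 β ≤ rootMultiplicity a0 l1 + (p - 1) * rootMultiplicity a0 z := by
  obtain ⟨z', hz', hz''⟩ := exists_eq_pow_rootMultiplicity_mul_and_not_dvd z hz0 a0
  set r := rootMultiplicity a0 z with hr
  obtain ⟨g', hg'⟩ := hdvd
  set P : k[X] := (X - C a0) ^ r with hP
  have hP0 : P ≠ 0 := pow_ne_zero _ (X_sub_C_ne_zero a0)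
  have h := ordB_aux hβ hl hz hg a0 (s := r * 2) (t := r * (p + 1)) ?_ ?_
  · obtain ⟨q, hq⟩ : ∃ q, p = q + 1 := ⟨p - 1, by have := (Fact.out : p.Prime).pos; omega⟩
    have h4 : r * (p + 1) = (p - 1) * r + r * 2 := by
      rw [show p - 1 = q by omega, hq]; ring
    omega
  · intro h
    have h1 : z * g ^ p - z ^ p * g = P ^ (p + 1) * (z' * g' ^ p - z' ^ p * g') := by
      rw [hg']; conv_lhs => rw [hz']
      ring
    rw [h1, pow_succ, pow_mul, ← hP, mul_dvd_mul_iff_left (pow_ne_zero _ hP0), dvd_iff_isRoot] at h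
    simp only [IsRoot.def, eval_sub, eval_mul, eval_pow] at h
    rw [dvd_iff_isRoot] at hz''
    obtain ⟨n, hn'⟩ := ratio_int hz'' h
    apply hn n
    have h2 : g - n • z = P * (g' - n • z') := by
      rw [hg']; conv_lhs => rw [hz']
      simp only [zsmul_eq_mul]; ring
    rw [h2, pow_succ, ← hP, mul_dvd_mul_iff_left hP0, dvd_iff_isRoot]
    simp [hn']
  · refine ⟨wronskian z' g', ?_⟩
    rw [pow_mul, ← hP, hg']
    conv_lhs => rw [hz']
    simp only [wronskian, derivative_mul]; ring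

lemma ordB_two {β l0 l1 z h : k[X]} (hβ : β ≠ 0) (hl : l1 ≠ 0) (hz : kapHom p β l0 l1 z = 0)
    (hh : kapHom p β l0 l1 h = 0) (hz0 : z ≠ 0) (hh0 : h ≠ 0) (a0 : k)
    (hdvd : (X - C a0) ^ (rootMultiplicity a0 z + 1) ∣ h) :
    rootMultiplicity a0 β ≤ rootMultiplicity a0 l1 + (p - 1) * rootMultiplicity a0 z + 1 := by
  set r := rootMultiplicity a0 z with hr
  set s := rootMultiplicity a0 h with hs
  have hrs : r + 1 ≤ s := (le_rootMultiplicity_iff hh0).2 hdvd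
  obtain ⟨q, hq⟩ : ∃ q, p = q + 2 := ⟨p - 2, by have := (Fact.out : p.Prime).two_le; omega⟩
  have d1 := pow_rootMultiplicity_dvd z a0
  have d2 := pow_rootMultiplicity_dvd h a0
  rw [← hr] at d1
  rw [← hs] at d2
  have h1 := ordB_aux hβ hl hz hh a0 (s := r + s - 1) (t := p * r + s) ?_ ?_
  · have h4 : p * r = (p - 1) * r + r := by rw [show p - 1 = q + 1 by omega, hq]; ring
    omega
  · intro h1
    have h2 : (X - C a0) ^ (p * r + s + 1) ∣ z * h ^ p := by
      rw [← le_rootMultiplicity_iff (mul_ne_zero hz0 (pow_ne_zero _ hh0)),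
        rootMultiplicity_mul (mul_ne_zero hz0 (pow_ne_zero _ hh0)), ord_pow hh0, ← hr, ← hs, hq]
      nlinarith
    have h3 : (X - C a0) ^ (p * r + s + 1) ∣ z ^ p * h := by
      have := dvd_sub h2 h1
      rwa [sub_sub_cancel] at this
    rw [← le_rootMultiplicity_iff (mul_ne_zero (pow_ne_zero _ hz0) hh0),
      rootMultiplicity_mul (mul_ne_zero (pow_ne_zero _ hz0) hh0), ord_pow hz0, ← hr, ← hs] at h3
    omega
  · rw [wronskian]
    refine dvd_sub ?_ ?_
    · have d3 := mul_dvd_mul d1 (pow_sub_one_dvd_derivative_of_pow_dvd d2)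
      rw [← pow_add] at d3
      exact (pow_dvd_pow _ (by omega)).trans d3
    · have d3 := mul_dvd_mul (pow_sub_one_dvd_derivative_of_pow_dvd d1) d2
      rw [← pow_add] at d3
      exact (pow_dvd_pow _ (by omega)).trans d3

lemma dvd_zsmul_iff {z : k[X]} (hz0 : z ≠ 0) (a0 : k) (n : ℤ) :
    (X - C a0) ^ (rootMultiplicity a0 z + 1) ∣ n • z ↔ (n : ZMod p) = 0 := by
  have h1 : n • z = C (algebraMap (ZMod p) k n) * z := by simp
  rw [h1]
  constructor
  · intro h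
    by_contra hn
    have h2 : algebraMap (ZMod p) k n ≠ 0 := (_root_.map_ne_zero _).2 hn
    rw [(isUnit_C.2 (IsUnit.mk0 _ h2)).dvd_mul_left, ← le_rootMultiplicity_iff hz0] at h
    omega
  · intro h; simp [h]

open Classical in
lemma local_B {r b : ℕ} {η : ℝ} (hp : 3 ≤ p) (hF : FourierOK p r 1 b η)
    (hη : η ≤ 1 / (4 * (p : ℝ) ^ 2)) (hΩ : (Om r 1 b).Nonempty)
    (d : Fin r × Fin 1 × Fin b → k[X]) (a : k[X]) (hd : LinearIndependent (ZMod p) d)
    (hsq : ∀ S : Finset (Fin r × Fin 1 × Fin b),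
      IsSquare (a + ∑ j ∈ S, d j) ∧ a + ∑ j ∈ S, d j ≠ 0)
    {β l0 l1 : k[X]} (hβ : β ≠ 0) (hl : l1 ≠ 0) (hrel : ∀ j, kapHom p β l0 l1 (d j) = 0)
    (ha : kapHom p β l0 l1 a = 0) (a0 : k) {z g1 g2 : k[X]} (hz0 : z ≠ 0) (hzs : IsSquare z)
    (hz : kapHom p β l0 l1 z = 0) (hg1 : kapHom p β l0 l1 g1 = 0) (hg2 : kapHom p β l0 l1 g2 = 0)
    (hda : (X - C a0) ^ rootMultiplicity a0 z ∣ a)
    (hdd : ∀ j, (X - C a0) ^ rootMultiplicity a0 z ∣ d j)
    (hd1 : (X - C a0) ^ rootMultiplicity a0 z ∣ g1) (hd2 : (X - C a0) ^ rootMultiplicity a0 z ∣ g2)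
    (hind : ∀ n1 n2 : ℤ, ¬ (g1 = n1 • z ∧ g2 = n2 • z)) :
    ((Om r 1 b).card : ℝ) * rootMultiplicity a0 β ≤ (Om r 1 b).card * rootMultiplicity a0 l1 +
      ((p : ℝ) - 1) * ∑ w ∈ Om r 1 b, (rootMultiplicity a0 (uu d w 0) : ℝ) := by
  set π : k[X] := X - C a0 with hπ
  set r0 := rootMultiplicity a0 z with hr0
  have hΩ0 : (0 : ℝ) < (Om r 1 b).card := by exact_mod_cast hΩ.card_pos
  have hp3 : (3 : ℝ) ≤ p := by exact_mod_cast hp
  have hu0 : ∀ w ∈ Om r 1 b, uu d w 0 ≠ 0 := fun w hw => (linearIndependent_uu hd hw).ne_zero 0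
  let c1 : ℝ := (((Om r 1 b).filter fun w => uu d w 0 ∈ Hl π (r0 + 1)).card : ℝ)
  let c2 : ℝ := (((Om r 1 b).filter fun w => uu d w 0 ∈ Hl π (r0 + 1 + 1)).card : ℝ)
  have hsum : ((Om r 1 b).card : ℝ) * r0 + c1 + c2 ≤
      ∑ w ∈ Om r 1 b, (rootMultiplicity a0 (uu d w 0) : ℝ) := by
    simp only [c1, c2, card_filter]
    push_cast
    rw [← nsmul_eq_mul, ← Finset.sum_const, ← Finset.sum_add_distrib, ← Finset.sum_add_distrib]
    refine Finset.sum_le_sum fun w hw => ?_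
    have h1 : r0 ≤ rootMultiplicity a0 (uu d w 0) := by
      rw [le_rootMultiplicity_iff (hu0 w hw)]
      exact dvd_sub (Finset.dvd_sum fun _ _ => hdd _) (Finset.dvd_sum fun _ _ => hdd _)
    simp only [mem_Hl, hπ, ← le_rootMultiplicity_iff (hu0 w hw)]
    split_ifs with h2 h3 h3
    · exact_mod_cast h3
    · have : r0 + 1 + 0 ≤ rootMultiplicity a0 (uu d w 0) := h2
      exact_mod_cast this
    · omega
    · have : r0 + 0 + 0 ≤ rootMultiplicity a0 (uu d w 0) := h1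
      exact_mod_cast this
  have hc1 : 0 ≤ c1 := Nat.cast_nonneg _
  have hc2 : 0 ≤ c2 := Nat.cast_nonneg _
  have hcast : ((p - 1 : ℕ) : ℝ) = p - 1 := by rw [Nat.cast_sub (by omega)]; simp
  by_cases hcase : ∃ g, kapHom p β l0 l1 g = 0 ∧ π ^ r0 ∣ g ∧ ∀ n : ℤ, ¬ π ^ (r0 + 1) ∣ g - n • z
  · obtain ⟨g, hg, hgd, hgn⟩ := hcase
    have h1 := ordB_one hβ hl hz hg hz0 a0 hgd hgn
    have h2 : (rootMultiplicity a0 β : ℝ) ≤ rootMultiplicity a0 l1 + (p - 1) * r0 := by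
      rw [← hcast]; exact_mod_cast h1
    have h3 := mul_le_mul_of_nonneg_left h2 hΩ0.le
    have h4 := mul_le_mul_of_nonneg_left hsum (by linarith : (0 : ℝ) ≤ p - 1)
    nlinarith
  push Not at hcase
  obtain ⟨n1, hn1⟩ := hcase g1 hg1 hd1
  obtain ⟨n2, hn2⟩ := hcase g2 hg2 hd2
  have h1 : rootMultiplicity a0 β ≤ rootMultiplicity a0 l1 + (p - 1) * r0 + 1 := by
    by_cases h : g1 = n1 • z
    · have h' : g2 - n2 • z ≠ 0 := fun h' => hind n1 n2 ⟨h, sub_eq_zero.1 h'⟩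
      exact ordB_two hβ hl hz (by rw [map_sub, map_zsmul, hz, hg2]; simp) hz0 h' a0 hn2
    · exact ordB_two hβ hl hz (by rw [map_sub, map_zsmul, hz, hg1]; simp) hz0
        (sub_ne_zero.2 h) a0 hn1
  have h2 : (rootMultiplicity a0 β : ℝ) ≤ rootMultiplicity a0 l1 + (p - 1) * r0 + 1 := by
    rw [← hcast]; exact_mod_cast h1
  obtain ⟨na, hna⟩ := hcase a ha hda
  choose nd hnd using fun j => hcase (d j) (hrel j) (hdd j)
  have e1 : ∀ S : Finset (Fin r × Fin 1 × Fin b),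
      ((na : ZMod p) + ∑ j ∈ S, (nd j : ZMod p) = 0) ↔ a + ∑ j ∈ S, d j ∈ Hl π (r0 + 1 + 1) := by
    intro S
    have h3 : π ^ (r0 + 1) ∣ (a + ∑ j ∈ S, d j) - (na + ∑ j ∈ S, nd j) • z := by
      have : (a + ∑ j ∈ S, d j) - (na + ∑ j ∈ S, nd j) • z =
          (a - na • z) + ∑ j ∈ S, (d j - nd j • z) := by
        rw [add_smul, Finset.sum_smul, Finset.sum_sub_distrib]; abel
      rw [this]
      exact dvd_add hna (Finset.dvd_sum fun j _ => hnd j)
    have h4 := dvd_zsmul_iff (p := p) hz0 a0 (na + ∑ j ∈ S, nd j)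
    push_cast at h4
    rw [← h4, ← dvd_iff_dvd_of_dvd_sub h3, mem_Hl, hπ, ← le_rootMultiplicity_iff (hsq S).2,
      ← le_rootMultiplicity_iff (hsq S).2]
    obtain ⟨m, hm⟩ := even_ord (hsq S).1 (hsq S).2 a0
    obtain ⟨m', hm'⟩ := even_ord hzs hz0 a0
    omega
  have e2 : ∀ w, (∑ i : Fin 1, 1 • uu (fun j => (nd j : ZMod p)) w i = 0) ↔
      uu d w 0 ∈ Hl π (r0 + 1) := by
    intro w
    have h3 : π ^ (r0 + 1) ∣ uu d w 0 - (uu nd w 0) • z := by
      have : uu d w 0 - (uu nd w 0) • z = uu (fun j => d j - nd j • z) w 0 := by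
        simp only [uu, sub_smul, Finset.sum_smul, Finset.sum_sub_distrib]; abel
      rw [this]
      exact dvd_sub (Finset.dvd_sum fun _ _ => hnd _) (Finset.dvd_sum fun _ _ => hnd _)
    have h4 := dvd_zsmul_iff (p := p) hz0 a0 (uu nd w 0)
    have h5 : ((uu nd w 0 : ℤ) : ZMod p) = uu (fun j => (nd j : ZMod p)) w 0 :=
      map_uu (Int.castAddHom (ZMod p)) nd w 0
    rw [Fin.sum_univ_one, one_smul, ← h5, ← h4, mem_Hl, dvd_iff_dvd_of_dvd_sub h3]
  have f1 := hF (ZMod p) (fun γ => by simp) (fun j => (nd j : ZMod p)) na (fun _ => 1)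
  simp only [e1, e2, ZMod.card] at f1
  have f2 := fourier_subgroup (p := p) hF (Hl π (r0 + 1 + 1)) d a (fun _ => 1)
  simp only [Fin.sum_univ_one, one_smul] at f2
  have f3 := (abs_le.1 f1).1
  have f4 : 2 / (p : ℝ) - 2 * η ≤ (c1 + c2) / (Om r 1 b).card := by
    rw [add_div]
    have : 2 / (p : ℝ) = 1 / p + 1 / p := by ring
    simp only [c1, c2]
    linarith
  rw [le_div_iff₀ hΩ0] at f4
  have f5 : 1 ≤ ((p : ℝ) - 1) * (2 / p - 2 * η) := by
    have g1 : 2 / (p : ℝ) - 2 * (1 / (4 * (p : ℝ) ^ 2)) ≤ 2 / p - 2 * η := by linarith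
    refine le_trans ?_ (mul_le_mul_of_nonneg_left g1 (by linarith))
    have : ((p : ℝ) - 1) * (2 / p - 2 * (1 / (4 * (p : ℝ) ^ 2))) =
        (p - 1) * (4 * p - 1) / (2 * p ^ 2) := by field_simp; ring
    rw [this, le_div_iff₀ (by positivity)]
    nlinarith
  have h3 := mul_le_mul_of_nonneg_left h2 hΩ0.le
  have h4 := mul_le_mul_of_nonneg_left hsum (by linarith : (0 : ℝ) ≤ p - 1)
  have h5 := mul_le_mul_of_nonneg_left f4 (by linarith : (0 : ℝ) ≤ p - 1)
  have h6 := mul_le_mul_of_nonneg_right f5 hΩ0.le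
  nlinarith

lemma sum_map_emb {ι κ R : Type*} [AddCommMonoid R] (f : ι ↪ κ) (d : κ → R) (S : Finset ι) :
    ∑ j ∈ S, d (f j) = ∑ j ∈ S.map f, d j := (Finset.sum_map S f d).symm

theorem caseB [IsAlgClosed k] {r b : ℕ} {η : ℝ} (hp : 3 ≤ p) (hF : FourierOK p r 1 b η)
    (hη : η ≤ 1 / (4 * (p : ℝ) ^ 2)) (hΩ : (Om r 1 b).Nonempty) {κ : Type} [Fintype κ]
    (f : Fin r × Fin 1 × Fin b ↪ κ) {j1 j2 : κ} (hj : j1 ≠ j2)
    (d : κ → k[X]) (a : k[X]) (hd : LinearIndependent (ZMod p) d)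
    (hsq : ∀ S : Finset κ, IsSquare (a + ∑ j ∈ S, d j) ∧ a + ∑ j ∈ S, d j ≠ 0)
    {β l0 l1 : k[X]} (hβ : β ≠ 0) (hl : l1 ≠ 0) (hrel : ∀ j, kapHom p β l0 l1 (d j) = 0)
    (ha : kapHom p β l0 l1 a = 0) : False := by
  classical
  have hind : ∀ (z : k[X]) (n1 n2 : ℤ), ¬ (d j1 = n1 • z ∧ d j2 = n2 • z) := by
    rintro z n1 n2 ⟨h1, h2⟩
    have hp2 : LinearIndependent (ZMod p) ![d j1, d j2] := by
      have := hd.comp ![j1, j2] (by
        intro x y hxy
        fin_cases x <;> fin_cases y <;> simp_all [eq_comm])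
      convert this using 1
      ext i; fin_cases i <;> rfl
    have h3 := (LinearIndependent.pair_iff.1 hp2) (n2 : ZMod p) (-(n1 : ZMod p)) (by
      rw [neg_smul, Int.cast_smul_eq_zsmul, Int.cast_smul_eq_zsmul, h1, h2, smul_comm]; simp)
    apply hd.ne_zero j1
    rw [h1, ← Int.cast_smul_eq_zsmul (ZMod p), neg_eq_zero.1 h3.2, zero_smul]
  have hd' : LinearIndependent (ZMod p) (fun j => d (f j)) := hd.comp f f.injective
  have hloc : ∀ a0 : k, ((Om r 1 b).card : ℝ) * rootMultiplicity a0 β ≤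
      (Om r 1 b).card * rootMultiplicity a0 l1 +
      ((p : ℝ) - 1) * ∑ w ∈ Om r 1 b, (rootMultiplicity a0 (uu (fun j => d (f j)) w 0) : ℝ) := by
    intro a0
    obtain ⟨S0, -, hS0⟩ := exists_min_image (univ : Finset (Finset κ))
      (fun S => rootMultiplicity a0 (a + ∑ j ∈ S, d j)) univ_nonempty
    have h1 : ∀ S : Finset κ, (X - C a0) ^ rootMultiplicity a0 (a + ∑ j ∈ S0, d j) ∣
        a + ∑ j ∈ S, d j := fun S => (le_rootMultiplicity_iff (hsq S).2).1 (hS0 S (mem_univ _))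
    have h2 : (X - C a0) ^ rootMultiplicity a0 (a + ∑ j ∈ S0, d j) ∣ a := by simpa using h1 ∅
    have h3 : ∀ j, (X - C a0) ^ rootMultiplicity a0 (a + ∑ j ∈ S0, d j) ∣ d j := by
      intro j
      have := dvd_sub (h1 {j}) h2
      simpa using this
    refine local_B hp hF hη hΩ _ a hd' (fun S => ?_) hβ hl (fun j => hrel _) ha a0 (hsq S0).2
      (hsq S0).1 ?_ (hrel j1) (hrel j2) h2 (fun j => h3 _) (h3 j1) (h3 j2) (hind _)
    · rw [sum_map_emb]; exact hsq _
    · simp [map_add, map_sum, ha, hrel]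
  have hglob : ∀ w ∈ Om r 1 b, (l1.natDegree : ℝ) +
      ((p : ℝ) - 1) * (uu (fun j => d (f j)) w 0).natDegree + 1 ≤ β.natDegree := by
    intro w hw
    have hu0 := (linearIndependent_uu hd' hw).ne_zero 0
    have hu : kapHom p β l0 l1 (uu (fun j => d (f j)) w 0) = 0 := by
      rw [map_uu]; simp [uu, hrel]
    have hcast : ((p - 1 : ℕ) : ℝ) = p - 1 := by rw [Nat.cast_sub (by omega)]; simp
    have : l1.natDegree + (p - 1) * (uu (fun j => d (f j)) w 0).natDegree + 1 ≤ β.natDegree := by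
      by_cases h : ∀ n : ℤ, d j1 ≠ n • uu (fun j => d (f j)) w 0
      · exact degB hβ hl hu (hrel j1) hu0 h
      · push Not at h
        obtain ⟨n1, hn1⟩ := h
        exact degB hβ hl hu (hrel j2) hu0 fun n2 hn2 => hind _ n1 n2 ⟨hn1, hn2⟩
    rw [← hcast]; exact_mod_cast this
  have h1 := Finset.sum_le_sum (s := β.roots.toFinset) fun a0 _ => hloc a0
  rw [Finset.sum_add_distrib, ← Finset.mul_sum, ← Finset.mul_sum, ← Finset.mul_sum,
    Finset.sum_comm] at h1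
  have h2 : ∑ a0 ∈ β.roots.toFinset, (rootMultiplicity a0 β : ℝ) = β.natDegree := by
    rw [← sum_ord_eq β.roots.toFinset fun a ha => Multiset.mem_toFinset.2 ha]; push_cast; rfl
  have h3 : ∀ g : k[X], ∑ a0 ∈ β.roots.toFinset, (rootMultiplicity a0 g : ℝ) ≤ g.natDegree := by
    intro g; exact_mod_cast sum_ord_le (f := g) β.roots.toFinset
  have h4 : ∑ w ∈ Om r 1 b, ∑ a0 ∈ β.roots.toFinset,
      (rootMultiplicity a0 (uu (fun j => d (f j)) w 0) : ℝ) ≤
      ∑ w ∈ Om r 1 b, ((uu (fun j => d (f j)) w 0).natDegree : ℝ) :=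
    Finset.sum_le_sum fun w _ => h3 _
  have h5 := Finset.sum_le_sum hglob
  simp only [Finset.sum_add_distrib, sum_const, nsmul_eq_mul, ← Finset.mul_sum] at h5
  have hΩ0 : (0 : ℝ) < (Om r 1 b).card := by exact_mod_cast hΩ.card_pos
  have hp3 : (3 : ℝ) ≤ p := by exact_mod_cast hp
  have h6 := mul_le_mul_of_nonneg_left (h3 l1) hΩ0.le
  have h7 := mul_le_mul_of_nonneg_left h4 (by linarith : (0 : ℝ) ≤ p - 1)
  rw [h2] at h1
  linarith

/-- The endgame, given the Fourier estimates. -/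
theorem endgame [IsAlgClosed k] {r b r' b' : ℕ} {η : ℝ} (hp : 3 ≤ p)
    (hη : η ≤ 1 / (4 * (p : ℝ) ^ 2))
    (hF : FourierOK p r 1 b η) (hΩ : (Om r 1 b).Nonempty)
    (hF' : FourierOK p r' 2 b' η) (hΩ' : (Om r' 2 b').Nonempty)
    {κ : Type} [Fintype κ] (hκ : r * b + r' * 2 * b' + 2 ≤ Fintype.card κ)
    (d : κ → k[X]) (a : k[X]) (n : ℕ) (hd : LinearIndependent (ZMod p) d)
    (hsq : ∀ S : Finset κ, IsSquare (a + ∑ j ∈ S, d j) ∧ a + ∑ j ∈ S, d j ≠ 0 ∧
      (a + ∑ j ∈ S, d j).natDegree = n)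
    (hW : ∀ j, wronskian a (d j) ≠ 0)
    {β l0 l1 : k[X]} (hβ : β ≠ 0)
    (hrel : ∀ j, β * derivative (d j) = l0 * d j + l1 * d j ^ p) : False := by
  have hrel' : ∀ j, kapHom p β l0 l1 (d j) = 0 := fun j => by
    rw [kapHom_apply, kap, hrel, sub_self]
  by_cases ha : kapHom p β l0 l1 a = 0
  · obtain ⟨j1, j2, hj⟩ := Fintype.exists_pair_of_one_lt_card (α := κ) (by omega)
    have hl : l1 ≠ 0 := by
      intro h
      have := wr_identity ha (hrel' j1)
      rw [h, zero_mul] at this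
      exact mul_ne_zero hβ (hW j1) this
    obtain ⟨f⟩ := Function.Embedding.nonempty_of_card_le (α := Fin r × Fin 1 × Fin b) (β := κ)
      (by simp; omega)
    exact caseB hp hF hη hΩ f hj d a hd (fun S => ⟨(hsq S).1, (hsq S).2.1⟩) hβ hl hrel' ha
  · obtain ⟨f⟩ := Function.Embedding.nonempty_of_card_le (α := Fin r' × Fin 2 × Fin b') (β := κ)
      (by simp [← mul_assoc]; omega)
    refine caseA hF' hη hΩ' (fun j => d (f j)) a n (hd.comp f f.injective) (fun S => ?_) hβ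
      (fun j => hrel' _) ha
    rw [sum_map_emb]; exact hsq _

end Pool.Agent.P.MP_9d026e_co
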