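import Mathlib

/-! Divisibility of exterior products of vectors by powers of a fixed ring element. -/

open ExteriorAlgebra

namespace Pool.Agent.P.MP_9d026e_co

section wedge

variable {R : Type*} [CommRing R] {M : Type*} [AddCommGroup M] [Module R M]

/-- the exterior product of the list `l` is `t ^ m` times an element of the right degree -/
def WDiv (t : R) (l : List M) (m : ℕ) : Prop :=
  ∃ η ∈ ⋀[R]^l.length M, (l.map (ι R)).prod = t ^ m • η

theorem prod_mem_pow (l : List M) : (l.map (ι R)).prod ∈ ⋀[R]^l.length M := by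
  induction l with
  | nil => simp [exteriorPower]
  | cons x l ih =>
    rw [List.map_cons, List.prod_cons, List.length_cons, exteriorPower, pow_succ']
    exact Submodule.mul_mem_mul (LinearMap.mem_range_self _ _) ih

theorem WDiv.zero (t : R) (l : List M) : WDiv t l 0 :=
  ⟨_, prod_mem_pow l, by simp⟩

theorem WDiv.append {t : R} {l₁ l₂ : List M} {m₁ m₂ : ℕ} (h₁ : WDiv t l₁ m₁)
    (h₂ : WDiv t l₂ m₂) : WDiv t (l₁ ++ l₂) (m₁ + m₂) := by
  obtain ⟨η₁, hη₁, e₁⟩ := h₁
  obtain ⟨η₂, hη₂, e₂⟩ := h₂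
  refine ⟨η₁ * η₂, ?_, ?_⟩
  · rw [List.length_append, exteriorPower, pow_add]
    exact Submodule.mul_mem_mul hη₁ hη₂
  · rw [List.map_append, List.prod_append, e₁, e₂, pow_add, smul_mul_smul_comm]

theorem prod_perm {l l' : List M} (h : l.Perm l') :
    (l.map (ι R)).prod = (l'.map (ι R)).prod ∨ (l.map (ι R)).prod = -(l'.map (ι R)).prod := by
  induction h with
  | nil => left; rfl
  | cons x _ ih =>
    rcases ih with ih | ih
    · left; simp [ih]
    · right; simp [ih]
  | swap x y l =>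
    right
    simp only [List.map_cons, List.prod_cons, ← mul_assoc]
    rw [← neg_mul, eq_neg_of_add_eq_zero_left (ι_add_mul_swap (R := R) y x)]
  | trans _ _ ih₁ ih₂ =>
    rcases ih₁ with ih₁ | ih₁ <;> rcases ih₂ with ih₂ | ih₂
    · left; rw [ih₁, ih₂]
    · right; rw [ih₁, ih₂]
    · right; rw [ih₁, ih₂]
    · left; rw [ih₁, ih₂, neg_neg]

theorem WDiv.perm {t : R} {l l' : List M} {m : ℕ} (h : l.Perm l') (hd : WDiv t l' m) :
    WDiv t l m := by
  obtain ⟨η, hη, e⟩ := hd
  rcases prod_perm (R := R) h with h' | h'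
  · exact ⟨η, h.length_eq ▸ hη, h'.trans e⟩
  · exact ⟨-η, h.length_eq ▸ neg_mem hη, by rw [h', e, smul_neg]⟩

theorem map_prod_list (T : M →ₗ[R] M) (l : List M) :
    ((l.map T).map (ι R)).prod = ExteriorAlgebra.map T (l.map (ι R)).prod := by
  induction l with
  | nil => simp
  | cons x l ih => simp only [List.map_cons, List.prod_cons, map_mul, map_apply_ι, ih]

theorem map_mem_pow (T : M →ₗ[R] M) {c : ℕ} {η : ExteriorAlgebra R M} (h : η ∈ ⋀[R]^c M) :
    ExteriorAlgebra.map T η ∈ ⋀[R]^c M := by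
  rw [← ιMulti_span_fixedDegree] at h
  induction h using Submodule.span_induction with
  | mem x hx =>
    obtain ⟨v, rfl⟩ := hx
    rw [map_apply_ιMulti]
    exact ιMulti_range R c ⟨_, rfl⟩
  | zero => simp
  | add x y _ _ hx hy => rw [map_add]; exact add_mem hx hy
  | smul a x _ hx => rw [map_smul]; exact Submodule.smul_mem _ _ hx

theorem WDiv.map {t : R} {l : List M} {m : ℕ} (T : M →ₗ[R] M) (hd : WDiv t l m) :
    WDiv t (l.map T) m := by
  obtain ⟨η, hη, e⟩ := hd
  refine ⟨ExteriorAlgebra.map T η, ?_, ?_⟩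
  · rw [List.length_map]; exact map_mem_pow T hη
  · rw [map_prod_list, e, map_smul]

end wedge

section diag

variable {R : Type*} [CommRing R] {α : Type*} [Fintype α] [DecidableEq α]

/-- the diagonal map with entries `t ^ w a` -/
def diagMap (t : R) (w : α → ℕ) : (α → R) →ₗ[R] (α → R) where
  toFun v := fun a => t ^ w a * v a
  map_add' u v := by ext a; simp [mul_add]
  map_smul' c v := by ext a; simp [mul_left_comm]

theorem diag_mem (t : R) (w : α → ℕ) (c W : ℕ)
    (hW : ∀ T : Finset α, T.card = c → W ≤ ∑ a ∈ T, w a)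
    {η : ExteriorAlgebra R (α → R)} (h : η ∈ ⋀[R]^c (α → R)) :
    ∃ η' ∈ ⋀[R]^c (α → R), ExteriorAlgebra.map (diagMap t w) η = t ^ W • η' := by
  rw [← ιMulti_span_fixedDegree] at h
  have hadd : ∀ x y : ExteriorAlgebra R (α → R),
      (∃ η' ∈ ⋀[R]^c (α → R), x = t ^ W • η') → (∃ η' ∈ ⋀[R]^c (α → R), y = t ^ W • η') →
      (∃ η' ∈ ⋀[R]^c (α → R), x + y = t ^ W • η') := by
    rintro x y ⟨a, ha, rfl⟩ ⟨b, hb, rfl⟩
    exact ⟨a + b, add_mem ha hb, by rw [smul_add]⟩
  induction h using Submodule.span_induction with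
  | mem x hx =>
    obtain ⟨v, rfl⟩ := hx
    rw [map_apply_ιMulti]
    have hv : (diagMap t w) ∘ v =
        fun i => ∑ a : α, (t ^ w a * v i a) • (Pi.single a 1 : α → R) := by
      funext i
      ext b
      simp [diagMap, Finset.sum_apply, Pi.single_apply]
    have hsum := (ιMulti R c (M := α → R)).toMultilinearMap.map_sum
      (fun (i : Fin c) (a : α) => (t ^ w a * v i a) • (Pi.single a 1 : α → R))
    rw [hv]
    change ∃ η' ∈ ⋀[R]^c (α → R), (ιMulti R c (M := α → R)).toMultilinearMap _ = _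
    rw [hsum]
    refine Finset.sum_induction _ (fun x => ∃ η' ∈ ⋀[R]^c (α → R), x = t ^ W • η') hadd
      ⟨0, zero_mem _, by simp⟩ ?_
    intro r _
    rw [MultilinearMap.map_smul_univ]
    by_cases hr : Function.Injective r
    · have hc : (Finset.univ.image r).card = c := by
        rw [Finset.card_image_of_injective _ hr]; simp
      have h1 := hW _ hc
      rw [Finset.sum_image (fun a _ b _ h => hr h)] at h1
      obtain ⟨d, hd⟩ := Nat.exists_eq_add_of_le h1
      refine ⟨(t ^ d * ∏ i, v i (r i)) • ιMulti R c (fun i => (Pi.single (r i) 1 : α → R)),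
        Submodule.smul_mem _ _ (ιMulti_range R c ⟨_, rfl⟩), ?_⟩
      rw [Finset.prod_mul_distrib, Finset.prod_pow_eq_pow_sum, hd, pow_add, smul_smul, mul_assoc]
      rfl
    · refine ⟨0, zero_mem _, ?_⟩
      have : (ιMulti R c (M := α → R)) (fun i => (Pi.single (r i) 1 : α → R)) = 0 := by
        apply ιMulti_eq_zero_of_not_inj
        intro hinj
        apply hr
        intro i j hij
        apply hinj
        simp only [hij]
      change _ • (ιMulti R c (M := α → R)) (fun i => (Pi.single (r i) 1 : α → R)) = _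
      rw [this]; simp
  | zero => exact ⟨0, zero_mem _, by simp⟩
  | add x y _ _ hx hy => rw [map_add]; exact hadd _ _ hx hy
  | smul a x _ hx =>
    obtain ⟨b, hb, e⟩ := hx
    exact ⟨a • b, Submodule.smul_mem _ _ hb, by rw [map_smul, e, smul_comm]⟩

theorem WDiv.diag {t : R} {l : List (α → R)} {m : ℕ} (w : α → ℕ) (W : ℕ)
    (hW : ∀ T : Finset α, T.card = l.length → W ≤ ∑ a ∈ T, w a) (hd : WDiv t l m) :
    WDiv t (l.map (diagMap t w)) (m + W) := by
  obtain ⟨η, hη, e⟩ := hd
  obtain ⟨η', hη', e'⟩ := diag_mem t w l.length W hW hη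
  refine ⟨η', by rwa [List.length_map], ?_⟩
  rw [map_prod_list, e, map_smul, e', smul_smul, pow_add]

end diag

theorem WDiv.dvd_det {R : Type*} [CommRing R] {N : ℕ} {t : R} {m : ℕ}
    (v : Fin N → Fin N → R) (h : WDiv t (List.ofFn v) m) : t ^ m ∣ (Matrix.of v).det := by
  classical
  obtain ⟨η, -, e⟩ := h
  let F : ∀ i : ℕ, (Fin N → R) [⋀^Fin i]→ₗ[R] R := Pi.single N Matrix.detRowAlternating
  have h1 : liftAlternating (R := R) (M := Fin N → R) (N := R) F (ιMulti R N v) =
      (Matrix.of v).det := by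
    rw [liftAlternating_apply_ιMulti]
    simp only [F, Pi.single_eq_same]
    rfl
  have h2 : ιMulti R N v = t ^ m • η := by
    rw [← e, ιMulti_apply, List.map_ofFn]; rfl
  rw [← h1, h2, map_smul]
  exact Dvd.intro _ rfl

end Pool.Agent.P.MP_9d026e_co
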