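import Mathlib
import Pool.Agent.P.MP_9d026e_co.Wedge

/-! The 58 monomials, their weights, and the change of frame. -/

namespace Pool.Agent.P.MP_9d026e_co

/-- bound for the second exponent in total degree `n` -/
def phi (n : ℕ) : ℕ := if n = 13 then 2 else min n 4

/-- list of the exponent pairs -/
def monL : List (ℕ × ℕ) :=
  [(0, 0), (1, 0), (0, 1), (2, 0), (1, 1), (0, 2), (3, 0), (2, 1), (1, 2), (0, 3), (4, 0), (3, 1),
   (2, 2), (1, 3), (0, 4), (5, 0), (4, 1), (3, 2), (2, 3), (1, 4), (6, 0), (5, 1), (4, 2), (3, 3),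
   (2, 4), (7, 0), (6, 1), (5, 2), (4, 3), (3, 4), (8, 0), (7, 1), (6, 2), (5, 3), (4, 4), (9, 0),
   (8, 1), (7, 2), (6, 3), (5, 4), (10, 0), (9, 1), (8, 2), (7, 3), (6, 4), (11, 0), (10, 1),
   (9, 2), (8, 3), (7, 4), (12, 0), (11, 1), (10, 2), (9, 3), (8, 4), (13, 0), (12, 1), (11, 2)]

/-- first exponent -/
def ex1 (μ : Fin 58) : ℕ := (monL.getD μ (0, 0)).1

/-- second exponent -/
def ex2 (μ : Fin 58) : ℕ := (monL.getD μ (0, 0)).2

/-- weight of the adapted basis vector -/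
def wt (μ : Fin 58) : ℕ :=
  2 * (ex1 μ + ex2 μ - phi (ex1 μ + ex2 μ)) + (phi (ex1 μ + ex2 μ) - ex2 μ) + 3 * ex2 μ

theorem ex_mem : ∀ μ : Fin 58, ex1 μ + ex2 μ ≤ 13 ∧ ex2 μ ≤ phi (ex1 μ + ex2 μ) := by
  decide +kernel

theorem ex_surj' : ∀ i : Fin 14, ∀ j : Fin 5, i.val + j.val ≤ 13 → j.val ≤ phi (i.val + j.val) →
    ∃ μ : Fin 58, ex1 μ = i.val ∧ ex2 μ = j.val := by
  decide +kernel

theorem phi_le (n : ℕ) : phi n ≤ 4 := by unfold phi; split_ifs <;> omega

theorem phi_le_self (n : ℕ) : phi n ≤ n := by unfold phi; split_ifs <;> omega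

theorem ex_surj {i j : ℕ} (h1 : i + j ≤ 13) (h2 : j ≤ phi (i + j)) :
    ∃ μ : Fin 58, ex1 μ = i ∧ ex2 μ = j := by
  have := phi_le (i + j)
  exact ex_surj' ⟨i, by omega⟩ ⟨j, by omega⟩ h1 h2

theorem ex_inj : ∀ μ ν : Fin 58, ex1 μ = ex1 ν → ex2 μ = ex2 ν → μ = ν := by
  decide +kernel

theorem ex_sum1 : ∑ μ : Fin 58, ex1 μ = 316 := by decide +kernel

theorem ex_sum2 : ∑ μ : Fin 58, ex2 μ = 103 := by decide +kernel

theorem wt_dual : ∀ c : Fin 59, ∃ lam : Fin 30,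
    838 * (c.val * c.val / 4) + 841 * ∑ μ : Fin 58, (lam.val - wt μ) ≤ 841 * (lam.val * c.val) := by
  decide +kernel

theorem wt_bound (T : Finset (Fin 58)) (a b : ℕ) (h : T.card = a + b) :
    838 * (a * b) ≤ 841 * ∑ μ ∈ T, wt μ := by
  have hc : a + b < 59 := by
    have := Finset.card_le_univ T
    rw [Fintype.card_fin] at this; omega
  obtain ⟨lam, hl⟩ := wt_dual ⟨a + b, hc⟩
  simp only at hl
  have h1 : a * b ≤ (a + b) * (a + b) / 4 := by
    rw [Nat.le_div_iff_mul_le (by norm_num)]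
    nlinarith [sq_nonneg ((a : ℤ) - b)]
  have h2 : lam.val * (a + b) ≤ ∑ μ ∈ T, wt μ + ∑ μ : Fin 58, (lam.val - wt μ) := by
    have h3 : ∑ μ ∈ T, (lam.val - wt μ) ≤ ∑ μ : Fin 58, (lam.val - wt μ) :=
      Finset.sum_le_sum_of_subset (Finset.subset_univ T)
    have h4 : lam.val * (a + b) = ∑ _μ ∈ T, lam.val := by
      rw [Finset.sum_const, h, smul_eq_mul, mul_comm]
    have h5 : ∑ _μ ∈ T, lam.val ≤ ∑ μ ∈ T, (wt μ + (lam.val - wt μ)) :=
      Finset.sum_le_sum fun μ _ => by omega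
    rw [Finset.sum_add_distrib] at h5
    omega
  omega

section span

variable {R : Type*} [CommRing R] {A : Type*} [CommRing A] [Algebra R A]

theorem pair_mem (S : Submodule R A) (x y : A) (a b c d : R) (B : ℕ) :
    ∀ (g : A) (r s : ℕ), r + s = B → (∀ j ≤ B, g * x ^ (B - j) * y ^ j ∈ S) →
      g * (a • x + b • y) ^ r * (c • x + d • y) ^ s ∈ S := by
  induction B with
  | zero =>
    intro g r s hrs h
    have hr : r = 0 := by omega
    have hs : s = 0 := by omega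
    subst hr hs
    simpa using h 0 le_rfl
  | succ B ih =>
    intro g r s hrs h
    have hx : ∀ j ≤ B, (g * x) * x ^ (B - j) * y ^ j ∈ S := by
      intro j hj
      have := h j (by omega)
      rw [show B + 1 - j = (B - j) + 1 by omega, pow_succ] at this
      convert this using 1; ring
    have hy : ∀ j ≤ B, (g * y) * x ^ (B - j) * y ^ j ∈ S := by
      intro j hj
      have := h (j + 1) (by omega)
      rw [show B + 1 - (j + 1) = B - j by omega, pow_succ] at this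
      convert this using 1; ring
    rcases r with _ | r
    · rcases s with _ | s
      · omega
      · have h1 := ih (g * x) 0 s (by omega) hx
        have h2 := ih (g * y) 0 s (by omega) hy
        have := S.add_mem (S.smul_mem c h1) (S.smul_mem d h2)
        convert this using 1
        simp only [Algebra.smul_def]; ring
    · have h1 := ih (g * x) r s (by omega) hx
      have h2 := ih (g * y) r s (by omega) hy
      have := S.add_mem (S.smul_mem a h1) (S.smul_mem b h2)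
      convert this using 1
      simp only [Algebra.smul_def]; ring

/-- span of the monomials -/
def Lam (R : Type*) [CommRing R] {A : Type*} [CommRing A] [Algebra R A] (x y : A) :
    Submodule R A := Submodule.span R (Set.range fun μ : Fin 58 => x ^ ex1 μ * y ^ ex2 μ)

/-- the adapted family -/
def Psi (x y z : A) (μ : Fin 58) : A :=
  x ^ (ex1 μ + ex2 μ - phi (ex1 μ + ex2 μ)) * y ^ (phi (ex1 μ + ex2 μ) - ex2 μ) * z ^ ex2 μ

theorem mono_mem_Lam (x y : A) {i j : ℕ} (h1 : i + j ≤ 13) (h2 : j ≤ phi (i + j)) :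
    x ^ i * y ^ j ∈ Lam R x y := by
  obtain ⟨μ, rfl, rfl⟩ := ex_surj h1 h2
  exact Submodule.subset_span ⟨μ, rfl⟩

theorem transl_mem (x y : A) (c d : R) (μ : Fin 58) :
    (c • 1 + x) ^ ex1 μ * (d • 1 + y) ^ ex2 μ ∈ Lam R x y := by
  obtain ⟨h1, h2⟩ := ex_mem μ
  have := pair_mem (Lam R x y) 1 y d 1 0 0 (ex2 μ) ((c • 1 + x) ^ ex1 μ) (ex2 μ) 0 rfl ?_
  · simpa using this
  · intro j hj
    have := pair_mem (Lam R x y) 1 x c 1 0 0 (ex1 μ) (y ^ j) (ex1 μ) 0 rfl ?_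
    · convert this using 1
      simp only [one_pow, mul_one, one_smul, pow_zero]; ring
    · intro i hi
      have h3 : x ^ i * y ^ j ∈ Lam R x y := by
        apply mono_mem_Lam
        · omega
        · have := phi_le (ex1 μ + ex2 μ)
          unfold phi at h2 ⊢
          split_ifs at h2 ⊢ <;> omega
      convert h3 using 1
      simp only [one_pow, mul_one]; ring

theorem mono_mem_Psi (x y : A) (t u : R) (hu : u * 2 = 1) (μ : Fin 58) :
    x ^ ex1 μ * y ^ ex2 μ ∈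
      Submodule.span R (Set.range (Psi x y ((2 : R) • x - t • y))) := by
  obtain ⟨h1, h2⟩ := ex_mem μ
  have h3 := phi_le_self (ex1 μ + ex2 μ)
  have := pair_mem (Submodule.span R (Set.range (Psi x y ((2 : R) • x - t • y)))) y
    ((2 : R) • x - t • y) (u * t) u 1 0 (phi (ex1 μ + ex2 μ))
    (x ^ (ex1 μ + ex2 μ - phi (ex1 μ + ex2 μ))) (phi (ex1 μ + ex2 μ) - ex2 μ) (ex2 μ)
    (by omega) ?_
  · have hx : (u * t) • y + u • ((2 : R) • x - t • y) = x := by
      rw [smul_sub, smul_smul, smul_smul, hu, one_smul]; abel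
    rw [hx, one_smul, zero_smul, add_zero, ← pow_add] at this
    convert this using 3
    omega
  · intro j hj
    obtain ⟨ν, e1, e2⟩ := ex_surj (i := ex1 μ + ex2 μ - j) (j := j) (by omega)
      (by rw [show ex1 μ + ex2 μ - j + j = ex1 μ + ex2 μ by omega]; exact hj)
    refine Submodule.subset_span ⟨ν, ?_⟩
    have e3 : ex1 ν + ex2 ν = ex1 μ + ex2 μ := by omega
    rw [Psi, e3, e2]

theorem Psi_mem_Lam (x y : A) (t : R) (μ : Fin 58) :
    Psi x ((2 : R) • x + t • y) (-y) μ ∈ Lam R x y := by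
  obtain ⟨h1, h2⟩ := ex_mem μ
  have h3 := phi_le_self (ex1 μ + ex2 μ)
  have := pair_mem (Lam R x y) x y 2 t 0 (-1) (phi (ex1 μ + ex2 μ))
    (x ^ (ex1 μ + ex2 μ - phi (ex1 μ + ex2 μ))) (phi (ex1 μ + ex2 μ) - ex2 μ) (ex2 μ)
    (by omega) ?_
  · simpa [Psi] using this
  · intro j hj
    rw [← pow_add]
    apply mono_mem_Lam
    · omega
    · rw [show ex1 μ + ex2 μ - phi (ex1 μ + ex2 μ) + (phi (ex1 μ + ex2 μ) - j) + j =
        ex1 μ + ex2 μ by omega]
      exact hj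

end span

section frame

variable {R : Type*} [CommRing R]

theorem exists_lin {Ω : Type*} (F G : Fin 58 → Ω → R)
    (h : ∀ μ, F μ ∈ Submodule.span R (Set.range G)) :
    ∃ T : (Fin 58 → R) →ₗ[R] (Fin 58 → R), ∀ ω, (fun μ => F μ ω) = T (fun ν => G ν ω) := by
  choose c hc using fun μ => (Submodule.mem_span_range_iff_exists_fun R).1 (h μ)
  refine ⟨Matrix.mulVecLin (Matrix.of c), fun ω => ?_⟩
  funext μ
  rw [← hc μ]
  simp [Matrix.mulVec, dotProduct, Finset.sum_apply]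

/-- vector of the monomials at a point -/
def evp (x y : R) : Fin 58 → R := fun μ => x ^ ex1 μ * y ^ ex2 μ

theorem frame (t u c d : R) (hu : u * 2 = 1) :
    ∃ T₁ T₂ : (Fin 58 → R) →ₗ[R] (Fin 58 → R), ∀ x y : R,
      evp (c + t ^ 2 * x) (d + (2 * t * x + t ^ 2 * y)) = T₁ (diagMap t wt (T₂ (evp x y))) := by
  obtain ⟨A₁, h₁⟩ := exists_lin (Ω := R × R)
    (fun μ => (c • 1 + Prod.fst) ^ ex1 μ * (d • 1 + Prod.snd) ^ ex2 μ)
    (fun μ => Prod.fst ^ ex1 μ * Prod.snd ^ ex2 μ) (transl_mem _ _ c d)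
  obtain ⟨A₂, h₂⟩ := exists_lin (Ω := R × R)
    (fun μ => Prod.fst ^ ex1 μ * Prod.snd ^ ex2 μ)
    (Psi Prod.fst Prod.snd ((2 : R) • Prod.fst - t • Prod.snd)) (mono_mem_Psi _ _ t u hu)
  obtain ⟨A₃, h₃⟩ := exists_lin (Ω := R × R)
    (Psi Prod.fst ((2 : R) • Prod.fst + t • Prod.snd) (-Prod.snd))
    (fun μ => Prod.fst ^ ex1 μ * Prod.snd ^ ex2 μ) (Psi_mem_Lam _ _ t)
  refine ⟨A₁ ∘ₗ A₂, A₃, fun x y => ?_⟩
  have e₁ := h₁ (t ^ 2 * x, 2 * t * x + t ^ 2 * y)
  have e₂ := h₂ (t ^ 2 * x, 2 * t * x + t ^ 2 * y)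
  have e₃ := h₃ (x, y)
  have e₄ : evp x y = fun ν => (((Prod.fst : R × R → R) ^ ex1 ν *
      (Prod.snd : R × R → R) ^ ex2 ν : R × R → R)) (x, y) := by
    funext ν; simp [evp]
  rw [e₄, ← e₃, LinearMap.comp_apply]
  have e₅ : (diagMap t wt) (fun μ => Psi (Prod.fst : R × R → R)
      ((2 : R) • Prod.fst + t • Prod.snd) (-Prod.snd) μ (x, y)) =
      fun μ => Psi (Prod.fst : R × R → R) Prod.snd ((2 : R) • Prod.fst - t • Prod.snd) μ
        (t ^ 2 * x, 2 * t * x + t ^ 2 * y) := by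
    funext μ
    simp only [diagMap, Psi, wt, LinearMap.coe_mk, AddHom.coe_mk, Pi.mul_apply, Pi.pow_apply,
      Pi.add_apply, Pi.sub_apply, Pi.smul_apply, Pi.neg_apply, smul_eq_mul]
    rw [show 2 * t * x + t ^ 2 * y = t * (2 * x + t * y) by ring,
      show 2 * (t ^ 2 * x) - t * (t * (2 * x + t * y)) = t ^ 3 * (-y) by ring]
    simp only [mul_pow, ← pow_mul, pow_add]
    ring
  rw [e₅, ← e₂, ← e₁]
  funext μ
  simp [evp]

end frame

end Pool.Agent.P.MP_9d026e_co
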