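import Pool.Agent.P.MP_9d026e_co.Defs
import Pool.Agent.P.MP_9d026e_co.Frame

/-! The determinant lemma: one of the two families of jets lies on a curve of bounded degree. -/

open Polynomial Pointwise

namespace Pool.Agent.P.MP_9d026e_co

/-- vector of monomials in a polynomial and its derivative -/
noncomputable def jet {k : Type*} [Field k] (f : k[X]) : Fin 58 → k[X] := evp f (derivative f)

theorem toList_perm_filter {σ : Type*} (A : Finset σ) (p : σ → Prop) [DecidablePred p] :
    A.toList.Perm ((A.filter p).toList ++ (A.filter fun x => ¬ p x).toList) := by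
  apply Multiset.coe_eq_coe.1
  rw [← Multiset.coe_add, Finset.coe_toList, Finset.coe_toList, Finset.coe_toList,
    Finset.filter_val, Finset.filter_val, Multiset.filter_add_not]

theorem rm_eq_zero {k : Type*} [Field k] {a : k} {h : k[X]} (he : Even (rootMultiplicity a h))
    (hn : ¬ (X - C a) ^ 2 ∣ h) : rootMultiplicity a h = 0 := by
  by_contra h0
  apply hn
  have h2 : 2 ≤ rootMultiplicity a h := by
    obtain ⟨r, hr⟩ := he
    omega
  exact (pow_dvd_pow _ h2).trans (pow_rootMultiplicity_dvd h a)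

theorem jet_zoom {k : Type*} [Field k] (h2 : (2 : k) ≠ 0) (a : k) (f₀ : k[X]) :
    ∃ T₁ T₂ : (Fin 58 → k[X]) →ₗ[k[X]] (Fin 58 → k[X]), ∀ g : k[X],
      jet (f₀ + (X - C a) ^ 2 * g) = T₁ (diagMap (X - C a) wt (T₂ (jet g))) := by
  obtain ⟨T₁, T₂, h⟩ := frame (X - C a) (C (2⁻¹ : k)) f₀ (derivative f₀)
    (by rw [← map_ofNat C 2, ← C_mul, inv_mul_cancel₀ h2, C_1])
  refine ⟨T₁, T₂, fun g => ?_⟩
  rw [jet, jet, ← h]
  congr 1
  simp only [derivative_add, derivative_mul, derivative_pow, derivative_sub, derivative_X,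
    derivative_C, sub_zero, mul_one]
  rw [show (C ((2 : ℕ) : k) : k[X]) = 2 by rw [Nat.cast_ofNat]; rfl]
  ring

theorem local_div {k : Type*} [Field k] (h2 : (2 : k) ≠ 0) (a : k) {ι κ : Type*} (N : ℕ) :
    ∀ (A : Finset ι) (B : Finset κ) (P : ι → k[X]) (Q : κ → k[X]),
      (∀ i ∈ A, ∀ j ∈ B, P i - Q j ≠ 0 ∧ Even (rootMultiplicity a (P i - Q j))) →
      ∑ i ∈ A, ∑ j ∈ B, rootMultiplicity a (P i - Q j) + A.card + B.card ≤ N →
      ∃ m : ℕ, WDiv (X - C a)
          (A.toList.map (fun i => jet (P i)) ++ B.toList.map (fun j => jet (Q j))) m ∧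
        419 * ∑ i ∈ A, ∑ j ∈ B, rootMultiplicity a (P i - Q j) ≤ 841 * m := by
  classical
  induction N with
  | zero =>
    intro A B P Q _ hN
    exact ⟨0, WDiv.zero _ _, by omega⟩
  | succ N ih =>
    intro A B P Q h hN
    rcases A.eq_empty_or_nonempty with rfl | ⟨i₀, hi₀⟩
    · exact ⟨0, WDiv.zero _ _, by simp⟩
    rcases B.eq_empty_or_nonempty with rfl | hB
    · exact ⟨0, WDiv.zero _ _, by simp⟩
    by_cases hall : (∀ i ∈ A, (X - C a) ^ 2 ∣ P i - P i₀) ∧ (∀ j ∈ B, (X - C a) ^ 2 ∣ Q j - P i₀)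
    · obtain ⟨hA', hB'⟩ := hall
      have hA'' : ∀ i, ∃ g, i ∈ A → P i = P i₀ + (X - C a) ^ 2 * g := by
        intro i
        by_cases hi : i ∈ A
        · obtain ⟨g, hg⟩ := hA' i hi
          exact ⟨g, fun _ => by rw [← hg]; ring⟩
        · exact ⟨0, fun h => absurd h hi⟩
      have hB'' : ∀ j, ∃ g, j ∈ B → Q j = P i₀ + (X - C a) ^ 2 * g := by
        intro j
        by_cases hj : j ∈ B
        · obtain ⟨g, hg⟩ := hB' j hj
          exact ⟨g, fun _ => by rw [← hg]; ring⟩
        · exact ⟨0, fun h => absurd h hj⟩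
      choose P' hP' using hA''
      choose Q' hQ' using hB''
      have hdiff : ∀ i ∈ A, ∀ j ∈ B, P i - Q j = (X - C a) ^ 2 * (P' i - Q' j) := by
        intro i hi j hj
        rw [hP' i hi, hQ' j hj]; ring
      have hrm : ∀ i ∈ A, ∀ j ∈ B,
          rootMultiplicity a (P i - Q j) = 2 + rootMultiplicity a (P' i - Q' j) := by
        intro i hi j hj
        have h0 := (h i hi j hj).1
        rw [hdiff i hi j hj] at h0 ⊢
        rw [rootMultiplicity_mul h0, rootMultiplicity_X_sub_C_pow]
      have hsum : ∑ i ∈ A, ∑ j ∈ B, rootMultiplicity a (P i - Q j) =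
          2 * (A.card * B.card) + ∑ i ∈ A, ∑ j ∈ B, rootMultiplicity a (P' i - Q' j) := by
        rw [Finset.sum_congr rfl fun i hi => Finset.sum_congr rfl fun j hj => hrm i hi j hj]
        simp only [Finset.sum_add_distrib, Finset.sum_const, smul_eq_mul]
        ring
      have hpos : 0 < A.card * B.card :=
        Nat.mul_pos (Finset.card_pos.2 ⟨i₀, hi₀⟩) (Finset.card_pos.2 hB)
      obtain ⟨m, hm, hle⟩ := ih A B P' Q' (by
        intro i hi j hj
        refine ⟨?_, ?_⟩
        · intro h0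
          apply (h i hi j hj).1
          rw [hdiff i hi j hj, h0, mul_zero]
        · have := (h i hi j hj).2
          rw [hrm i hi j hj] at this
          exact (Nat.even_add.1 this).1 even_two) (by omega)
      obtain ⟨T₁, T₂, hT⟩ := jet_zoom h2 a (P i₀)
      have h3 := ((hm.map T₂).diag wt ((838 * (A.card * B.card) + 840) / 841) (by
        intro T hT
        have := wt_bound T A.card B.card (by simpa using hT)
        omega)).map T₁
      refine ⟨m + (838 * (A.card * B.card) + 840) / 841, ?_, by omega⟩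
      convert h3 using 1
      simp only [List.map_append, List.map_map]
      congr 1
      · apply List.map_congr_left
        intro i hi
        rw [hP' i (Finset.mem_toList.1 hi), hT]; rfl
      · apply List.map_congr_left
        intro j hj
        rw [hQ' j (Finset.mem_toList.1 hj), hT]; rfl
    · set A₁ := A.filter fun i => (X - C a) ^ 2 ∣ P i - P i₀ with hA₁
      set A₂ := A.filter fun i => ¬ (X - C a) ^ 2 ∣ P i - P i₀ with hA₂
      set B₁ := B.filter fun j => (X - C a) ^ 2 ∣ Q j - P i₀ with hB₁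
      set B₂ := B.filter fun j => ¬ (X - C a) ^ 2 ∣ Q j - P i₀ with hB₂
      have cA : A₁.card + A₂.card = A.card := Finset.card_filter_add_card_filter_not _
      have cB : B₁.card + B₂.card = B.card := Finset.card_filter_add_card_filter_not _
      have c1 : 0 < A₁.card := Finset.card_pos.2 ⟨i₀, Finset.mem_filter.2 ⟨hi₀, by simp⟩⟩
      have c2 : 0 < A₂.card + B₂.card := by
        by_contra h0
        apply hall
        have e1 : A₂ = ∅ := Finset.card_eq_zero.1 (by omega)
        have e2 : B₂ = ∅ := Finset.card_eq_zero.1 (by omega)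
        refine ⟨fun i hi => ?_, fun j hj => ?_⟩
        · by_contra hn
          have : i ∈ A₂ := Finset.mem_filter.2 ⟨hi, hn⟩
          rw [e1] at this; simp at this
        · by_contra hn
          have : j ∈ B₂ := Finset.mem_filter.2 ⟨hj, hn⟩
          rw [e2] at this; simp at this
      have z12 : ∑ i ∈ A₁, ∑ j ∈ B₂, rootMultiplicity a (P i - Q j) = 0 := by
        refine Finset.sum_eq_zero fun i hi => Finset.sum_eq_zero fun j hj => ?_
        obtain ⟨hi, hi'⟩ := Finset.mem_filter.1 hi
        obtain ⟨hj, hj'⟩ := Finset.mem_filter.1 hj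
        refine rm_eq_zero (h i hi j hj).2 fun hd => hj' ?_
        have := dvd_sub hi' hd
        rwa [show P i - P i₀ - (P i - Q j) = Q j - P i₀ by ring] at this
      have z21 : ∑ i ∈ A₂, ∑ j ∈ B₁, rootMultiplicity a (P i - Q j) = 0 := by
        refine Finset.sum_eq_zero fun i hi => Finset.sum_eq_zero fun j hj => ?_
        obtain ⟨hi, hi'⟩ := Finset.mem_filter.1 hi
        obtain ⟨hj, hj'⟩ := Finset.mem_filter.1 hj
        refine rm_eq_zero (h i hi j hj).2 fun hd => hi' ?_
        have := dvd_add hj' hd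
        rwa [show Q j - P i₀ + (P i - Q j) = P i - P i₀ by ring] at this
      have hsum : ∑ i ∈ A, ∑ j ∈ B, rootMultiplicity a (P i - Q j) =
          ∑ i ∈ A₁, ∑ j ∈ B₁, rootMultiplicity a (P i - Q j) +
          ∑ i ∈ A₂, ∑ j ∈ B₂, rootMultiplicity a (P i - Q j) := by
        have e : ∀ i, ∑ j ∈ B, rootMultiplicity a (P i - Q j) =
            ∑ j ∈ B₁, rootMultiplicity a (P i - Q j) + ∑ j ∈ B₂, rootMultiplicity a (P i - Q j) :=
          fun i => (Finset.sum_filter_add_sum_filter_not _ _ _).symm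
        rw [← Finset.sum_filter_add_sum_filter_not A (fun i => (X - C a) ^ 2 ∣ P i - P i₀)]
        simp only [e, Finset.sum_add_distrib]
        rw [← hA₁, ← hA₂, z12, z21]
        ring
      obtain ⟨m₁, hm₁, hle₁⟩ := ih A₁ B₁ P Q (fun i hi j hj =>
        h i (Finset.mem_filter.1 hi).1 j (Finset.mem_filter.1 hj).1) (by omega)
      obtain ⟨m₂, hm₂, hle₂⟩ := ih A₂ B₂ P Q (fun i hi j hj =>
        h i (Finset.mem_filter.1 hi).1 j (Finset.mem_filter.1 hj).1) (by omega)
      refine ⟨m₁ + m₂, WDiv.perm ?_ (hm₁.append hm₂), by omega⟩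
      have p1 := (toList_perm_filter A fun i => (X - C a) ^ 2 ∣ P i - P i₀).map
        (fun i => jet (P i))
      have p2 := (toList_perm_filter B fun j => (X - C a) ^ 2 ∣ Q j - P i₀).map
        (fun j => jet (Q j))
      refine (p1.append p2).trans ?_
      rw [List.map_append, List.map_append, ← hA₁, ← hA₂, ← hB₁, ← hB₂]
      simp only [List.append_assoc]
      refine List.Perm.append_left _ ?_
      rw [← List.append_assoc, ← List.append_assoc]
      exact List.Perm.append_right _ List.perm_append_comm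

theorem toList_univ_perm {β : Type*} {n : ℕ} (g : Fin n → β) :
    (List.ofFn g).Perm ((Finset.univ : Finset (Fin n)).toList.map g) := by
  rw [List.ofFn_eq_map]
  apply List.Perm.map
  rw [List.perm_ext_iff_of_nodup (List.nodup_finRange n) (Finset.nodup_toList _)]
  simp

theorem natDegree_jet {k : Type*} [Field k] (f : k[X]) (n : ℕ) (hf : f.natDegree ≤ n)
    (μ : Fin 58) : (jet f μ).natDegree ≤ ex1 μ * n + ex2 μ * (n - 1) := by
  refine natDegree_mul_le.trans (add_le_add ?_ ?_)
  · exact natDegree_pow_le.trans (Nat.mul_le_mul_left _ hf)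
  · exact natDegree_pow_le.trans (Nat.mul_le_mul_left _
      ((natDegree_derivative_le f).trans (by omega)))

theorem det_jet_eq_zero {k : Type*} [Field k] [IsAlgClosed k] (h2 : (2 : k) ≠ 0)
    (P Q : Fin 29 → k[X]) (n : ℕ) (hn : 1 ≤ n)
    (hsq : ∀ i j, IsSquare (P i - Q j) ∧ P i - Q j ≠ 0 ∧ (P i - Q j).natDegree = n)
    (hP : ∀ i, (P i).natDegree ≤ n) (hQ : ∀ j, (Q j).natDegree ≤ n)
    (v : Fin 58 → Fin 58 → k[X])
    (hv : v = Fin.append (fun i => jet (P i)) (fun j => jet (Q j))) :
    (Matrix.of v).det = 0 := by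
  classical
  by_contra hdet
  have hloc : ∀ a : k, 419 * ∑ i, ∑ j, rootMultiplicity a (P i - Q j) ≤
      841 * rootMultiplicity a (Matrix.of v).det := by
    intro a
    obtain ⟨m, hm, hle⟩ := local_div h2 a _ Finset.univ Finset.univ P Q (by
      intro i _ j _
      obtain ⟨⟨g, hg⟩, h0, -⟩ := hsq i j
      refine ⟨h0, ?_⟩
      rw [hg] at h0 ⊢
      rw [rootMultiplicity_mul h0]
      exact ⟨_, rfl⟩) le_rfl
    have h1 : WDiv (X - C a) (List.ofFn v) m := by
      refine WDiv.perm ?_ hm
      have : List.ofFn v = List.ofFn (fun i => jet (P i)) ++ List.ofFn (fun j => jet (Q j)) := by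
        rw [hv]
        exact List.ofFn_fin_append (fun i => jet (P i)) (fun j => jet (Q j))
      rw [this]
      exact (toList_univ_perm _).append (toList_univ_perm _)
    have h3 := (le_rootMultiplicity_iff hdet).2 (h1.dvd_det v)
    omega
  let T : Finset k := Finset.univ.biUnion fun i => Finset.univ.biUnion fun j =>
    (P i - Q j).roots.toFinset
  have hT : ∀ i j, ∑ a ∈ T, rootMultiplicity a (P i - Q j) = n := by
    intro i j
    simp only [← count_roots]
    rw [Multiset.sum_count_eq_card, IsAlgClosed.card_roots_eq_natDegree, (hsq i j).2.2]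
    intro a ha
    simp only [T, Finset.mem_biUnion, Finset.mem_univ, true_and, Multiset.mem_toFinset]
    exact ⟨i, j, ha⟩
  have h1 : ∑ a ∈ T, ∑ i, ∑ j, rootMultiplicity a (P i - Q j) = 841 * n := by
    rw [Finset.sum_comm]
    simp only [Finset.sum_comm (s := T), hT]
    simp only [Finset.sum_const, Finset.card_univ, Fintype.card_fin, smul_eq_mul]
    ring
  have h2' : ∑ a ∈ T, rootMultiplicity a (Matrix.of v).det ≤ (Matrix.of v).det.natDegree := by
    simp only [← count_roots]
    refine le_trans ?_ (card_roots' _)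
    rw [← Multiset.sum_count_eq_card (s := T ∪ (Matrix.of v).det.roots.toFinset)
      (fun a ha => Finset.mem_union_right _ (Multiset.mem_toFinset.2 ha))]
    exact Finset.sum_le_sum_of_subset Finset.subset_union_left
  have h3 : (Matrix.of v).det.natDegree ≤ 316 * n + 103 * (n - 1) := by
    rw [Matrix.det_apply]
    refine natDegree_sum_le_of_forall_le _ _ fun σ _ => ?_
    have e1 : (Equiv.Perm.sign σ • ∏ i, Matrix.of v (σ i) i).natDegree ≤
        (∏ i, Matrix.of v (σ i) i).natDegree := by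
      rcases Int.units_eq_one_or (Equiv.Perm.sign σ) with h | h <;> simp [h]
    refine e1.trans ((natDegree_prod_le _ _).trans ?_)
    rw [← ex_sum1, ← ex_sum2, Finset.sum_mul, Finset.sum_mul, ← Finset.sum_add_distrib]
    refine Finset.sum_le_sum fun μ _ => ?_
    have e2 : ∀ r : Fin (29 + 29), ∃ f : k[X], f.natDegree ≤ n ∧ v r = jet f := by
      intro r
      rw [hv]
      refine Fin.addCases (fun i => ?_) (fun j => ?_) r
      · exact ⟨P i, hP i, Fin.append_left _ _ i⟩
      · exact ⟨Q j, hQ j, Fin.append_right _ _ j⟩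
    obtain ⟨f, hf, e3⟩ := e2 (σ μ)
    rw [Matrix.of_apply, e3]
    exact natDegree_jet f n hf μ
  have h4 := Finset.sum_le_sum fun a (_ : a ∈ T) => hloc a
  rw [← Finset.mul_sum, ← Finset.mul_sum, h1] at h4
  omega

theorem exists_indep {R : Type*} [CommRing R] [IsDomain R] {N : ℕ} (r : ℕ) (hr : r ≤ N) :
    ∀ S : Fin r → Set (Fin N → R), (∀ i, ∀ c : Fin N → R, c ≠ 0 → ∃ x ∈ S i, c ⬝ᵥ x ≠ 0) →
      ∃ v : Fin r → Fin N → R, (∀ i, v i ∈ S i) ∧ LinearIndependent R v := by
  induction r with
  | zero => intro S _; exact ⟨Fin.elim0, fun i => i.elim0, linearIndependent_empty_type⟩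
  | succ r ih =>
    intro S hS
    obtain ⟨v, hv, hli⟩ := ih (by omega) (fun i => S i.succ) (fun i => hS i.succ)
    have hc : ∃ c : Fin N → R, c ≠ 0 ∧ ∀ i, c ⬝ᵥ v i = 0 := by
      by_contra hcon
      push Not at hcon
      have hinj : Function.Injective (Matrix.mulVecLin (Matrix.of v)) := by
        rw [injective_iff_map_eq_zero]
        intro c hc
        by_contra h0
        obtain ⟨i, hi⟩ := hcon c h0
        apply hi
        have := congrFun hc i
        rw [dotProduct_comm]
        exact this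
      have := LinearMap.finrank_le_finrank_of_injective hinj
      simp at this
      omega
    obtain ⟨c, hc0, hc⟩ := hc
    obtain ⟨x, hx, hcx⟩ := hS 0 c hc0
    refine ⟨Fin.cons x v, fun i => Fin.cases hx hv i, ?_⟩
    apply LinearIndependent.finCons' x v hli
    intro d y hy' hy
    have hy0 : c ⬝ᵥ y = 0 := by
      obtain ⟨e, rfl⟩ := (Submodule.mem_span_range_iff_exists_fun R).1 hy'
      simp [dotProduct_sum, hc]
    have := congrArg (fun z => c ⬝ᵥ z) hy
    simp only [dotProduct_add, dotProduct_smul, hy0, add_zero, dotProduct_zero, smul_eq_mul] at this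
    exact (mul_eq_zero.1 this).resolve_right hcx

theorem curve_of_kernel {k : Type*} [Field k] (c : Fin 58 → k[X]) (hc : c ≠ 0) :
    ∃ Φ : k[X][X][X], Φ ≠ 0 ∧ Φ.natDegree ≤ 4 ∧ (∀ j, (Φ.coeff j).natDegree ≤ 13) ∧
      ∀ f : k[X], Φ.evalEval f (derivative f) = c ⬝ᵥ jet f := by
  refine ⟨∑ μ, monomial (ex2 μ) (monomial (ex1 μ) (c μ)), ?_, ?_, ?_, ?_⟩
  · intro h0
    apply hc
    funext μ
    have := congrArg (fun Φ : k[X][X][X] => (Φ.coeff (ex2 μ)).coeff (ex1 μ)) h0
    simp only [finsetSum_coeff, coeff_zero] at this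
    rw [Finset.sum_eq_single μ] at this
    · simpa using this
    · intro ν _ hν
      rw [coeff_monomial]
      split_ifs with h
      · rw [coeff_monomial, if_neg]
        intro h'
        exact hν (ex_inj _ _ h' h)
      · simp
    · simp
  · refine natDegree_sum_le_of_forall_le _ _ fun μ _ => (natDegree_monomial_le _).trans ?_
    exact (ex_mem μ).2.trans (phi_le _)
  · intro j
    rw [finsetSum_coeff]
    refine natDegree_sum_le_of_forall_le _ _ fun μ _ => ?_
    rw [coeff_monomial]
    split_ifs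
    · refine (natDegree_monomial_le _).trans ?_
      have := (ex_mem μ).1
      omega
    · simp
  · intro f
    simp only [evalEval, eval_finsetSum, eval_monomial, eval_mul, eval_pow, eval_C, dotProduct,
      jet, evp, mul_assoc]

theorem exists_curve {k : Type*} [Field k] [IsAlgClosed k] (h2 : (2 : k) ≠ 0)
    {ι κ : Type*} (P : ι → k[X]) (Q : κ → k[X]) (n : ℕ) (hn : 1 ≤ n)
    (hsq : ∀ i j, IsSquare (P i - Q j) ∧ P i - Q j ≠ 0 ∧ (P i - Q j).natDegree = n)
    (hP : ∀ i, (P i).natDegree ≤ n) (hQ : ∀ j, (Q j).natDegree ≤ n) :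
    ∃ Φ : k[X][X][X], Φ ≠ 0 ∧ Φ.natDegree ≤ 4 ∧ (∀ j, (Φ.coeff j).natDegree ≤ 13) ∧
      ((∀ i, Φ.evalEval (P i) (derivative (P i)) = 0) ∨
       (∀ j, Φ.evalEval (Q j) (derivative (Q j)) = 0)) := by
  by_cases h1 : ∃ c : Fin 58 → k[X], c ≠ 0 ∧ ∀ i, c ⬝ᵥ jet (P i) = 0
  · obtain ⟨c, hc, h⟩ := h1
    obtain ⟨Φ, a1, a2, a3, a4⟩ := curve_of_kernel c hc
    exact ⟨Φ, a1, a2, a3, Or.inl fun i => by rw [a4, h]⟩
  by_cases h1' : ∃ c : Fin 58 → k[X], c ≠ 0 ∧ ∀ j, c ⬝ᵥ jet (Q j) = 0
  · obtain ⟨c, hc, h⟩ := h1'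
    obtain ⟨Φ, a1, a2, a3, a4⟩ := curve_of_kernel c hc
    exact ⟨Φ, a1, a2, a3, Or.inr fun i => by rw [a4, h]⟩
  exfalso
  push Not at h1 h1'
  obtain ⟨v, hv, hli⟩ := exists_indep (R := k[X]) (N := 58) (29 + 29) le_rfl
    (Fin.append (fun _ => Set.range fun i => jet (P i)) (fun _ => Set.range fun j => jet (Q j)))
    (by
      intro r c hc
      refine Fin.addCases (fun i => ?_) (fun j => ?_) r
      · rw [Fin.append_left]
        obtain ⟨i, hi⟩ := h1 c hc
        exact ⟨_, ⟨i, rfl⟩, hi⟩
      · rw [Fin.append_right]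
        obtain ⟨i, hi⟩ := h1' c hc
        exact ⟨_, ⟨i, rfl⟩, hi⟩)
  have hp : ∀ i : Fin 29, ∃ a, jet (P a) = v (Fin.castAdd 29 i) := by
    intro i
    have := hv (Fin.castAdd 29 i)
    rwa [Fin.append_left] at this
  have hq : ∀ j : Fin 29, ∃ b, jet (Q b) = v (Fin.natAdd 29 j) := by
    intro j
    have := hv (Fin.natAdd 29 j)
    rwa [Fin.append_right] at this
  choose p hp using hp
  choose q hq using hq
  have hdet := det_jet_eq_zero h2 (fun i => P (p i)) (fun j => Q (q j)) n hn
    (fun i j => hsq _ _) (fun i => hP _) (fun j => hQ _) v (by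
      funext r
      refine Fin.addCases (m := 29) (n := 29) (fun i => ?_) (fun j => ?_) r
      · rw [Fin.append_left, hp]
      · rw [Fin.append_right, hq])
  obtain ⟨w, hw0, hw⟩ := (Matrix.exists_vecMul_eq_zero_iff (M := Matrix.of v)).2 hdet
  apply hw0
  funext r
  refine Fintype.linearIndependent_iff.1 hli w ?_ r
  rw [← hw]
  funext μ
  simp [Matrix.vecMul, dotProduct, Finset.sum_apply]

end Pool.Agent.P.MP_9d026e_co
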