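import Pool.Agent.P.MP_9d026e_co.EndCases

/-! The endgame: a large complete bipartite pattern of squares whose inner differences satisfy an
additive differential equation. -/

open Polynomial Finset

namespace Pool.Agent.P.MP_9d026e_co

variable {k : Type*} [Field k] {s : ℕ}

theorem exists_points (P Q : Fin s → k[X]) (β : k[X]) :
    ∃ S : Finset k, (∀ i j, ∀ x ∈ (P i - Q j).roots, x ∈ S) ∧ ∀ x ∈ β.roots, x ∈ S := by
  classical
  refine ⟨(Finset.univ.biUnion fun i => Finset.univ.biUnion fun j => (P i - Q j).roots.toFinset) ∪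
    β.roots.toFinset, ?_, ?_⟩
  · intro i j x hx
    refine Finset.mem_union_left _ ?_
    simp only [Finset.mem_biUnion, Finset.mem_univ, true_and]
    exact ⟨i, j, Multiset.mem_toFinset.2 hx⟩
  · intro x hx
    exact Finset.mem_union_right _ (Multiset.mem_toFinset.2 hx)

theorem degree_lt_of_natDegree_lt' {f : k[X]} {m : ℕ} (h : f.natDegree < m) :
    f.degree < m := lt_of_le_of_lt degree_le_natDegree (by exact_mod_cast h)

/-- degree of `l0` -/
theorem deg_l0 (p : ℕ) (_hp : 1 ≤ p) {β l0 l1 v : k[X]} (hβ : β ≠ 0) (hv : v ≠ 0)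
    (h : β * derivative v = l0 * v + l1 * v ^ p)
    (h1 : (l1 * v ^ p).degree < (β.natDegree + v.natDegree : ℕ)) : l0.degree < β.natDegree := by
  by_cases hl0 : l0 = 0
  · rw [hl0, degree_zero]; exact WithBot.bot_lt_coe _
  have h2 : l0 * v = β * derivative v - l1 * v ^ p := by rw [h]; ring
  have h3 : (l0 * v).degree < (β.natDegree + v.natDegree : ℕ) := by
    rw [h2]
    exact lt_of_le_of_lt (degree_sub_le _ _) (max_lt (natDegree_mul_deriv_lt hβ hv) h1)
  rw [degree_eq_natDegree (mul_ne_zero hl0 hv), natDegree_mul hl0 hv] at h3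
  have h4 : l0.natDegree + v.natDegree < β.natDegree + v.natDegree := by exact_mod_cast h3
  exact degree_lt_of_natDegree_lt' (by omega)

theorem deg_c (p : ℕ) {β l0 l1 w c : k[X]} (hβ : β ≠ 0) (hw : w ≠ 0) (hc : c ≠ 0)
    (h : β * derivative w = l0 * w + l1 * w ^ p + c) (hl0 : l0.degree < β.natDegree) (m : ℕ)
    (hm : β.natDegree + w.natDegree ≤ m) (h1 : (l1 * w ^ p).degree < m) : c.natDegree < m := by
  have h2 : c = β * derivative w - (l0 * w + l1 * w ^ p) := by rw [h]; ring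
  have hm' : ((β.natDegree + w.natDegree : ℕ) : WithBot ℕ) ≤ m := by exact_mod_cast hm
  have h3 : (l0 * w).degree < (β.natDegree + w.natDegree : ℕ) := by
    rw [degree_mul, degree_eq_natDegree hw, Nat.cast_add]
    exact WithBot.add_lt_add_right (by simp) hl0
  rw [natDegree_lt_iff_degree_lt hc, h2]
  refine lt_of_le_of_lt (degree_sub_le _ _) (max_lt ((natDegree_mul_deriv_lt hβ hw).trans_le hm')
    (lt_of_le_of_lt (degree_add_le _ _) (max_lt (h3.trans_le hm') h1)))

theorem core (p : ℕ) (hp : 5 ≤ p) (hs : s = 8 * p) [IsAlgClosed k] (P Q : Fin s → k[X])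
    (hP : Function.Injective P) (hQ : Function.Injective Q) (n : ℕ)
    (hsq : ∀ i j, IsSquare (P i - Q j) ∧ P i - Q j ≠ 0 ∧ (P i - Q j).natDegree = n)
    {β l0 l1 c : k[X]} (hβ : β ≠ 0)
    (hLP : ∀ i j, β * derivative (P i - P j) = l0 * (P i - P j) + l1 * (P i - P j) ^ p)
    (hLQ : ∀ i j, β * derivative (Q i - Q j) = l0 * (Q i - Q j) + l1 * (Q i - Q j) ^ p)
    (hc : ∀ i j, β * derivative (P i - Q j) = l0 * (P i - Q j) + l1 * (P i - Q j) ^ p + c)
    (ha : ∀ x, ∃ i j, (P i - Q j).eval x ≠ 0)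
    (hb : ∀ x, β.eval x = 0 → l0.eval x = 0 → l1.eval x ≠ 0) : l1 = 0 ∧ c = 0 := by
  have hsq' : ∀ i j, IsSquare (P i - Q j) ∧ P i - Q j ≠ 0 := fun i j => ⟨(hsq i j).1, (hsq i j).2.1⟩
  have hn : ∀ i j, (P i - Q j).natDegree = n := fun i j => (hsq i j).2.2
  let i0 : Fin s := ⟨0, by omega⟩
  let i1 : Fin s := ⟨1, by omega⟩
  have h01 : i0 ≠ i1 := by simp [i0, i1]
  have hdP : ∀ i j, (P i - P j).natDegree ≤ n := by
    intro i j
    have : P i - P j = (P i - Q i0) - (P j - Q i0) := by ring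
    rw [this]
    exact (natDegree_sub_le _ _).trans (by simp [hn])
  have hdQ : ∀ i j, (Q i - Q j).natDegree ≤ n := by
    intro i j
    have : Q i - Q j = (P i0 - Q j) - (P i0 - Q i) := by ring
    rw [this]
    exact (natDegree_sub_le _ _).trans (by simp [hn])
  obtain ⟨S, hS1, hS2⟩ := exists_points P Q β
  have hX := sum_crossV P Q n hn S hS1
  have hμ := sum_rm_eq β S hS2
  have hκ := sum_rm_le c S
  obtain ⟨t, ht⟩ : ∃ t, s = t + 1 := ⟨s - 1, by omega⟩
  have ht' : s - 1 = t := by omega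
  by_contra hcon
  by_cases hl1 : l1 = 0
  · -- case two
    have hc0 : c ≠ 0 := fun h => hcon ⟨hl1, h⟩
    have h1 := Finset.sum_le_sum (s := S) fun x _ =>
      local_two p (by omega) (by omega) x P Q hP hQ hsq' hc0 hβ hl1 hLP hLQ hc (ha x) (hb x)
    simp only [Finset.sum_add_distrib, ← Finset.mul_sum, hX, hμ] at h1
    have h2 := sum_offV P n hdP S
    have h3 := sum_offV Q n hdQ S
    have hv : P i0 - P i1 ≠ 0 := sub_ne_zero.2 fun h => h01 (hP h)
    have h4 := deg_l0 p (by omega) hβ hv (hLP i0 i1) (by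
      rw [hl1, zero_mul, degree_zero]; exact WithBot.bot_lt_coe _)
    have h5 := deg_c p hβ (hsq i0 i0).2.1 hc0 (hc i0 i0) h4 (β.natDegree + n) (by rw [hn]) (by
      rw [hl1, zero_mul, degree_zero]; exact WithBot.bot_lt_coe _)
    have h6 := Nat.mul_le_mul_left s (Nat.add_le_add h2 h3)
    have h7 := Nat.mul_le_mul_left (2 * s * s * (s - 1)) (show ∑ x ∈ S, rootMultiplicity x c + 1 ≤
      β.natDegree + n by omega)
    have h8 : 0 < 2 * s * s * (s - 1) := by
      have : 0 < s - 1 := by omega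
      have : 0 < s := by omega
      positivity
    nlinarith
  by_cases hc0 : c = 0
  · -- case three
    simp only [hc0, add_zero] at hc
    have h1 := Finset.sum_le_sum (s := S) fun x _ =>
      local_three p (by omega) hs x P Q hP hQ hsq' hβ hLP hLQ hc (ha x) (hb x)
    simp only [Finset.sum_add_distrib, ← Finset.mul_sum, hX, hμ] at h1
    have h2 := sum_offV P n hdP S
    have h3 := sum_offV Q n hdQ S
    have h4 := deg_beta p (by omega) (by omega) hβ hl1 P hP hLP _ (hsq i0 i0).2.1 (hc i0 i0)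
    rw [hn] at h4
    have h5 : s * (30 * β.natDegree) ≤ s * ((s - 1) * n + (s - 1) * n + s * n) := by nlinarith
    have h6 := Nat.le_of_mul_le_mul_left h5 (by omega)
    obtain ⟨q, rfl⟩ : ∃ q, p = q + 5 := ⟨p - 5, by omega⟩
    rw [show q + 5 - 1 = q + 4 by omega] at h4
    rw [show s - 1 = 8 * q + 39 by omega, show s = 8 * q + 40 by omega] at h6
    nlinarith [Nat.zero_le (q * n)]
  · -- case four
    have h1 := Finset.sum_le_sum (s := S) fun x _ =>
      local_four p (by omega) hs x P Q hP hQ hsq' hc0 hβ hLP hLQ hc (ha x) (hb x)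
    simp only [Finset.sum_add_distrib, ← Finset.mul_sum, hX, hμ] at h1
    -- the largest inner degree
    obtain ⟨d, v, hv, hvd, hLv, hdP', hdQ', hdn⟩ : ∃ (d : ℕ) (v : k[X]), v ≠ 0 ∧ v.natDegree = d ∧
        β * derivative v = l0 * v + l1 * v ^ p ∧ (∀ i j, (P i - P j).natDegree ≤ d) ∧
        (∀ i j, (Q i - Q j).natDegree ≤ d) ∧ d ≤ n := by
      classical
      let T : Finset k[X] :=
        ((Finset.univ.image fun ij : Fin s × Fin s => P ij.1 - P ij.2) ∪
          (Finset.univ.image fun ij : Fin s × Fin s => Q ij.1 - Q ij.2)).erase 0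
      have hT : ∀ v ∈ T, v ≠ 0 ∧ β * derivative v = l0 * v + l1 * v ^ p ∧ v.natDegree ≤ n := by
        intro v hv
        obtain ⟨h1, h2⟩ := Finset.mem_erase.1 hv
        rcases Finset.mem_union.1 h2 with h | h
        · obtain ⟨ij, -, rfl⟩ := Finset.mem_image.1 h
          exact ⟨h1, hLP _ _, hdP _ _⟩
        · obtain ⟨ij, -, rfl⟩ := Finset.mem_image.1 h
          exact ⟨h1, hLQ _ _, hdQ _ _⟩
      have hTP : ∀ i j, P i - P j ≠ 0 → P i - P j ∈ T := fun i j h =>
        Finset.mem_erase.2 ⟨h, Finset.mem_union_left _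
          (Finset.mem_image.2 ⟨(i, j), Finset.mem_univ _, rfl⟩)⟩
      have hTQ : ∀ i j, Q i - Q j ≠ 0 → Q i - Q j ∈ T := fun i j h =>
        Finset.mem_erase.2 ⟨h, Finset.mem_union_right _
          (Finset.mem_image.2 ⟨(i, j), Finset.mem_univ _, rfl⟩)⟩
      obtain ⟨v, hv, hmax⟩ := Finset.exists_max_image T natDegree
        ⟨_, hTP i0 i1 (sub_ne_zero.2 fun h => h01 (hP h))⟩
      refine ⟨v.natDegree, v, (hT v hv).1, rfl, (hT v hv).2.1, ?_, ?_, (hT v hv).2.2⟩
      · intro i j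
        by_cases h : P i - P j = 0
        · simp [h]
        · exact hmax _ (hTP i j h)
      · intro i j
        by_cases h : Q i - Q j = 0
        · simp [h]
        · exact hmax _ (hTQ i j h)
    have h2 := sum_offV P d hdP' S
    have h3 := sum_offV Q d hdQ' S
    have h4 := deg_beta p (by omega) (by omega) hβ hl1 P hP hLP v hv hLv
    rw [hvd] at h4
    obtain ⟨q, rfl⟩ : ∃ q, p = q + 5 := ⟨p - 5, by omega⟩
    obtain ⟨e, rfl⟩ : ∃ e, n = d + e := ⟨n - d, by omega⟩
    rw [show q + 5 - 1 = q + 4 by omega] at h4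
    have h5 := deg_l0 (q + 5) (by omega) hβ hv hLv (degree_lt_of_natDegree_lt' (by
      rw [natDegree_mul hl1 (pow_ne_zero _ hv), natDegree_pow, hvd]; nlinarith))
    have h6 := deg_c (q + 5) hβ (hsq i0 i0).2.1 hc0 (hc i0 i0) h5
      (β.natDegree + (d + e) + (q + 4) * e) (by rw [hn]; omega) (degree_lt_of_natDegree_lt' (by
      rw [natDegree_mul hl1 (pow_ne_zero _ (hsq i0 i0).2.1), natDegree_pow, hn]; nlinarith))
    have h7 : s * (2 * (s * (d + e)) + 12 * β.natDegree) ≤
        s * ((s - 1) * d + (s - 1) * d + 8 * c.natDegree) := by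
      have := Nat.mul_le_mul_left (8 * s) hκ
      nlinarith
    have h8 := Nat.le_of_mul_le_mul_left h7 (by omega)
    rw [show s - 1 = 8 * q + 39 by omega, show s = 8 * q + 40 by omega] at h8
    nlinarith [Nat.zero_le (q * e), Nat.zero_le (q * d)]

/-- remove the common roots of the coefficients -/
theorem core2 (p : ℕ) (hp : 5 ≤ p) (hs : s = 8 * p) [IsAlgClosed k] (P Q : Fin s → k[X])
    (hP : Function.Injective P) (hQ : Function.Injective Q) (n : ℕ)
    (hsq : ∀ i j, IsSquare (P i - Q j) ∧ P i - Q j ≠ 0 ∧ (P i - Q j).natDegree = n)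
    (ha : ∀ x, ∃ i j, (P i - Q j).eval x ≠ 0) (m : ℕ) :
    ∀ β l0 l1 c : k[X], β ≠ 0 → β.natDegree = m →
    (∀ i j, β * derivative (P i - P j) = l0 * (P i - P j) + l1 * (P i - P j) ^ p) →
    (∀ i j, β * derivative (Q i - Q j) = l0 * (Q i - Q j) + l1 * (Q i - Q j) ^ p) →
    (∀ i j, β * derivative (P i - Q j) = l0 * (P i - Q j) + l1 * (P i - Q j) ^ p + c) →
    l1 = 0 ∧ c = 0 := by
  induction m using Nat.strong_induction_on with
  | _ m ih =>
  intro β l0 l1 c hβ hm hLP hLQ hc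
  by_cases hb : ∀ x, β.eval x = 0 → l0.eval x = 0 → l1.eval x ≠ 0
  · exact core p hp hs P Q hP hQ n hsq hβ hLP hLQ hc ha hb
  push Not at hb
  obtain ⟨x, h1, h2, h3⟩ := hb
  have i0 : Fin s := ⟨0, by omega⟩
  have h4 : c.eval x = 0 := by
    have := congrArg (eval x) (hc i0 i0)
    simpa [h1, h2, h3] using this.symm
  obtain ⟨β', rfl⟩ := dvd_iff_isRoot.2 h1
  obtain ⟨l0', rfl⟩ := dvd_iff_isRoot.2 h2
  obtain ⟨l1', rfl⟩ := dvd_iff_isRoot.2 h3
  obtain ⟨c', rfl⟩ := dvd_iff_isRoot.2 h4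
  have hβ' : β' ≠ 0 := right_ne_zero_of_mul hβ
  have hπ := X_sub_C_ne_zero x
  rw [natDegree_mul hπ hβ', natDegree_X_sub_C] at hm
  obtain ⟨h5, h6⟩ := ih β'.natDegree (by omega) β' l0' l1' c' hβ' rfl
    (fun i j => mul_left_cancel₀ hπ (by linear_combination hLP i j))
    (fun i j => mul_left_cancel₀ hπ (by linear_combination hLQ i j))
    (fun i j => mul_left_cancel₀ hπ (by linear_combination hc i j))
  simp [h5, h6]

theorem transfer (p : ℕ) (x : k) {β l0 l1 c v : k[X]}
    (h : β * derivative ((X - C x) ^ 2 * v) =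
      l0 * ((X - C x) ^ 2 * v) + l1 * ((X - C x) ^ 2 * v) ^ p + c) :
    (β * (X - C x) ^ 2) * derivative v = (l0 * (X - C x) ^ 2 - 2 * β * (X - C x)) * v +
      (l1 * ((X - C x) ^ 2) ^ p) * v ^ p + c := by
  have h1 : derivative ((X - C x) ^ 2 * v) = 2 * (X - C x) * v + (X - C x) ^ 2 * derivative v := by
    rw [sq]; simp only [derivative_mul, derivative_sub, derivative_X, derivative_C]; ring
  rw [h1, mul_pow] at h
  linear_combination h

/-- remove the common roots of the squares -/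
theorem core3 (p : ℕ) (hp : 5 ≤ p) (hs : s = 8 * p) [IsAlgClosed k] (n : ℕ) :
    ∀ (P Q : Fin s → k[X]), Function.Injective P → Function.Injective Q →
    (∀ i j, IsSquare (P i - Q j) ∧ P i - Q j ≠ 0 ∧ (P i - Q j).natDegree = n) →
    ∀ β l0 l1 c : k[X], β ≠ 0 →
    (∀ i j, β * derivative (P i - P j) = l0 * (P i - P j) + l1 * (P i - P j) ^ p) →
    (∀ i j, β * derivative (Q i - Q j) = l0 * (Q i - Q j) + l1 * (Q i - Q j) ^ p) →
    (∀ i j, β * derivative (P i - Q j) = l0 * (P i - Q j) + l1 * (P i - Q j) ^ p + c) →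
    l1 = 0 ∧ c = 0 := by
  induction n using Nat.strong_induction_on with
  | _ n ih =>
  intro P Q hP hQ hsq β l0 l1 c hβ hLP hLQ hc
  by_cases ha : ∀ x, ∃ i j, (P i - Q j).eval x ≠ 0
  · exact core2 p hp hs P Q hP hQ n hsq ha _ β l0 l1 c hβ rfl hLP hLQ hc
  push Not at ha
  obtain ⟨x, hx⟩ := ha
  have i0 : Fin s := ⟨0, by omega⟩
  have hπ : (X - C x) ^ 2 ≠ 0 := pow_ne_zero _ (X_sub_C_ne_zero x)
  have h2 : ∀ i j, (X - C x) ^ 2 ∣ P i - Q j := by
    intro i j
    rw [dvd_iff_le_rm (hsq i j).2.1]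
    obtain ⟨r, hr⟩ := even_rm (hsq i j).2.1 (hsq i j).1 x
    have := (rootMultiplicity_pos (hsq i j).2.1).2 (hx i j)
    omega
  choose P' hP' using fun i => h2 i i0
  have h3 : ∀ j, (X - C x) ^ 2 ∣ Q j - Q i0 := by
    intro j
    have : Q j - Q i0 = (P i0 - Q i0) - (P i0 - Q j) := by ring
    rw [this]
    exact dvd_sub (h2 _ _) (h2 _ _)
  choose Q' hQ' using h3
  have e1 : ∀ i j, P i - P j = (X - C x) ^ 2 * (P' i - P' j) := fun i j => by
    linear_combination hP' i - hP' j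
  have e2 : ∀ i j, Q i - Q j = (X - C x) ^ 2 * (Q' i - Q' j) := fun i j => by
    linear_combination hQ' i - hQ' j
  have e3 : ∀ i j, P i - Q j = (X - C x) ^ 2 * (P' i - Q' j) := fun i j => by
    linear_combination hP' i - hQ' j
  have h4 : ∀ i j, P' i - Q' j ≠ 0 := fun i j h => (hsq i j).2.1 (by rw [e3, h, mul_zero])
  have h5 : ∀ i j, (P' i - Q' j).natDegree + 2 = n := by
    intro i j
    rw [← (hsq i j).2.2, e3, natDegree_mul hπ (h4 i j), natDegree_pow, natDegree_X_sub_C]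
    ring
  have h6 := h5 i0 i0
  obtain ⟨h7, h8⟩ := ih (n - 2) (by omega) P' Q'
    (fun i j h => hP (by rw [← sub_eq_zero, e1, h, sub_self, mul_zero]))
    (fun i j h => hQ (by rw [← sub_eq_zero, e2, h, sub_self, mul_zero]))
    (fun i j => ⟨by
      obtain ⟨y, hy⟩ := (hsq i j).1
      have h9 : X - C x ∣ y := by
        apply (prime_X_sub_C x).dvd_of_dvd_pow (n := 2)
        rw [sq, ← hy]
        exact dvd_iff_isRoot.2 (hx i j)
      obtain ⟨z, rfl⟩ := h9
      exact ⟨z, mul_left_cancel₀ hπ (by rw [← e3, hy]; ring)⟩, h4 i j, by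
        have := h5 i j; omega⟩)
    (β * (X - C x) ^ 2) (l0 * (X - C x) ^ 2 - 2 * β * (X - C x)) (l1 * ((X - C x) ^ 2) ^ p) c
    (mul_ne_zero hβ hπ)
    (fun i j => by
      simpa only [add_zero] using transfer p x (c := 0) (by rw [← e1, add_zero]; exact hLP i j))
    (fun i j => by
      simpa only [add_zero] using transfer p x (c := 0) (by rw [← e2, add_zero]; exact hLQ i j))
    (fun i j => transfer p x (by rw [← e3]; exact hc i j))
  exact ⟨(mul_eq_zero.1 h7).resolve_right (pow_ne_zero _ hπ), h8⟩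

theorem endgame (p : ℕ) [Fact p.Prime] (hp : 5 ≤ p) {k : Type*} [Field k] [IsAlgClosed k]
    [CharP k p] {ι κ : Type*} [Fintype ι] [Fintype κ] (hι : 8 * p ≤ Fintype.card ι)
    (hκ : 8 * p ≤ Fintype.card κ) (P : ι → k[X]) (Q : κ → k[X]) (hP : Function.Injective P)
    (hQ : Function.Injective Q) (n : ℕ)
    (hsq : ∀ i j, IsSquare (P i - Q j) ∧ P i - Q j ≠ 0 ∧ (P i - Q j).natDegree = n)
    (β l0 l1 : k[X]) (hβ : β ≠ 0)
    (hLP : ∀ i i', β * derivative (P i - P i') = l0 * (P i - P i') + l1 * (P i - P i') ^ p)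
    (hLQ : ∀ j j', β * derivative (Q j - Q j') = l0 * (Q j - Q j') + l1 * (Q j - Q j') ^ p) :
    l1 = 0 ∧ ∀ i j, β * derivative (P i - Q j) = l0 * (P i - Q j) := by
  obtain ⟨f⟩ : Nonempty (Fin (8 * p) ↪ ι) :=
    Function.Embedding.nonempty_of_card_le (by simpa using hι)
  obtain ⟨g⟩ : Nonempty (Fin (8 * p) ↪ κ) :=
    Function.Embedding.nonempty_of_card_le (by simpa using hκ)
  have i0 : Fin (8 * p) := ⟨0, by omega⟩
  set c := β * derivative (P (f i0) - Q (g i0)) - l0 * (P (f i0) - Q (g i0)) -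
    l1 * (P (f i0) - Q (g i0)) ^ p with hcdef
  have hc : ∀ i j, β * derivative (P i - Q j) = l0 * (P i - Q j) + l1 * (P i - Q j) ^ p + c := by
    intro i j
    have h1 := hLP i (f i0)
    have h2 := hLQ j (g i0)
    simp only [sub_pow_char, derivative_sub] at h1 h2 hcdef ⊢
    linear_combination h1 - h2 - hcdef
  obtain ⟨h1, h2⟩ := core3 p hp rfl n (fun i => P (f i)) (fun j => Q (g j))
    (hP.comp f.injective) (hQ.comp g.injective) (fun i j => hsq _ _) β l0 l1 c hβ
    (fun i j => hLP _ _) (fun i j => hLQ _ _) (fun i j => hc _ _)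
  refine ⟨h1, fun i j => ?_⟩
  rw [hc i j, h1, h2]
  simp

end Pool.Agent.P.MP_9d026e_co
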