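import Pool.Agent.P.MP_9d026e_co.Defs

/-! A curve through the jets of a cube gives an additive differential equation. -/

open Polynomial Pointwise

namespace Pool.Agent.P.MP_9d026e_co

section Shift

variable {R : Type*} [CommRing R]

lemma tah (u : R) (f : R[X]) : (taylorAlgHom u : R[X] →+* R[X]) f = taylor u f := rfl

/-- translation of both variables -/
noncomputable def tau (u v : R) (Φ : R[X][X]) : R[X][X] :=
  taylor (C v) (Φ.map (taylorAlgHom u : R[X] →+* R[X]))

lemma evalEval_tau (u v x y : R) (Φ : R[X][X]) :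
    (tau u v Φ).evalEval x y = Φ.evalEval (x + u) (y + v) := by
  have h : (C (y + v) : R[X]) = (taylorAlgHom u : R[X] →+* R[X]) (C (y + v)) := by
    simp only [tah, taylor_C]
  unfold tau evalEval
  rw [taylor_eval, ← C_add]
  conv_lhs => rw [h, eval_map_apply]
  rw [tah, taylor_eval]

lemma natDegree_tau (u v : R) (Φ : R[X][X]) : (tau u v Φ).natDegree = Φ.natDegree := by
  unfold tau
  rw [natDegree_taylor, natDegree_map_eq_of_injective]
  exact taylor_injective u

lemma coeff_tau_top (u v : R) (Φ : R[X][X]) :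
    (tau u v Φ).coeff Φ.natDegree = taylor u Φ.leadingCoeff := by
  have h : (Φ.map (taylorAlgHom u : R[X] →+* R[X])).natDegree = Φ.natDegree :=
    natDegree_map_eq_of_injective (taylor_injective u) _
  unfold tau
  rw [← h, coeff_taylor_natDegree, leadingCoeff, h, coeff_map]
  rfl

lemma coeff_tau_next (u v : R) (Φ : R[X][X]) (q : ℕ) (hq : Φ.natDegree = q + 1) :
    (tau u v Φ).coeff q =
      taylor u (Φ.coeff q) + ((q + 1 : ℕ) : R[X]) * taylor u (Φ.coeff (q + 1)) * C v := by
  set g := Φ.map (taylorAlgHom u : R[X] →+* R[X]) with hg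
  have h : g.natDegree = q + 1 := by
    rw [← hq]; exact natDegree_map_eq_of_injective (taylor_injective u) _
  have h1 : (hasseDeriv q g).natDegree ≤ 1 := by
    have := natDegree_hasseDeriv_le g q
    omega
  unfold tau
  rw [← hg, taylor_coeff, eq_X_add_C_of_natDegree_le_one h1, hasseDeriv_coeff, hasseDeriv_coeff]
  simp only [eval_add, eval_mul, eval_C, eval_X, zero_add, Nat.choose_self, Nat.cast_one, one_mul,
    hg, coeff_map, tah]
  rw [add_comm 1 q, Nat.choose_succ_self_right]
  ring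

lemma natDegree_coeff_tau (u v : R) (Φ : R[X][X]) (N : ℕ) (h : ∀ j, (Φ.coeff j).natDegree ≤ N)
    (j : ℕ) : ((tau u v Φ).coeff j).natDegree ≤ N := by
  unfold tau
  rw [taylor_coeff, eval_eq_sum_range]
  refine natDegree_sum_le_of_forall_le _ _ fun i _ => ?_
  rw [hasseDeriv_coeff, coeff_map, ← C_pow, ← C_eq_natCast]
  refine (natDegree_mul_C_le _ _).trans ((natDegree_C_mul_le _ _).trans ?_)
  simp only [tah, natDegree_taylor]
  exact h _

/-- the size that drops under finite differences -/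
noncomputable def meas (Φ : R[X][X]) : ℕ := 14 * Φ.natDegree + Φ.leadingCoeff.natDegree

lemma meas_sub_lt (u v : R) (Φ : R[X][X]) (h : ∀ j, (Φ.coeff j).natDegree ≤ 13)
    (hne : tau u v Φ - Φ ≠ 0) :
    (tau u v Φ - Φ).natDegree ≤ Φ.natDegree ∧
      (∀ j, ((tau u v Φ - Φ).coeff j).natDegree ≤ 13) ∧ meas (tau u v Φ - Φ) < meas Φ := by
  have h1 : (tau u v Φ - Φ).natDegree ≤ Φ.natDegree := by
    refine (natDegree_sub_le _ _).trans ?_
    rw [natDegree_tau, max_self]
  have h2 : ∀ j, ((tau u v Φ - Φ).coeff j).natDegree ≤ 13 := by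
    intro j
    rw [coeff_sub]
    exact (natDegree_sub_le _ _).trans (max_le (natDegree_coeff_tau u v Φ 13 h j) (h j))
  refine ⟨h1, h2, ?_⟩
  unfold meas
  rcases h1.lt_or_eq with hlt | heq
  · have := h2 (tau u v Φ - Φ).natDegree
    rw [coeff_natDegree] at this
    omega
  · have hl : (tau u v Φ - Φ).leadingCoeff = taylor u Φ.leadingCoeff - Φ.leadingCoeff := by
      rw [leadingCoeff, heq, coeff_sub, coeff_tau_top, coeff_natDegree]
    have hl0 : taylor u Φ.leadingCoeff - Φ.leadingCoeff ≠ 0 := by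
      rw [← hl]; exact leadingCoeff_ne_zero.2 hne
    have ha : Φ.leadingCoeff ≠ 0 := by
      intro h0
      apply hl0
      rw [h0]; simp
    have hd : (taylor u Φ.leadingCoeff - Φ.leadingCoeff).degree < Φ.leadingCoeff.degree := by
      have := degree_sub_lt_left (p := taylor u Φ.leadingCoeff) (q := Φ.leadingCoeff)
        (degree_taylor _ _) (by rwa [Ne, taylor_eq_zero]) (leadingCoeff_taylor _ _)
      rwa [degree_taylor] at this
    have := natDegree_lt_natDegree hl0 hd
    rw [hl, heq]
    omega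

lemma descent {ι : Type*} [DecidableEq ι] (D : R →+ R) (b : R) (d : ι → R) (n : ℕ) :
    ∀ (Φ : R[X][X]) (J : Finset ι), Φ ≠ 0 → Φ.natDegree ≤ 4 →
      (∀ j, (Φ.coeff j).natDegree ≤ 13) → meas Φ < n →
      (∀ S ⊆ J, Φ.evalEval (b + ∑ j ∈ S, d j) (D (b + ∑ j ∈ S, d j)) = 0) →
      ∃ (Ψ : R[X][X]) (J' : Finset ι), J.card ≤ J'.card + n ∧ Ψ ≠ 0 ∧ Ψ.natDegree ≤ 4 ∧
        (∀ j, (Ψ.coeff j).natDegree ≤ 13) ∧ Ψ.evalEval b (D b) = 0 ∧
        ∀ j ∈ J', tau (d j) (D (d j)) Ψ = Ψ := by
  induction n with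
  | zero => intro Φ J _ _ _ h; omega
  | succ n ih =>
    intro Φ J h0 h4 h13 hm hv
    by_cases hall : ∀ j ∈ J, tau (d j) (D (d j)) Φ = Φ
    · refine ⟨Φ, J, by omega, h0, h4, h13, ?_, hall⟩
      simpa using hv ∅ (Finset.empty_subset _)
    · push Not at hall
      obtain ⟨j, hj, hne⟩ := hall
      have hne' : tau (d j) (D (d j)) Φ - Φ ≠ 0 := sub_ne_zero.2 hne
      obtain ⟨g1, g2, g3⟩ := meas_sub_lt (d j) (D (d j)) Φ h13 hne'
      obtain ⟨Ψ, J', k1, k2⟩ := ih _ (J.erase j) hne' (g1.trans h4) g2 (by omega) (by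
        intro S hS
        have hjS : j ∉ S := fun h => Finset.notMem_erase j J (hS h)
        have hSJ : S ⊆ J := hS.trans (Finset.erase_subset _ _)
        have e1 := hv (insert j S) (Finset.insert_subset hj hSJ)
        rw [Finset.sum_insert hjS] at e1
        rw [evalEval_sub, evalEval_tau, hv S hSJ, sub_zero, ← map_add,
          show b + ∑ i ∈ S, d i + d j = b + (d j + ∑ i ∈ S, d i) by ring]
        exact e1)
      refine ⟨Ψ, J', ?_, k2⟩
      rw [Finset.card_erase_of_mem hj] at k1
      omega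

lemma tau_add (u v u' v' : R) (Φ : R[X][X]) :
    tau (u + u') (v + v') Φ = tau u v (tau u' v' Φ) := by
  unfold tau
  rw [map_taylor, taylor_taylor, Polynomial.map_map]
  have h1 : ((taylorAlgHom u : R[X] →+* R[X]).comp (taylorAlgHom u' : R[X] →+* R[X])) =
      (taylorAlgHom (u + u') : R[X] →+* R[X]) := by
    refine RingHom.ext fun f => ?_
    rw [RingHom.comp_apply, tah, tah, tah, taylor_taylor]
  rw [h1]
  simp only [tah, taylor_C, C_add]

lemma tau_zero (Φ : R[X][X]) : tau 0 0 Φ = Φ := by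
  unfold tau
  have h1 : (taylorAlgHom (0 : R) : R[X] →+* R[X]) = RingHom.id _ := by
    refine RingHom.ext fun f => ?_
    simp only [tah, taylor_zero, RingHom.id_apply]
  rw [h1, Polynomial.map_id, C_0, taylor_zero]

/-- the translations fixing a polynomial -/
def stab (D : R →+ R) (Ψ : R[X][X]) : AddSubmonoid R where
  carrier := {u | tau u (D u) Ψ = Ψ}
  zero_mem' := by
    change tau 0 (D 0) Ψ = Ψ
    rw [map_zero, tau_zero]
  add_mem' := by
    intro a b ha hb
    change tau (a + b) (D (a + b)) Ψ = Ψ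
    rw [map_add, tau_add, show tau b (D b) Ψ = Ψ from hb]
    exact ha

end Shift

section Main

variable {R : Type*} [CommRing R] [IsDomain R]

lemma const_of_invariant (G : Finset R) (hG : 13 < G.card) (A : R[X]) (hA : A.natDegree ≤ 13)
    (h : ∀ u ∈ G, taylor u A = A) : A = C (A.eval 0) := by
  rw [← sub_eq_zero]
  refine eq_zero_of_natDegree_lt_card_of_eval_eq_zero' _ G (fun u hu => ?_) ?_
  · have := congrArg (eval 0) (h u hu)
    rw [taylor_eval, zero_add] at this
    rw [eval_sub, eval_C, this, sub_self]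
  · rw [natDegree_sub_C]; omega

lemma ode_of_invariant (p : ℕ) [Fact p.Prime] (hp : 5 ≤ p) [CharP R p] (D : R →+ R)
    (Ψ : R[X][X]) (h0 : Ψ ≠ 0) (h4 : Ψ.natDegree ≤ 4) (h13 : ∀ j, (Ψ.coeff j).natDegree ≤ 13)
    (x y : R) (hxy : Ψ.evalEval x y = 0) (G : Finset R) (hG : 13 < G.card)
    (hGs : ∀ u ∈ G, u ∈ stab D Ψ) :
    ∃ β l0 l1 : R, β ≠ 0 ∧ ∀ u ∈ stab D Ψ, β * D u = l0 * u + l1 * u ^ p := by
  have htop : ∀ u ∈ stab D Ψ, taylor u Ψ.leadingCoeff = Ψ.leadingCoeff := by
    intro u hu
    have hu' : tau u (D u) Ψ = Ψ := hu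
    rw [← coeff_tau_top u (D u), hu', coeff_natDegree]
  have hlc := const_of_invariant G hG Ψ.leadingCoeff (h13 _) fun u hu => htop u (hGs u hu)
  set c := Ψ.leadingCoeff.eval 0 with hc
  have hc0 : c ≠ 0 := by
    intro h
    rw [h, C_0] at hlc
    exact h0 (leadingCoeff_eq_zero.1 hlc)
  have hcast : ∀ n : ℕ, 0 < n → n ≤ 4 → (n : R) ≠ 0 := by
    intro n h1 h2 h
    have := Nat.le_of_dvd h1 ((CharP.cast_eq_zero_iff R p n).1 h)
    omega
  rcases hq : Ψ.natDegree with _ | q
  · exfalso
    rw [eq_C_of_natDegree_eq_zero hq, ← hq, coeff_natDegree, hlc, evalEval_C, eval_C] at hxy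
    exact hc0 hxy
  · have hlead : Ψ.coeff (q + 1) = C c := by rw [← hq, coeff_natDegree, hlc]
    set A := Ψ.coeff q with hA
    set β : R := ((q + 1 : ℕ) : R) * c with hβ
    have hβ0 : β ≠ 0 := mul_ne_zero (hcast _ (by omega) (by omega)) hc0
    have hnext : ∀ u ∈ stab D Ψ, taylor u A = A - C (β * D u) := by
      intro u hu
      have hu' : tau u (D u) Ψ = Ψ := hu
      have := coeff_tau_next u (D u) Ψ q hq
      rw [hu', hlead, taylor_C, ← hA, ← C_eq_natCast, ← C_mul, ← C_mul] at this
      rw [eq_sub_iff_add_eq]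
      exact this.symm
    have hder : ∀ u ∈ G, taylor u (derivative A) = derivative A := by
      intro u hu
      have := congrArg derivative (hnext u (hGs u hu))
      rw [taylor_apply, derivative_comp] at this
      simpa [taylor_apply] using this
    have hA13 : A.natDegree ≤ 13 := h13 _
    have hdc := const_of_invariant G hG (derivative A)
      ((natDegree_derivative_le A).trans (by omega)) hder
    set a := (derivative A).eval 0 with ha
    have hz : derivative (A - C a * X) = 0 := by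
      rw [derivative_sub, hdc]; simp
    have hp0 : p ≠ 0 := by omega
    have hex := expand_contract p hz hp0
    set E := contract p (A - C a * X) with hE
    have hE2 : E.natDegree < 3 := by
      have h1 : (A - C a * X).natDegree ≤ 13 := by
        refine (natDegree_sub_le _ _).trans (max_le hA13 ?_)
        refine (natDegree_C_mul_le _ _).trans ?_
        rw [natDegree_X]; omega
      rw [← hex, natDegree_expand] at h1
      by_contra hcon
      have : 3 * 5 ≤ E.natDegree * p := Nat.mul_le_mul (by omega) hp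
      omega
    have hev : ∀ z : R, A.eval z =
        a * z + (E.coeff 0 + E.coeff 1 * z ^ p + E.coeff 2 * (z ^ p) ^ 2) := by
      intro z
      have h1 := congrArg (eval z) hex
      rw [expand_eval, eval_eq_sum_range' hE2] at h1
      simp only [Finset.sum_range_succ, Finset.range_zero, Finset.sum_empty, zero_add, pow_zero,
        mul_one, pow_one, eval_sub, eval_mul, eval_C, eval_X] at h1
      rw [h1]; ring
    have hB : ∀ u ∈ stab D Ψ,
        β * D u = -(a * u + (E.coeff 1 * u ^ p + E.coeff 2 * (u ^ p) ^ 2)) := by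
      intro u hu
      have h1 := congrArg (eval 0) (hnext u hu)
      rw [taylor_eval, zero_add, eval_sub, eval_C, hev, hev, zero_pow hp0] at h1
      linear_combination h1
    have he2 : E.coeff 2 = 0 := by
      obtain ⟨u, hu, hu0⟩ : ∃ u ∈ G, u ≠ 0 := by
        obtain ⟨u, hu, v, hv, huv⟩ := Finset.one_lt_card.1 (show 1 < G.card by omega)
        by_cases h : u = 0
        · exact ⟨v, hv, fun h' => huv (h.trans h'.symm)⟩
        · exact ⟨u, hu, h⟩
      have h1 := hB u (hGs u hu)
      have h2 := hB (u + u) (add_mem (hGs u hu) (hGs u hu))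
      rw [map_add, add_pow_char] at h2
      have h3 : ((2 : ℕ) : R) * (E.coeff 2 * (u ^ p) ^ 2) = 0 := by
        push_cast
        linear_combination h2 - 2 * h1
      rcases mul_eq_zero.1 h3 with h | h
      · exact absurd h (hcast 2 (by omega) (by omega))
      · rcases mul_eq_zero.1 h with h | h
        · exact h
        · exact absurd h (pow_ne_zero _ (pow_ne_zero _ hu0))
    refine ⟨β, -a, -E.coeff 1, hβ0, fun u hu => ?_⟩
    rw [hB u hu, he2]; ring

end Main

theorem exists_ode (p : ℕ) [Fact p.Prime] (hp : 5 ≤ p) {k : Type*} [Field k] [Algebra (ZMod p) k]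
    {ι : Type*} [Fintype ι] [DecidableEq ι] (m : ℕ) (hι : m + 72 ≤ Fintype.card ι)
    (b : k[X]) (d : ι → k[X]) (hd : LinearIndependent (ZMod p) d)
    (Φ : k[X][X][X]) (h0 : Φ ≠ 0) (h4 : Φ.natDegree ≤ 4) (h13 : ∀ j, (Φ.coeff j).natDegree ≤ 13)
    (hv : ∀ S : Finset ι, Φ.evalEval (b + ∑ j ∈ S, d j) (derivative (b + ∑ j ∈ S, d j)) = 0) :
    ∃ (J : Finset ι) (β l0 l1 : k[X]), m ≤ J.card ∧ β ≠ 0 ∧
      ∀ j ∈ J, β * derivative (d j) = l0 * d j + l1 * d j ^ p := by
  classical
  have : CharP k p := charP_of_injective_algebraMap (algebraMap (ZMod p) k).injective p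
  let D : k[X] →+ k[X] := (derivative : k[X] →ₗ[k] k[X]).toAddMonoidHom
  have hm : meas Φ < 70 := by
    have := h13 Φ.natDegree
    rw [coeff_natDegree] at this
    unfold meas
    omega
  obtain ⟨Ψ, J, k1, k2, k3, k4, k5, k6⟩ :=
    descent D b d 70 Φ Finset.univ h0 h4 h13 hm (fun S _ => hv S)
  rw [Finset.card_univ] at k1
  obtain ⟨i, hi, j, hj, hij⟩ := Finset.one_lt_card.1 (show 1 < J.card by omega)
  let f : ZMod p × ZMod p → k[X] := fun c => c.1 • d i + c.2 • d j
  have hpair : LinearIndependent (ZMod p) ![d i, d j] := by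
    have := hd.comp ![i, j] (by
      intro a b hab
      fin_cases a <;> fin_cases b <;> simp_all [eq_comm])
    convert this using 1
    funext a
    fin_cases a <;> rfl
  have hf : Function.Injective f := by
    intro c c' h
    have h' : (c.1 - c'.1) • d i + (c.2 - c'.2) • d j = 0 := by
      have h2 : c.1 • d i + c.2 • d j = c'.1 • d i + c'.2 • d j := h
      rw [sub_smul, sub_smul]
      linear_combination h2
    obtain ⟨e1, e2⟩ := LinearIndependent.pair_iff.1 hpair _ _ h'
    exact Prod.ext (sub_eq_zero.1 e1) (sub_eq_zero.1 e2)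
  have hsm : ∀ (c : ZMod p) (u : k[X]), u ∈ stab D Ψ → c • u ∈ stab D Ψ := by
    intro c u hu
    rw [← ZMod.natCast_zmod_val c, Nat.cast_smul_eq_nsmul]
    exact nsmul_mem hu _
  obtain ⟨β, l0, l1, hβ, hode⟩ := ode_of_invariant p hp D Ψ k2 k3 k4 _ _ k5
    (Finset.univ.image f) (by
      rw [Finset.card_image_of_injective _ hf, Finset.card_univ, Fintype.card_prod, ZMod.card]
      have : 5 * 5 ≤ p * p := Nat.mul_le_mul hp hp
      omega) (by
      intro u hu
      obtain ⟨c, -, rfl⟩ := Finset.mem_image.1 hu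
      exact add_mem (hsm _ _ (k6 i hi)) (hsm _ _ (k6 j hj)))
  exact ⟨J, β, l0, l1, by omega, hβ, fun j hj => hode (d j) (k6 j hj)⟩

end Pool.Agent.P.MP_9d026e_co
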