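import Pool.Agent.P.MP_9d026e_co.Defs
import Pool.Agent.P.MP_9d026e_co.Endgame
import Pool.Agent.P.MP_9d026e_co.Ode
import Pool.Agent.P.MP_9d026e_co.Curve

/-! No large non-degenerate Hilbert cube of squares. -/

open Polynomial Finset

namespace Pool.Agent.P.MP_9d026e_co

theorem sum_map_emb {M α β : Type*} [AddCommMonoid M] (f : α ↪ β) (S : Finset α) (d : β → M) :
    ∑ j ∈ S, d (f j) = ∑ j ∈ S.map f, d j := (Finset.sum_map S f d).symm

theorem noCube_closed (p : ℕ) [Fact p.Prime] (hp : 5 ≤ p) :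
    ∃ K : ℕ, ∀ (k : Type) [Field k] [IsAlgClosed k] [Algebra (ZMod p) k]
      (a : k[X]) (d : Fin K → k[X]) (n : ℕ), LinearIndependent (ZMod p) d →
      (∀ S : Finset (Fin K), IsSquare (a + ∑ j ∈ S, d j) ∧ a + ∑ j ∈ S, d j ≠ 0 ∧
        (a + ∑ j ∈ S, d j).natDegree = n) → (∀ j, wronskian a (d j) ≠ 0) → False := by
  set m := 8 * p + 8 * p with hm
  refine ⟨(m + 72) + (m + 72), fun k _ _ _ a d n hd hsq hW => ?_⟩
  classical
  have hchar : CharP k p := charP_of_injective_algebraMap (algebraMap (ZMod p) k).injective p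
  have h2 : (2 : k) ≠ 0 := by
    intro h
    have : p ∣ 2 := (CharP.cast_eq_zero_iff k p 2).1 (by exact_mod_cast h)
    have := Nat.le_of_dvd two_pos this
    omega
  let f1 : Fin (m + 72) ↪ Fin ((m + 72) + (m + 72)) := Fin.castAddEmb (m + 72)
  let f2 : Fin (m + 72) ↪ Fin ((m + 72) + (m + 72)) := Fin.natAddEmb (m + 72)
  have han : a.natDegree = n := by simpa using (hsq ∅).2.2
  have hn : 1 ≤ n := by
    by_contra h
    have hn0 : n = 0 := by omega
    have h1 := (hsq {f1 ⟨0, by omega⟩}).2.2
    rw [sum_singleton, hn0] at h1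
    rw [hn0] at han
    apply hW (f1 ⟨0, by omega⟩)
    have h3 : derivative a = 0 := by rw [eq_C_of_natDegree_eq_zero han, derivative_C]
    have h4 : derivative (a + d (f1 ⟨0, by omega⟩)) = 0 := by
      rw [eq_C_of_natDegree_eq_zero h1, derivative_C]
    rw [derivative_add, h3, zero_add] at h4
    rw [wronskian, h3, h4]; ring
  have fin : ∀ (f : Fin (m + 72) ↪ Fin ((m + 72) + (m + 72))) (J : Finset (Fin (m + 72)))
      (β l0 l1 : k[X]), m ≤ J.card → β ≠ 0 →
      (∀ j ∈ J, β * derivative (d (f j)) = l0 * d (f j) + l1 * d (f j) ^ p) → False := by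
    intro f J β l0 l1 hJ hβ hrel
    obtain ⟨e⟩ : Nonempty (Fin (8 * p) ⊕ Fin (8 * p) ↪ {j // j ∈ J}) :=
      Function.Embedding.nonempty_of_card_le (by simpa using hJ)
    let g : Fin (8 * p) ⊕ Fin (8 * p) ↪ Fin ((m + 72) + (m + 72)) :=
      (e.trans (Function.Embedding.subtype _)).trans f
    have hg : ∀ x, β * derivative (d (g x)) = l0 * d (g x) + l1 * d (g x) ^ p :=
      fun x => hrel (e x).1 (e x).2
    have hdi : Function.Injective d := hd.injective
    obtain ⟨h1, h3⟩ := endgame p hp (ι := Fin (8 * p)) (κ := Fin (8 * p)) (by simp) (by simp)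
      (fun i => a + d (g (Sum.inl i))) (fun j => - d (g (Sum.inr j)))
      (fun i i' h => Sum.inl_injective (g.injective (hdi (add_left_cancel h))))
      (fun i i' h => Sum.inr_injective (g.injective (hdi (neg_injective h)))) n
      (fun i j => by
        have hne : g (Sum.inl i) ≠ g (Sum.inr j) := fun h => Sum.inl_ne_inr (g.injective h)
        have := hsq {g (Sum.inl i), g (Sum.inr j)}
        rw [sum_pair hne] at this
        have e1 : a + d (g (Sum.inl i)) - -d (g (Sum.inr j)) =
            a + (d (g (Sum.inl i)) + d (g (Sum.inr j))) := by ring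
        rw [e1]; exact this)
      β l0 l1 hβ
      (fun i i' => by
        have e1 := hg (Sum.inl i)
        have e2 := hg (Sum.inl i')
        rw [add_sub_add_left_eq_sub, sub_pow_char, derivative_sub]
        linear_combination e1 - e2)
      (fun i i' => by
        have e1 := hg (Sum.inr i)
        have e2 := hg (Sum.inr i')
        rw [neg_sub_neg, sub_pow_char, derivative_sub]
        linear_combination e2 - e1)
    have i0 : Fin (8 * p) := ⟨0, by omega⟩
    have e0 := h3 i0 i0
    have e1 := hg (Sum.inl i0)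
    have e2 := hg (Sum.inr i0)
    simp only [derivative_sub, derivative_add, derivative_neg] at e0
    rw [h1] at e1 e2
    apply hW (g (Sum.inl i0))
    apply mul_left_cancel₀ hβ
    rw [wronskian]
    linear_combination a * e1 - d (g (Sum.inl i0)) * (e0 - e1 - e2)
  obtain ⟨Φ, h0, h4, h13, hv⟩ := exists_curve h2
    (fun S : Finset (Fin (m + 72)) => a + ∑ j ∈ S, d (f1 j))
    (fun S : Finset (Fin (m + 72)) => 0 + ∑ j ∈ S, - d (f2 j)) n hn
    (fun S S' => by
      have hdis : Disjoint (S.map f1) (S'.map f2) := by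
        rw [Finset.disjoint_left]
        intro x hx hx'
        obtain ⟨i, -, rfl⟩ := mem_map.1 hx
        obtain ⟨i', -, hi⟩ := mem_map.1 hx'
        have := congrArg Fin.val hi
        simp [f1, f2] at this
        omega
      have : a + ∑ j ∈ S, d (f1 j) - (0 + ∑ j ∈ S', - d (f2 j)) =
          a + ∑ j ∈ S.map f1 ∪ S'.map f2, d j := by
        rw [Finset.sum_union hdis, Finset.sum_neg_distrib, sum_map_emb, sum_map_emb]; ring
      rw [this]; exact hsq _)
    (fun S => by rw [sum_map_emb]; exact (hsq _).2.2.le)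
    (fun S => by
      have : (0 + ∑ j ∈ S, - d (f2 j)) = a - (a + ∑ j ∈ S.map f2, d j) := by
        rw [Finset.sum_neg_distrib, sum_map_emb]; ring
      rw [this]
      exact (natDegree_sub_le _ _).trans (max_le han.le (hsq _).2.2.le))
  rcases hv with hv | hv
  · obtain ⟨J, β, l0, l1, hJ, hβ, hrel⟩ := exists_ode p hp m (by simp) a (fun j => d (f1 j))
      (hd.comp f1 f1.injective) Φ h0 h4 h13 hv
    exact fin f1 J β l0 l1 hJ hβ hrel
  · obtain ⟨J, β, l0, l1, hJ, hβ, hrel⟩ := exists_ode p hp m (by simp) 0 (fun j => - d (f2 j))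
      (hd.comp f2 f2.injective).neg Φ h0 h4 h13 hv
    refine fin f2 J β l0 l1 hJ hβ fun j hj => ?_
    have h1 := hrel j hj
    rw [((Fact.out : p.Prime).odd_of_ne_two (by omega)).neg_pow, derivative_neg] at h1
    linear_combination -h1

theorem noCube (p : ℕ) [Fact p.Prime] (hp : 5 ≤ p) : ∃ K : ℕ, NoCube p K := by
  obtain ⟨K, hK⟩ := noCube_closed p hp
  refine ⟨K, fun a d n hd hsq hW => ?_⟩
  let k := AlgebraicClosure (ZMod p)
  let φ : (ZMod p)[X] →ₐ[ZMod p] k[X] := mapAlgHom (Algebra.ofId (ZMod p) k)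
  have hφ : ∀ f, φ f = f.map (algebraMap (ZMod p) k) := fun f => rfl
  have hinj : Function.Injective φ := map_injective _ (algebraMap (ZMod p) k).injective
  refine hK k (φ a) (fun j => φ (d j)) n ?_ (fun S => ?_) (fun j => ?_)
  · exact hd.map' φ.toLinearMap (LinearMap.ker_eq_bot.2 hinj)
  · rw [← map_sum, ← map_add]
    refine ⟨(hsq S).1.map φ, fun h => (hsq S).2.1 (hinj (by rw [h, map_zero])), ?_⟩
    rw [hφ, natDegree_map, (hsq S).2.2]
  · intro h
    apply hW j
    apply hinj
    rw [map_zero, ← h, wronskian, wronskian, map_sub, map_mul, map_mul]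
    simp only [hφ, derivative_map]

end Pool.Agent.P.MP_9d026e_co
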