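import Mathlib

/-! Interface predicates for the proof (not used in the final statement). -/

open Polynomial

namespace Pool.Agent.P.MP_9d026e_co

/-- There is no non-degenerate Hilbert cube of dimension `K` of squares of one degree. -/
def NoCube (p K : ℕ) [Fact p.Prime] : Prop :=
  ∀ (a : (ZMod p)[X]) (d : Fin K → (ZMod p)[X]) (n : ℕ),
    LinearIndependent (ZMod p) d →
    (∀ S : Finset (Fin K), IsSquare (a + ∑ j ∈ S, d j) ∧ a + ∑ j ∈ S, d j ≠ 0 ∧
      (a + ∑ j ∈ S, d j).natDegree = n) →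
    (∀ j, wronskian a (d j) ≠ 0) → False

/-- sample space: a group index and two families of subsets, different in each block -/
def Om (r e b : ℕ) : Finset (Fin r × (Fin e → Finset (Fin b)) × (Fin e → Finset (Fin b))) :=
  Finset.univ.filter fun w => ∀ k, w.2.1 k ≠ w.2.2 k

/-- the `k`-th random difference -/
def uu {Γ : Type*} [AddCommGroup Γ] {r e b : ℕ} (δ : Fin r × Fin e × Fin b → Γ)
    (w : Fin r × (Fin e → Finset (Fin b)) × (Fin e → Finset (Fin b))) (k : Fin e) : Γ :=
  ∑ l ∈ w.2.1 k, δ (w.1, k, l) - ∑ l ∈ w.2.2 k, δ (w.1, k, l)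

end Pool.Agent.P.MP_9d026e_co
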