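import Pool.Agent.P.MP_9d026e_co.EndLocal

/-! Local inequalities for the endgame. -/

open Polynomial Finset

namespace Pool.Agent.P.MP_9d026e_co

variable {k : Type*} [Field k] {s : ℕ}

theorem arithA (s L O : ℕ) (hs : 4 ≤ s) (h1 : 2 * L ≤ O + 2 * s) (h2 : L ≤ s * s) :
    4 * (s - 1) * L ≤ s * O + 2 * s * s * (s - 1) := by
  obtain ⟨t, rfl⟩ : ∃ t, s = t + 4 := ⟨s - 4, by omega⟩
  rw [show t + 4 - 1 = t + 3 by omega]
  nlinarith [Nat.mul_le_mul_left (t + 4) h1, Nat.mul_le_mul_left (2 * t + 4) h2]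

theorem arithB (s L O : ℕ) (hs : 4 ≤ s) (h1 : 2 * L ≤ O + 2 * s) (h2 : L ≤ s * s) :
    8 * (s - 1) * L ≤ 3 * s * O + 2 * s * s * (s - 1) := by
  obtain ⟨t, rfl⟩ : ∃ t, s = t + 4 := ⟨s - 4, by omega⟩
  rw [show t + 4 - 1 = t + 3 by omega]
  nlinarith [Nat.mul_le_mul_left (3 * (t + 4)) h1, Nat.mul_le_mul_left (2 * t) h2]

theorem sumA (hs : 4 ≤ s) (x : k) (P Q : Fin s → k[X]) (T : ℕ) :
    4 * (s - 1) * ∑ l ∈ Finset.range T, lev ((X - C x) ^ (l + 1)) P Q ≤
      s * (∑ l ∈ Finset.range T, off ((X - C x) ^ (l + 1)) P +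
        ∑ l ∈ Finset.range T, off ((X - C x) ^ (l + 1)) Q) + 2 * s * s * (s - 1) * T := by
  induction T with
  | zero => simp
  | succ T ih =>
    simp only [Finset.sum_range_succ]
    have := arithA s _ _ hs (lev_amgm ((X - C x) ^ (T + 1)) P Q) (lev_le _ P Q)
    nlinarith

theorem sumC (x : k) (P Q : Fin s → k[X]) (T : ℕ) :
    2 * ∑ l ∈ Finset.range T, lev ((X - C x) ^ (l + 1)) P Q ≤
      (∑ l ∈ Finset.range T, off ((X - C x) ^ (l + 1)) P +
        ∑ l ∈ Finset.range T, off ((X - C x) ^ (l + 1)) Q) + 2 * s * T := by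
  induction T with
  | zero => simp
  | succ T ih =>
    simp only [Finset.sum_range_succ]
    have := lev_amgm ((X - C x) ^ (T + 1)) P Q
    nlinarith

theorem cross_le (x : k) (P Q : Fin s → k[X]) (hP : Function.Injective P)
    (hQ : Function.Injective Q) (h0 : ∀ i j, P i - Q j ≠ 0) (T : ℕ)
    (hT : ∀ i j, rootMultiplicity x (P i - Q j) ≤ T) :
    2 * crossV x P Q ≤ offV x P + offV x Q + 2 * s * T := by
  rw [crossV_eq x P Q h0 T hT]
  have h1 := sumC x P Q T
  have h2 := le_offV x P hP T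
  have h3 := le_offV x Q hQ T
  omega

theorem crossV_zero (x : k) (P Q : Fin s → k[X])
    (h : ∀ i j, rootMultiplicity x (P i - Q j) = 0) : crossV x P Q = 0 := by
  simp [crossV, h]

theorem crossV_zero_of_le_one (x : k) (P Q : Fin s → k[X])
    (hsq : ∀ i j, IsSquare (P i - Q j) ∧ P i - Q j ≠ 0)
    (h : ∀ i j, rootMultiplicity x (P i - Q j) ≤ 1) : crossV x P Q = 0 := by
  apply crossV_zero
  intro i j
  obtain ⟨r, hr⟩ := even_rm (hsq i j).2 (hsq i j).1 x
  have := h i j
  omega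

theorem crossV_zero_of_within (x : k) (P Q : Fin s → k[X])
    (hP : ∀ i j, (P i - P j).eval x = 0) (hQ : ∀ i j, (Q i - Q j).eval x = 0)
    (ha : ∃ i j, (P i - Q j).eval x ≠ 0) : crossV x P Q = 0 := by
  apply crossV_zero
  intro i j
  apply rootMultiplicity_eq_zero
  intro h
  obtain ⟨i0, j0, h0⟩ := ha
  apply h0
  have h1 := hP i0 i
  have h2 := hQ j j0
  simp only [IsRoot, eval_sub] at h h1 h2 ⊢
  linear_combination h + h1 + h2

/-- the local inequality at a point where `β` does not vanish, strong form -/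
theorem local_nonroot (p : ℕ) (hp : 1 ≤ p) (hs : 4 ≤ s) (x : k) (P Q : Fin s → k[X])
    (hP : Function.Injective P) (hQ : Function.Injective Q)
    (hsq : ∀ i j, IsSquare (P i - Q j) ∧ P i - Q j ≠ 0) {β l0 l1 c : k[X]} (hc0 : c ≠ 0)
    (hβ : β.eval x ≠ 0)
    (hLP : ∀ i j, β * derivative (P i - P j) = l0 * (P i - P j) + l1 * (P i - P j) ^ p)
    (hLQ : ∀ i j, β * derivative (Q i - Q j) = l0 * (Q i - Q j) + l1 * (Q i - Q j) ^ p)
    (hc : ∀ i j, β * derivative (P i - Q j) = l0 * (P i - Q j) + l1 * (P i - Q j) ^ p + c) :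
    4 * (s - 1) * crossV x P Q ≤
      s * (offV x P + offV x Q) + 2 * s * s * (s - 1) * rootMultiplicity x c := by
  have h0 : ∀ i j, P i - Q j ≠ 0 := fun i j => (hsq i j).2
  by_cases h : ∀ i j, rootMultiplicity x (P i - Q j) ≤ rootMultiplicity x c
  · rw [crossV_eq x P Q h0 _ h]
    refine (sumA hs x P Q _).trans ?_
    have h2 := le_offV x P hP (rootMultiplicity x c)
    have h3 := le_offV x Q hQ (rootMultiplicity x c)
    exact Nat.add_le_add_right (Nat.mul_le_mul_left _ (Nat.add_le_add h2 h3)) _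
  have hle : ∀ i j, rootMultiplicity x (P i - Q j) ≤ rootMultiplicity x c + 1 := by
    intro i j
    by_contra hcon
    have := dvd_c1 p hp x (hc i j) (rootMultiplicity x c + 1)
      ((dvd_iff_le_rm (h0 i j) x _).2 (by omega))
    rw [dvd_iff_le_rm hc0] at this
    omega
  push Not at h
  obtain ⟨i0, j0, h1⟩ := h
  have h2 : rootMultiplicity x (P i0 - Q j0) = rootMultiplicity x c + 1 := by
    have := hle i0 j0; omega
  obtain ⟨r, hr⟩ := even_rm (h0 i0 j0) (hsq i0 j0).1 x
  obtain ⟨t, ht⟩ : ∃ t, rootMultiplicity x c = t + 1 := ⟨rootMultiplicity x c - 1, by omega⟩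
  have hcast : ((t + 1 + 1 : ℕ) : k) ≠ 0 := by
    intro hk
    have := dvd_c3 p hp x (hc i0 j0) _ hk ((dvd_iff_le_rm (h0 i0 j0) x _).2 (by omega))
    rw [dvd_iff_le_rm hc0] at this
    omega
  rw [ht] at hle ⊢
  rw [crossV_eq x P Q h0 _ hle]
  have h3 := le_offV x P hP (t + 3)
  have h4 := le_offV x Q hQ (t + 3)
  simp only [Finset.sum_range_succ] at h3 h4 ⊢
  have h5 := sumA hs x P Q t
  have h6 := arithB s _ _ hs (lev_amgm ((X - C x) ^ (t + 1 + 1)) P Q) (lev_le _ P Q)
  have h7 : lev ((X - C x) ^ (t + 1)) P Q ≤ lev ((X - C x) ^ (t + 1 + 1)) P Q := by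
    apply lev_mono
    intro i j hd
    rw [dvd_iff_le_rm (h0 i j)] at hd ⊢
    obtain ⟨r', hr'⟩ := even_rm (h0 i j) (hsq i j).1 x
    omega
  have h8 : ∀ R : Fin s → k[X], off ((X - C x) ^ (t + 1 + 1)) R ≤ off ((X - C x) ^ (t + 1)) R :=
    fun R => off_mono R fun i j _ hd => (pow_dvd_pow _ (Nat.le_succ _)).trans hd
  have h9 : ∀ R : Fin s → k[X], Function.Injective R →
      (∀ i j, β * derivative (R i - R j) = l0 * (R i - R j) + l1 * (R i - R j) ^ p) →
      off ((X - C x) ^ (t + 1 + 1)) R ≤ off ((X - C x) ^ (t + 2 + 1)) R := by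
    intro R hR hL
    apply off_mono
    intro i j hij hd
    have hne : R i - R j ≠ 0 := sub_ne_zero.2 fun h' => hij (hR h')
    rw [dvd_iff_le_rm hne] at hd ⊢
    by_contra hcon
    exact hcast (cast_of_sol p hp x hβ hne (hL i j) (t + 1) (by omega))
  have h10 := h8 P
  have h11 := h8 Q
  have h12 := h9 P hP hLP
  have h13 := h9 Q hQ hLQ
  set a := ∑ l ∈ Finset.range t, lev ((X - C x) ^ (l + 1)) P Q
  set b := ∑ l ∈ Finset.range t, off ((X - C x) ^ (l + 1)) P
  set b' := ∑ l ∈ Finset.range t, off ((X - C x) ^ (l + 1)) Q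
  set L1 := lev ((X - C x) ^ (t + 1)) P Q
  set L2 := lev ((X - C x) ^ (t + 1 + 1)) P Q
  set O := off ((X - C x) ^ (t + 1 + 1)) P
  set O' := off ((X - C x) ^ (t + 1 + 1)) Q
  have h14 : b + b' + 3 * (O + O') ≤ offV x P + offV x Q := by omega
  have h15 := Nat.mul_le_mul_left s h14
  have h16 := Nat.mul_le_mul_left (4 * (s - 1)) h7
  nlinarith

theorem off_mono' {d : k[X]} (P R : Fin s → k[X]) (h : ∀ i j, P i - P j = R i - R j) :
    off d P ≤ off d R := by
  unfold off
  refine Finset.sum_le_sum fun i _ => Finset.sum_le_sum fun j _ => ?_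
  rw [h i j]

theorem lev_mono' {d : k[X]} (P Q P' Q' : Fin s → k[X]) (h : ∀ i j, P i - Q j = P' i - Q' j) :
    lev d P Q ≤ lev d P' Q' := by
  unfold lev
  refine Finset.sum_le_sum fun i _ => Finset.sum_le_sum fun j _ => ?_
  rw [h i j]

theorem off_plotkin (p : ℕ) (hs : s = 8 * p) (hp : 1 ≤ p) (x : k) (P : Fin s → k[X])
    (S : Finset k) (hS : S.card ≤ p) (f : k[X]) (h : ∀ i, (P i - f).eval x ∈ S) :
    7 * s ≤ off ((X - C x) ^ 1) P := by
  have h1 := cnt_plotkin1 (fun i => (P i - f).eval x) S h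
  rw [← lev_one x (fun i => P i - f) (fun i => P i - f), lev_self, Fintype.card_fin] at h1
  have h2 : off ((X - C x) ^ 1) (fun i => P i - f) ≤ off ((X - C x) ^ 1) P :=
    off_mono' _ _ fun i j => by ring
  have h3 : s ^ 2 ≤ p * (off ((X - C x) ^ 1) P + s) :=
    h1.trans (Nat.mul_le_mul hS (by omega))
  have h4 : p * (8 * s) ≤ p * (off ((X - C x) ^ 1) P + s) := by
    calc p * (8 * s) = s ^ 2 := by rw [sq]; nth_rewrite 2 [hs]; ring
      _ ≤ _ := h3
  have := Nat.le_of_mul_le_mul_left h4 hp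
  omega

theorem off_one_le (x : k) (P : Fin s → k[X]) (hP : Function.Injective P) :
    off ((X - C x) ^ 1) P ≤ offV x P := by
  simpa using le_offV x P hP 1

theorem exists_within_zero (p : ℕ) (hp : 2 ≤ p) (hs : p < s) (x : k) (P : Fin s → k[X])
    {β l0 l1 : k[X]} (hβx : β.eval x = 0) (hl0 : l0.eval x ≠ 0)
    (hLP : ∀ i j, β * derivative (P i - P j) = l0 * (P i - P j) + l1 * (P i - P j) ^ p) :
    ∃ i j, i ≠ j ∧ (P i - P j).eval x = 0 := by
  have i0 : Fin s := ⟨0, by omega⟩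
  obtain ⟨i, j, hij, he⟩ := pigeon p hp hs (fun i => (P i - P i0).eval x) _ _ (Or.inl hl0)
    (fun i => eval_sol p x hβx (hLP i i0))
  refine ⟨i, j, hij, ?_⟩
  simp only [eval_sub] at he ⊢
  linear_combination he

theorem local_two (p : ℕ) (hp : 1 ≤ p) (hs : 4 ≤ s) (x : k) (P Q : Fin s → k[X])
    (hP : Function.Injective P) (hQ : Function.Injective Q)
    (hsq : ∀ i j, IsSquare (P i - Q j) ∧ P i - Q j ≠ 0) {β l0 l1 c : k[X]} (hc0 : c ≠ 0)
    (hβ : β ≠ 0) (hl1 : l1 = 0)
    (hLP : ∀ i j, β * derivative (P i - P j) = l0 * (P i - P j) + l1 * (P i - P j) ^ p)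
    (hLQ : ∀ i j, β * derivative (Q i - Q j) = l0 * (Q i - Q j) + l1 * (Q i - Q j) ^ p)
    (hc : ∀ i j, β * derivative (P i - Q j) = l0 * (P i - Q j) + l1 * (P i - Q j) ^ p + c)
    (ha : ∃ i j, (P i - Q j).eval x ≠ 0)
    (hb : β.eval x = 0 → l0.eval x = 0 → l1.eval x ≠ 0) :
    4 * (s - 1) * crossV x P Q + 2 * s * s * (s - 1) * rootMultiplicity x β ≤
      s * (offV x P + offV x Q) + 2 * s * s * (s - 1) * rootMultiplicity x c := by
  by_cases hβx : β.eval x = 0
  · have hl0 : l0.eval x ≠ 0 := fun h => hb hβx h (by simp [hl1])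
    have hw : ∀ R : Fin s → k[X],
        (∀ i j, β * derivative (R i - R j) = l0 * (R i - R j) + l1 * (R i - R j) ^ p) →
        ∀ i j, (X - C x) ^ rootMultiplicity x β ∣ R i - R j := by
      intro R hL i j
      apply dvd_of_dvd_mul_unit x _ hl0
      have := hL i j
      rw [hl1, zero_mul, add_zero] at this
      rw [← this]
      exact (pow_rootMultiplicity_dvd β x).mul_right _
    have hμ : 1 ≤ rootMultiplicity x β := (rootMultiplicity_pos hβ).2 hβx
    have hz : ∀ R : Fin s → k[X],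
        (∀ i j, β * derivative (R i - R j) = l0 * (R i - R j) + l1 * (R i - R j) ^ p) →
        ∀ i j, (R i - R j).eval x = 0 := fun R hL i j =>
      dvd_iff_isRoot.1 ((dvd_pow_self _ (by omega)).trans (hw R hL i j))
    have hW : ∀ R : Fin s → k[X], Function.Injective R →
        (∀ i j, β * derivative (R i - R j) = l0 * (R i - R j) + l1 * (R i - R j) ^ p) →
        s * (s - 1) * rootMultiplicity x β ≤ 1 * offV x R := fun R hR hL =>
      mul_le_offV x R _ 1 fun i j hij => by
        rw [one_mul, ← dvd_iff_le_rm (sub_ne_zero.2 fun h' => hij (hR h'))]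
        exact hw R hL i j
    rw [crossV_zero_of_within x P Q (hz P hLP) (hz Q hLQ) ha]
    have h1 := Nat.mul_le_mul_left s (Nat.add_le_add (hW P hP hLP) (hW Q hQ hLQ))
    nlinarith [Nat.zero_le (2 * s * s * (s - 1) * rootMultiplicity x c)]
  · rw [rootMultiplicity_eq_zero (p := β) hβx, mul_zero, add_zero]
    exact local_nonroot p hp hs x P Q hP hQ hsq hc0 hβx hLP hLQ hc

theorem local_three (p : ℕ) (hp : 2 ≤ p) (hs : s = 8 * p) (x : k) (P Q : Fin s → k[X])
    (hP : Function.Injective P) (hQ : Function.Injective Q)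
    (hsq : ∀ i j, IsSquare (P i - Q j) ∧ P i - Q j ≠ 0) {β l0 l1 : k[X]} (hβ : β ≠ 0)
    (hLP : ∀ i j, β * derivative (P i - P j) = l0 * (P i - P j) + l1 * (P i - P j) ^ p)
    (hLQ : ∀ i j, β * derivative (Q i - Q j) = l0 * (Q i - Q j) + l1 * (Q i - Q j) ^ p)
    (hc : ∀ i j, β * derivative (P i - Q j) = l0 * (P i - Q j) + l1 * (P i - Q j) ^ p)
    (ha : ∃ i j, (P i - Q j).eval x ≠ 0)
    (hb : β.eval x = 0 → l0.eval x = 0 → l1.eval x ≠ 0) :
    30 * s * rootMultiplicity x β ≤ offV x P + offV x Q + crossV x P Q := by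
  by_cases hβx : β.eval x = 0
  swap
  · rw [rootMultiplicity_eq_zero (p := β) hβx]; simp
  have hl0 : l0.eval x ≠ 0 := by
    intro h
    obtain ⟨i, j, hij⟩ := ha
    have := eval_sol p x hβx (hc i j)
    rw [h, zero_mul, zero_add, mul_eq_zero] at this
    exact hij (pow_eq_zero_iff (by omega) |>.1 (this.resolve_left (hb hβx h)))
  obtain ⟨i, j, hij, hz⟩ := exists_within_zero p hp (by omega) x P hβx hl0 hLP
  have hμ := mu_le_one p hp x hβ hl0 (sub_ne_zero.2 fun h' => hij (hP h')) hz (hLP i j)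
  obtain ⟨S, hS, hS'⟩ := rootset p hp (l0.eval x) (l1.eval x) (Or.inl hl0)
  have h1 := cnt_plotkin2 (fun a => (P a - Q i).eval x) (fun a => (Q a - Q i).eval x) S
    (fun a => hS' _ (eval_sol p x hβx (hc a i))) (fun a => hS' _ (eval_sol p x hβx (hLQ a i)))
  rw [← lev_one x (fun a => P a - Q i) (fun a => P a - Q i),
    ← lev_one x (fun a => Q a - Q i) (fun a => Q a - Q i),
    ← lev_one x (fun a => P a - Q i) (fun a => Q a - Q i), lev_self, lev_self,
    Fintype.card_fin] at h1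
  have h2 : off ((X - C x) ^ 1) (fun a => P a - Q i) ≤ offV x P :=
    (off_mono' _ _ fun i j => by ring).trans (off_one_le x P hP)
  have h3 : off ((X - C x) ^ 1) (fun a => Q a - Q i) ≤ offV x Q :=
    (off_mono' _ _ fun i j => by ring).trans (off_one_le x Q hQ)
  have h4 : 2 * lev ((X - C x) ^ 1) (fun a => P a - Q i) (fun a => Q a - Q i) ≤
      crossV x P Q := by
    refine (Nat.mul_le_mul_left 2 (lev_mono' _ _ P Q fun i j => by ring)).trans ?_
    unfold lev crossV
    rw [Finset.mul_sum]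
    refine Finset.sum_le_sum fun a _ => ?_
    rw [Finset.mul_sum]
    refine Finset.sum_le_sum fun b _ => ?_
    split_ifs with h
    · rw [dvd_iff_le_rm (hsq a b).2] at h
      obtain ⟨r, hr⟩ := even_rm (hsq a b).2 (hsq a b).1 x
      omega
    · simp
  have h5 : (s + s) ^ 2 ≤ p * (offV x P + offV x Q + crossV x P Q + 2 * s) :=
    h1.trans (Nat.mul_le_mul hS (by omega))
  have h6 : p * (32 * s) ≤ p * (offV x P + offV x Q + crossV x P Q + 2 * s) := by
    calc p * (32 * s) = (s + s) ^ 2 := by rw [sq]; nth_rewrite 2 3 [hs]; ring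
      _ ≤ _ := h5
  have h7 := Nat.le_of_mul_le_mul_left h6 (by omega)
  have h8 := Nat.mul_le_mul_left (30 * s) hμ
  omega

theorem local_four (p : ℕ) (hp : 2 ≤ p) (hs : s = 8 * p) (x : k) (P Q : Fin s → k[X])
    (hP : Function.Injective P) (hQ : Function.Injective Q)
    (hsq : ∀ i j, IsSquare (P i - Q j) ∧ P i - Q j ≠ 0) {β l0 l1 c : k[X]} (hc0 : c ≠ 0)
    (hβ : β ≠ 0)
    (hLP : ∀ i j, β * derivative (P i - P j) = l0 * (P i - P j) + l1 * (P i - P j) ^ p)
    (hLQ : ∀ i j, β * derivative (Q i - Q j) = l0 * (Q i - Q j) + l1 * (Q i - Q j) ^ p)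
    (hc : ∀ i j, β * derivative (P i - Q j) = l0 * (P i - Q j) + l1 * (P i - Q j) ^ p + c)
    (ha : ∃ i j, (P i - Q j).eval x ≠ 0)
    (hb : β.eval x = 0 → l0.eval x = 0 → l1.eval x ≠ 0) :
    2 * crossV x P Q + 12 * s * rootMultiplicity x β ≤
      offV x P + offV x Q + 8 * s * rootMultiplicity x c := by
  have h0 : ∀ i j, P i - Q j ≠ 0 := fun i j => (hsq i j).2
  by_cases hβx : β.eval x = 0
  · by_cases hl0 : l0.eval x = 0
    · have hl1 := hb hβx hl0
      have hz : ∀ R : Fin s → k[X],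
          (∀ i j, β * derivative (R i - R j) = l0 * (R i - R j) + l1 * (R i - R j) ^ p) →
          ∀ i j, (R i - R j).eval x = 0 := by
        intro R hL i j
        have := eval_sol p x hβx (hL i j)
        rw [hl0, zero_mul, zero_add, mul_eq_zero] at this
        exact pow_eq_zero_iff (by omega) |>.1 (this.resolve_left hl1)
      rw [crossV_zero_of_within x P Q (hz P hLP) (hz Q hLQ) ha]
      have h1 := mul_le_offV x P _ p (mu_le_mul p hp (by omega) x hβ hβx hl0 hl1 P hP hLP)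
      have h2 := mul_le_offV x Q _ p (mu_le_mul p hp (by omega) x hβ hβx hl0 hl1 Q hQ hLQ)
      have h3 : p * (16 * (s - 1) * rootMultiplicity x β) ≤ p * (offV x P + offV x Q) := by
        calc p * (16 * (s - 1) * rootMultiplicity x β)
            = 2 * (s * (s - 1) * rootMultiplicity x β) := by nth_rewrite 2 [hs]; ring
          _ ≤ _ := by rw [mul_add]; omega
      have h4 := Nat.le_of_mul_le_mul_left h3 (by omega)
      have h5 : 12 * s * rootMultiplicity x β ≤ 16 * (s - 1) * rootMultiplicity x β :=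
        Nat.mul_le_mul_right _ (by omega)
      omega
    · obtain ⟨i, j, hij, hz⟩ := exists_within_zero p hp (by omega) x P hβx hl0 hLP
      have hμ := mu_le_one p hp x hβ hl0 (sub_ne_zero.2 fun h' => hij (hP h')) hz (hLP i j)
      obtain ⟨S, hS, hS'⟩ := rootset p hp (l0.eval x) (l1.eval x) (Or.inl hl0)
      have h1 := (off_plotkin p hs (by omega) x P S hS (P i)
        fun a => hS' _ (eval_sol p x hβx (hLP a i))).trans (off_one_le x P hP)
      have hle : ∀ a b, rootMultiplicity x (P a - Q b) ≤ rootMultiplicity x c := by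
        intro a b
        by_contra hcon
        have := dvd_c2 p (by omega) x hβx (hc a b) (rootMultiplicity x c)
          ((dvd_iff_le_rm (h0 a b) x _).2 (by omega))
        rw [dvd_iff_le_rm hc0] at this
        omega
      have h2 := (off_plotkin p hs (by omega) x Q S hS (Q i)
        fun a => hS' _ (eval_sol p x hβx (hLQ a i))).trans (off_one_le x Q hQ)
      have h8 := Nat.mul_le_mul_left (12 * s) hμ
      by_cases hκ : rootMultiplicity x c ≤ 1
      · rw [crossV_zero_of_le_one x P Q hsq fun a b => (hle a b).trans hκ]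
        omega
      · have h3 := cross_le x P Q hP hQ h0 _ hle
        have h4 : 6 * s * 2 ≤ 6 * s * rootMultiplicity x c := Nat.mul_le_mul_left _ (by omega)
        nlinarith
  · rw [rootMultiplicity_eq_zero (p := β) hβx, mul_zero, add_zero]
    have hle : ∀ i j, rootMultiplicity x (P i - Q j) ≤ rootMultiplicity x c + 1 := by
      intro i j
      by_contra hcon
      have := dvd_c1 p (by omega) x (hc i j) (rootMultiplicity x c + 1)
        ((dvd_iff_le_rm (h0 i j) x _).2 (by omega))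
      rw [dvd_iff_le_rm hc0] at this
      omega
    by_cases hκ : rootMultiplicity x c = 0
    · rw [crossV_zero_of_le_one x P Q hsq fun a b => (hle a b).trans (by omega)]
      omega
    · have h3 := cross_le x P Q hP hQ h0 _ hle
      have h4 : 2 * s * 1 ≤ 2 * s * rootMultiplicity x c := Nat.mul_le_mul_left _ (by omega)
      nlinarith

end Pool.Agent.P.MP_9d026e_co
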