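import Mathlib

/-! Counting lemmas and valuation lemmas for the endgame. -/

open Polynomial Finset

namespace Pool.Agent.P.MP_9d026e_co

section Count

open Classical in
/-- number of coincidences between two families -/
noncomputable def cnt {α β γ : Type*} [Fintype α] [Fintype β] (f : α → γ) (g : β → γ) : ℕ :=
  ∑ i, ∑ j, if f i = g j then 1 else 0

open Classical in
/-- size of a fibre -/
noncomputable def fib {α γ : Type*} [Fintype α] (f : α → γ) (c : γ) : ℕ :=
  ∑ i, if f i = c then 1 else 0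

theorem cnt_eq {α β γ : Type*} [Fintype α] [Fintype β] (f : α → γ) (g : β → γ) (S : Finset γ)
    (hS : ∀ i, f i ∈ S) : cnt f g = ∑ c ∈ S, fib f c * fib g c := by
  classical
  unfold cnt fib
  simp only [Finset.sum_mul_sum]
  rw [Finset.sum_comm (s := S)]
  refine Finset.sum_congr rfl fun i _ => ?_
  rw [Finset.sum_comm (s := S)]
  refine Finset.sum_congr rfl fun j _ => ?_
  rw [Finset.sum_eq_single (f i)]
  · by_cases h : f i = g j
    · simp [h]
    · simp [h, Ne.symm h]
  · intro c _ hc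
    simp [Ne.symm hc]
  · intro h; exact absurd (hS i) h

theorem sum_fib {α γ : Type*} [Fintype α] (f : α → γ) (S : Finset γ) (hS : ∀ i, f i ∈ S) :
    ∑ c ∈ S, fib f c = Fintype.card α := by
  classical
  unfold fib
  rw [Finset.sum_comm, Fintype.card_eq_sum_ones]
  refine Finset.sum_congr rfl fun i _ => ?_
  rw [Finset.sum_eq_single (f i)]
  · simp
  · intro c _ hc
    simp [Ne.symm hc]
  · intro h; exact absurd (hS i) h

theorem cnt_amgm {α β γ : Type*} [Fintype α] [Fintype β] (f : α → γ) (g : β → γ) :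
    2 * cnt f g ≤ cnt f f + cnt g g := by
  classical
  let S := Finset.univ.image f ∪ Finset.univ.image g
  have h1 : ∀ i, f i ∈ S := fun i => by simp [S]
  have h2 : ∀ i, g i ∈ S := fun i => by simp [S]
  rw [cnt_eq f g S h1, cnt_eq f f S h1, cnt_eq g g S h2, Finset.mul_sum, ← Finset.sum_add_distrib]
  refine Finset.sum_le_sum fun c _ => ?_
  nlinarith [sq_nonneg ((fib f c : ℤ) - fib g c)]

theorem cnt_plotkin1 {α γ : Type*} [Fintype α] (f : α → γ) (S : Finset γ) (hS : ∀ i, f i ∈ S) :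
    Fintype.card α ^ 2 ≤ S.card * cnt f f := by
  rw [cnt_eq f f S hS, ← sum_fib f S hS]
  simpa [sq] using sq_sum_le_card_mul_sum_sq (s := S) (f := fun c => fib f c)

theorem cnt_plotkin2 {α β γ : Type*} [Fintype α] [Fintype β] (f : α → γ) (g : β → γ)
    (S : Finset γ) (hf : ∀ i, f i ∈ S) (hg : ∀ i, g i ∈ S) :
    (Fintype.card α + Fintype.card β) ^ 2 ≤ S.card * (cnt f f + cnt g g + 2 * cnt f g) := by
  rw [cnt_eq f f S hf, cnt_eq g g S hg, cnt_eq f g S hf, ← sum_fib f S hf, ← sum_fib g S hg,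
    ← Finset.sum_add_distrib, Finset.mul_sum, ← Finset.sum_add_distrib, ← Finset.sum_add_distrib]
  have := sq_sum_le_card_mul_sum_sq (s := S) (f := fun c => fib f c + fib g c)
  refine this.trans (le_of_eq ?_)
  congr 1
  refine Finset.sum_congr rfl fun c _ => ?_
  ring

end Count

section Val

variable {k : Type*} [Field k]

theorem sum_rm_le (f : k[X]) (S : Finset k) : ∑ x ∈ S, rootMultiplicity x f ≤ f.natDegree := by
  classical
  refine le_trans ?_ (card_roots' f)
  simp only [← count_roots]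
  calc ∑ x ∈ S, f.roots.count x = ∑ x ∈ S.filter (· ∈ f.roots), f.roots.count x := by
        rw [Finset.sum_filter]
        refine Finset.sum_congr rfl fun x _ => ?_
        split_ifs with h
        · rfl
        · exact Multiset.count_eq_zero.2 h
    _ ≤ ∑ x ∈ f.roots.toFinset, f.roots.count x := by
        apply Finset.sum_le_sum_of_subset
        intro x hx
        simpa using (Finset.mem_filter.1 hx).2
    _ = _ := Multiset.toFinset_sum_count_eq _

theorem sum_rm_eq [IsAlgClosed k] (f : k[X]) (S : Finset k) (hS : ∀ x ∈ f.roots, x ∈ S) :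
    ∑ x ∈ S, rootMultiplicity x f = f.natDegree := by
  classical
  rw [← IsAlgClosed.card_roots_eq_natDegree]
  simp only [← count_roots]
  exact Multiset.sum_count_eq_card hS

theorem dvd_iff_le_rm {f : k[X]} (hf : f ≠ 0) (x : k) (l : ℕ) :
    (X - C x) ^ l ∣ f ↔ l ≤ rootMultiplicity x f := (le_rootMultiplicity_iff hf).symm

open Classical in
theorem sum_level_le {f : k[X]} (hf : f ≠ 0) (x : k) (T : ℕ) :
    (∑ l ∈ Finset.range T, if (X - C x) ^ (l + 1) ∣ f then 1 else 0) ≤ rootMultiplicity x f := by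
  rw [← Finset.card_filter]
  calc _ ≤ (Finset.range (rootMultiplicity x f)).card := by
        apply Finset.card_le_card
        intro l hl
        have := (Finset.mem_filter.1 hl).2
        rw [dvd_iff_le_rm hf] at this
        exact Finset.mem_range.2 this
    _ = _ := Finset.card_range _

open Classical in
theorem sum_level_eq {f : k[X]} (hf : f ≠ 0) (x : k) (T : ℕ) (hT : rootMultiplicity x f ≤ T) :
    (∑ l ∈ Finset.range T, if (X - C x) ^ (l + 1) ∣ f then 1 else 0) = rootMultiplicity x f := by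
  rw [← Finset.card_filter]
  calc _ = (Finset.range (rootMultiplicity x f)).card := by
        congr 1
        ext l
        simp only [Finset.mem_filter, Finset.mem_range, dvd_iff_le_rm hf]
        omega
    _ = _ := Finset.card_range _

theorem dvd_deriv (x : k) (m : ℕ) {f : k[X]} (h : (X - C x) ^ (m + 1) ∣ f) :
    (X - C x) ^ m ∣ derivative f := by
  obtain ⟨u, rfl⟩ := h
  rw [derivative_mul, derivative_X_sub_C_pow]
  apply dvd_add
  · simp only [Nat.add_sub_cancel]
    exact Dvd.dvd.mul_right (Dvd.intro_left _ rfl) _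
  · exact Dvd.dvd.mul_right (pow_dvd_pow _ (Nat.le_succ m)) _

theorem dvd_deriv_of_cast (x : k) (m : ℕ) (hm : (m : k) = 0) {f : k[X]} (h : (X - C x) ^ m ∣ f) :
    (X - C x) ^ m ∣ derivative f := by
  obtain ⟨u, rfl⟩ := h
  rw [derivative_mul, derivative_X_sub_C_pow, hm]
  simp

theorem cast_eq_zero_of_dvd_deriv (x : k) {f : k[X]} (hf : f ≠ 0) (m : ℕ)
    (hm : rootMultiplicity x f = m + 1) (h : (X - C x) ^ (m + 1) ∣ derivative f) :
    ((m + 1 : ℕ) : k) = 0 := by
  obtain ⟨u, hu, hnd⟩ := exists_eq_pow_rootMultiplicity_mul_and_not_dvd f hf x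
  rw [hm] at hu
  rw [hu, derivative_mul, derivative_X_sub_C_pow] at h
  simp only [Nat.add_sub_cancel] at h
  have h2 : (X - C x) ^ (m + 1) ∣ C ((m + 1 : ℕ) : k) * (X - C x) ^ m * u :=
    (dvd_add_left (Dvd.intro _ rfl)).1 h
  rw [pow_succ, mul_comm (C _), mul_assoc] at h2
  have h3 := (mul_dvd_mul_iff_left (pow_ne_zero m (X_sub_C_ne_zero x))).1 h2
  by_contra hne
  apply hnd
  rw [dvd_iff_isRoot] at h3 ⊢
  simp only [IsRoot, eval_mul, eval_C, mul_eq_zero] at h3
  exact h3.resolve_left hne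

theorem dvd_of_dvd_mul_unit (x : k) (m : ℕ) {b f : k[X]} (hb : b.eval x ≠ 0)
    (h : (X - C x) ^ m ∣ b * f) : (X - C x) ^ m ∣ f := by
  apply ((prime_X_sub_C x).pow_dvd_of_dvd_mul_left m _ h)
  rwa [dvd_iff_isRoot]

theorem even_rm {f : k[X]} (hf : f ≠ 0) (h : IsSquare f) (x : k) : Even (rootMultiplicity x f) := by
  obtain ⟨y, rfl⟩ := h
  rw [rootMultiplicity_mul hf]
  exact ⟨_, rfl⟩

end Val

section Level

variable {k : Type*} [Field k] {s : ℕ}

open Classical in
/-- number of pairs congruent modulo `d` -/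
noncomputable def lev (d : k[X]) (P Q : Fin s → k[X]) : ℕ :=
  ∑ i, ∑ j, if d ∣ P i - Q j then 1 else 0

open Classical in
/-- number of off-diagonal pairs congruent modulo `d` -/
noncomputable def off (d : k[X]) (P : Fin s → k[X]) : ℕ :=
  ∑ i, ∑ j ∈ Finset.univ.erase i, if d ∣ P i - P j then 1 else 0

theorem lev_self (d : k[X]) (P : Fin s → k[X]) : lev d P P = off d P + s := by
  classical
  unfold lev off
  have : ∀ i : Fin s, (∑ j, if d ∣ P i - P j then 1 else 0) =
      (∑ j ∈ Finset.univ.erase i, if d ∣ P i - P j then 1 else 0) + 1 := by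
    intro i
    rw [← Finset.sum_erase_add _ _ (Finset.mem_univ i)]
    simp
  simp only [this, Finset.sum_add_distrib]
  simp

theorem lev_eq_cnt (d : k[X]) (P Q : Fin s → k[X]) :
    lev d P Q = cnt (fun i => Ideal.Quotient.mk (Ideal.span {d}) (P i))
      (fun i => Ideal.Quotient.mk (Ideal.span {d}) (Q i)) := by
  unfold lev cnt
  refine Finset.sum_congr rfl fun i _ => Finset.sum_congr rfl fun j _ => ?_
  have h : d ∣ P i - Q j ↔ Ideal.Quotient.mk (Ideal.span {d}) (P i) =
      Ideal.Quotient.mk (Ideal.span {d}) (Q j) := by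
    rw [Ideal.Quotient.eq, Ideal.mem_span_singleton]
  by_cases h1 : d ∣ P i - Q j
  · rw [if_pos h1, if_pos (h.1 h1)]
  · rw [if_neg h1, if_neg (fun h2 => h1 (h.2 h2))]

theorem lev_amgm (d : k[X]) (P Q : Fin s → k[X]) :
    2 * lev d P Q ≤ off d P + off d Q + 2 * s := by
  have := cnt_amgm (fun i => Ideal.Quotient.mk (Ideal.span {d}) (P i))
      (fun i => Ideal.Quotient.mk (Ideal.span {d}) (Q i))
  rw [← lev_eq_cnt, ← lev_eq_cnt, ← lev_eq_cnt, lev_self, lev_self] at this
  omega

theorem lev_le (d : k[X]) (P Q : Fin s → k[X]) : lev d P Q ≤ s * s := by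
  classical
  unfold lev
  calc _ ≤ ∑ _i : Fin s, ∑ _j : Fin s, 1 :=
        Finset.sum_le_sum fun i _ => Finset.sum_le_sum fun j _ => by split_ifs <;> simp
    _ = _ := by simp

theorem lev_one (x : k) (P Q : Fin s → k[X]) :
    lev ((X - C x) ^ 1) P Q = cnt (fun i => (P i).eval x) (fun i => (Q i).eval x) := by
  unfold lev cnt
  refine Finset.sum_congr rfl fun i _ => Finset.sum_congr rfl fun j _ => ?_
  have h : (X - C x) ^ 1 ∣ P i - Q j ↔ (P i).eval x = (Q j).eval x := by
    rw [pow_one, dvd_iff_isRoot, IsRoot, eval_sub, sub_eq_zero]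
  by_cases h1 : (X - C x) ^ 1 ∣ P i - Q j
  · rw [if_pos h1, if_pos (h.1 h1)]
  · rw [if_neg h1, if_neg (fun h2 => h1 (h.2 h2))]

theorem lev_mono {d d' : k[X]} (P Q : Fin s → k[X])
    (h : ∀ i j, d ∣ P i - Q j → d' ∣ P i - Q j) : lev d P Q ≤ lev d' P Q := by
  unfold lev
  refine Finset.sum_le_sum fun i _ => Finset.sum_le_sum fun j _ => ?_
  by_cases h1 : d ∣ P i - Q j
  · rw [if_pos h1, if_pos (h i j h1)]
  · rw [if_neg h1]; exact Nat.zero_le _

theorem off_mono {d d' : k[X]} (P : Fin s → k[X])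
    (h : ∀ i j, i ≠ j → d ∣ P i - P j → d' ∣ P i - P j) : off d P ≤ off d' P := by
  unfold off
  refine Finset.sum_le_sum fun i _ => Finset.sum_le_sum fun j hj => ?_
  by_cases h1 : d ∣ P i - P j
  · rw [if_pos h1, if_pos (h i j (Finset.mem_erase.1 hj).1.symm h1)]
  · rw [if_neg h1]; exact Nat.zero_le _

/-- total cross valuation -/
noncomputable def crossV (x : k) (P Q : Fin s → k[X]) : ℕ :=
  ∑ i, ∑ j, rootMultiplicity x (P i - Q j)

/-- total off-diagonal valuation -/
noncomputable def offV (x : k) (P : Fin s → k[X]) : ℕ :=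
  ∑ i, ∑ j ∈ Finset.univ.erase i, rootMultiplicity x (P i - P j)

theorem crossV_eq (x : k) (P Q : Fin s → k[X]) (h0 : ∀ i j, P i - Q j ≠ 0) (T : ℕ)
    (hT : ∀ i j, rootMultiplicity x (P i - Q j) ≤ T) :
    crossV x P Q = ∑ l ∈ Finset.range T, lev ((X - C x) ^ (l + 1)) P Q := by
  unfold crossV lev
  rw [Finset.sum_comm (s := Finset.range T)]
  refine Finset.sum_congr rfl fun i _ => ?_
  rw [Finset.sum_comm (s := Finset.range T)]
  refine Finset.sum_congr rfl fun j _ => ?_
  exact (sum_level_eq (h0 i j) x T (hT i j)).symm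

theorem le_offV (x : k) (P : Fin s → k[X]) (hP : Function.Injective P) (T : ℕ) :
    ∑ l ∈ Finset.range T, off ((X - C x) ^ (l + 1)) P ≤ offV x P := by
  unfold offV off
  rw [Finset.sum_comm (s := Finset.range T)]
  refine Finset.sum_le_sum fun i _ => ?_
  rw [Finset.sum_comm (s := Finset.range T)]
  refine Finset.sum_le_sum fun j hj => ?_
  exact sum_level_le (sub_ne_zero.2 fun h => (Finset.mem_erase.1 hj).1 (hP h).symm) x T

theorem mul_le_offV (x : k) (P : Fin s → k[X]) (a b : ℕ)
    (h : ∀ i j, i ≠ j → a ≤ b * rootMultiplicity x (P i - P j)) :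
    s * (s - 1) * a ≤ b * offV x P := by
  unfold offV
  rw [Finset.mul_sum]
  calc s * (s - 1) * a = ∑ _i : Fin s, (s - 1) * a := by simp [mul_assoc]
    _ ≤ _ := Finset.sum_le_sum fun i _ => ?_
  rw [Finset.mul_sum]
  calc (s - 1) * a = ∑ _j ∈ Finset.univ.erase i, a := by simp
    _ ≤ _ := Finset.sum_le_sum fun j hj => h i j (Finset.mem_erase.1 hj).1.symm

theorem sum_crossV [IsAlgClosed k] (P Q : Fin s → k[X]) (n : ℕ)
    (hn : ∀ i j, (P i - Q j).natDegree = n) (S : Finset k)
    (hS : ∀ i j, ∀ x ∈ (P i - Q j).roots, x ∈ S) : ∑ x ∈ S, crossV x P Q = s * s * n := by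
  unfold crossV
  rw [Finset.sum_comm]
  have : ∀ i : Fin s, ∑ x ∈ S, ∑ j, rootMultiplicity x (P i - Q j) = s * n := by
    intro i
    rw [Finset.sum_comm]
    simp only [fun j => sum_rm_eq (P i - Q j) S (hS i j), hn]
    simp
  simp [this, mul_assoc]

theorem sum_offV (P : Fin s → k[X]) (d : ℕ)
    (hd : ∀ i j, (P i - P j).natDegree ≤ d) (S : Finset k) :
    ∑ x ∈ S, offV x P ≤ s * (s - 1) * d := by
  unfold offV
  rw [Finset.sum_comm]
  calc _ ≤ ∑ _i : Fin s, (s - 1) * d := Finset.sum_le_sum fun i _ => ?_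
    _ = _ := by simp [mul_assoc]
  rw [Finset.sum_comm]
  calc _ ≤ ∑ _j ∈ Finset.univ.erase i, d :=
        Finset.sum_le_sum fun j _ => (sum_rm_le _ S).trans (hd i j)
    _ = _ := by simp

end Level

end Pool.Agent.P.MP_9d026e_co
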