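import Pool.Agent.P.MP_9d026e_co.EndCount

/-! Local lemmas for the endgame. -/

open Polynomial Finset

namespace Pool.Agent.P.MP_9d026e_co

variable {k : Type*} [Field k] {s : ℕ}

theorem rootset (p : ℕ) (hp : 2 ≤ p) (A B : k) (hAB : A ≠ 0 ∨ B ≠ 0) :
    ∃ S : Finset k, S.card ≤ p ∧ ∀ t, A * t + B * t ^ p = 0 → t ∈ S := by
  classical
  let F : k[X] := C A * X + C B * X ^ p
  have hF : F ≠ 0 := by
    intro h
    have h1 := congrArg (fun f => f.coeff 1) h
    have h2 := congrArg (fun f => f.coeff p) h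
    have h3 : p ≠ 1 := by omega
    simp [F, coeff_X, coeff_X_pow, h3.symm] at h1 h2
    rcases hAB with h | h
    · exact h h1
    · exact h h2
  have hd : F.natDegree ≤ p := by
    simp only [F]
    refine (natDegree_add_le _ _).trans (max_le ?_ ?_)
    · exact (natDegree_C_mul_le _ _).trans (by simp; omega)
    · exact (natDegree_C_mul_le _ _).trans (by simp)
  refine ⟨F.roots.toFinset, (Multiset.toFinset_card_le _).trans ((card_roots' F).trans hd), ?_⟩
  intro t ht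
  rw [Multiset.mem_toFinset, mem_roots hF]
  simpa [F, IsRoot] using ht

theorem pigeon (p : ℕ) (hp : 2 ≤ p) (hs : p < s) (a : Fin s → k) (A B : k)
    (hAB : A ≠ 0 ∨ B ≠ 0) (h : ∀ i, A * a i + B * a i ^ p = 0) :
    ∃ i j, i ≠ j ∧ a i = a j := by
  obtain ⟨S, hS, hS'⟩ := rootset p hp A B hAB
  obtain ⟨i, -, j, -, hij, he⟩ := Finset.exists_ne_map_eq_of_card_lt_of_maps_to
    (s := (Finset.univ : Finset (Fin s))) (t := S) (f := a) (by simpa using lt_of_le_of_lt hS hs)
    (fun i _ => hS' _ (h i))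
  exact ⟨i, j, hij, he⟩

theorem dvd_rhs (p : ℕ) (hp : 1 ≤ p) (d l0 l1 v : k[X]) (h : d ∣ v) : d ∣ l0 * v + l1 * v ^ p :=
  dvd_add (h.mul_left _) ((h.trans (dvd_pow_self v (by omega))).mul_left _)

/-- valuation of a solution at a point where `β` does not vanish -/
theorem cast_of_sol (p : ℕ) (hp : 1 ≤ p) (x : k) {β l0 l1 v : k[X]} (hβ : β.eval x ≠ 0)
    (hv : v ≠ 0) (h : β * derivative v = l0 * v + l1 * v ^ p) (m : ℕ)
    (hm : rootMultiplicity x v = m + 1) : ((m + 1 : ℕ) : k) = 0 := by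
  apply cast_eq_zero_of_dvd_deriv x hv m hm
  apply dvd_of_dvd_mul_unit x _ hβ
  rw [h]
  exact dvd_rhs p hp _ _ _ _ ((dvd_iff_le_rm hv x _).2 hm.ge)

theorem dvd_c (p : ℕ) (hp : 1 ≤ p) {d β l0 l1 w c : k[X]}
    (h : β * derivative w = l0 * w + l1 * w ^ p + c) (h1 : d ∣ w) (h2 : d ∣ β * derivative w) :
    d ∣ c := by
  rw [h] at h2
  exact (dvd_add_right (dvd_rhs p hp _ _ _ _ h1)).1 h2

theorem dvd_c1 (p : ℕ) (hp : 1 ≤ p) (x : k) {β l0 l1 w c : k[X]}
    (h : β * derivative w = l0 * w + l1 * w ^ p + c) (m : ℕ) (hm : (X - C x) ^ (m + 1) ∣ w) :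
    (X - C x) ^ m ∣ c :=
  dvd_c p hp h ((pow_dvd_pow _ (Nat.le_succ m)).trans hm) ((dvd_deriv x m hm).mul_left _)

theorem dvd_c2 (p : ℕ) (hp : 1 ≤ p) (x : k) {β l0 l1 w c : k[X]} (hβ : β.eval x = 0)
    (h : β * derivative w = l0 * w + l1 * w ^ p + c) (m : ℕ) (hm : (X - C x) ^ (m + 1) ∣ w) :
    (X - C x) ^ (m + 1) ∣ c := by
  refine dvd_c p hp h hm ?_
  rw [pow_succ']
  exact mul_dvd_mul (dvd_iff_isRoot.2 hβ) (dvd_deriv x m hm)

theorem dvd_c3 (p : ℕ) (hp : 1 ≤ p) (x : k) {β l0 l1 w c : k[X]}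
    (h : β * derivative w = l0 * w + l1 * w ^ p + c) (m : ℕ) (hk : (m : k) = 0)
    (hm : (X - C x) ^ m ∣ w) : (X - C x) ^ m ∣ c :=
  dvd_c p hp h hm ((dvd_deriv_of_cast x m hk hm).mul_left _)

theorem factor_rhs (p : ℕ) (hp : 1 ≤ p) (l0 l1 v : k[X]) :
    l0 * v + l1 * v ^ p = (l0 + l1 * v ^ (p - 1)) * v := by
  obtain ⟨q, rfl⟩ : ∃ q, p = q + 1 := ⟨p - 1, by omega⟩
  simp only [Nat.add_sub_cancel]
  ring

theorem mu_le_one (p : ℕ) (hp : 2 ≤ p) (x : k) {β l0 l1 v : k[X]} (hβ : β ≠ 0)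
    (hl0 : l0.eval x ≠ 0) (hv : v ≠ 0) (hvx : v.eval x = 0)
    (h : β * derivative v = l0 * v + l1 * v ^ p) : rootMultiplicity x β ≤ 1 := by
  by_contra hcon
  have h2 : (X - C x) ^ 2 ∣ β := (dvd_iff_le_rm hβ x 2).2 (by omega)
  have hm : 1 ≤ rootMultiplicity x v := (rootMultiplicity_pos hv).2 hvx
  obtain ⟨m, hm'⟩ : ∃ m, rootMultiplicity x v = m + 1 := ⟨rootMultiplicity x v - 1, by omega⟩
  have h3 : (X - C x) ^ (m + 1) ∣ v := (dvd_iff_le_rm hv x _).2 hm'.ge
  have h4 : (X - C x) ^ (2 + m) ∣ β * derivative v := by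
    rw [pow_add]; exact mul_dvd_mul h2 (dvd_deriv x m h3)
  rw [h, factor_rhs p (by omega)] at h4
  have h5 := dvd_of_dvd_mul_unit x _ (b := l0 + l1 * v ^ (p - 1)) (by
    have : p - 1 ≠ 0 := by omega
    simpa [hvx, this] using hl0) h4
  rw [dvd_iff_le_rm hv] at h5
  omega

theorem eval_sol (p : ℕ) (x : k) {β l0 l1 v : k[X]} (hβ : β.eval x = 0)
    (h : β * derivative v = l0 * v + l1 * v ^ p) :
    l0.eval x * v.eval x + l1.eval x * v.eval x ^ p = 0 := by
  have := congrArg (eval x) h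
  simp only [eval_mul, eval_add, eval_pow, hβ, zero_mul] at this
  exact this.symm

theorem dvd_cofactor (p : ℕ) (hp : 1 ≤ p) (x : k) {β l0 l1 v : k[X]} (hv : v ≠ 0)
    (hvx : v.eval x = 0) (h : β * derivative v = l0 * v + l1 * v ^ p) (μ : ℕ)
    (hμ : (X - C x) ^ (μ + 1) ∣ β) : (X - C x) ^ μ ∣ l0 + l1 * v ^ (p - 1) := by
  have hm : 1 ≤ rootMultiplicity x v := (rootMultiplicity_pos hv).2 hvx
  obtain ⟨m, hm'⟩ : ∃ m, rootMultiplicity x v = m + 1 := ⟨rootMultiplicity x v - 1, by omega⟩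
  have h3 : (X - C x) ^ (m + 1) ∣ v := (dvd_iff_le_rm hv x _).2 hm'.ge
  have h4 : (X - C x) ^ (μ + 1 + m) ∣ β * derivative v := by
    rw [pow_add]; exact mul_dvd_mul hμ (dvd_deriv x m h3)
  obtain ⟨u, hu, hnd⟩ := exists_eq_pow_rootMultiplicity_mul_and_not_dvd v hv x
  rw [hm'] at hu
  rw [h, factor_rhs p hp] at h4
  have h5 : (X - C x) ^ (m + 1) * (X - C x) ^ μ ∣
      (X - C x) ^ (m + 1) * (u * (l0 + l1 * v ^ (p - 1))) := by
    rw [← pow_add, show m + 1 + μ = μ + 1 + m by ring]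
    convert h4 using 1
    rw [← mul_assoc, ← hu, mul_comm]
  have h6 := (mul_dvd_mul_iff_left (pow_ne_zero _ (X_sub_C_ne_zero x))).1 h5
  exact dvd_of_dvd_mul_unit x μ (fun h0 => hnd (dvd_iff_isRoot.2 h0)) h6

/-- At a root of `β` and `l0` where `l1` is a unit the differences vanish to high order. -/
theorem mu_le_mul (p : ℕ) (hp : 2 ≤ p) (hs : p < s) (x : k) {β l0 l1 : k[X]} (hβ : β ≠ 0)
    (hβx : β.eval x = 0) (hl0 : l0.eval x = 0) (hl1 : l1.eval x ≠ 0) (P : Fin s → k[X])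
    (hP : Function.Injective P)
    (hL : ∀ i j, β * derivative (P i - P j) = l0 * (P i - P j) + l1 * (P i - P j) ^ p)
    (i0 j0 : Fin s) (hij : i0 ≠ j0) :
    rootMultiplicity x β ≤ p * rootMultiplicity x (P i0 - P j0) := by
  have hne : ∀ i j, i ≠ j → P i - P j ≠ 0 := fun i j h => sub_ne_zero.2 fun h' => h (hP h')
  have hz : ∀ i j, (P i - P j).eval x = 0 := by
    intro i j
    have := eval_sol p x hβx (hL i j)
    rw [hl0, zero_mul, zero_add, mul_eq_zero] at this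
    exact pow_eq_zero_iff (by omega) |>.1 (this.resolve_left hl1)
  have hμ1 : 1 ≤ rootMultiplicity x β := (rootMultiplicity_pos hβ).2 hβx
  obtain ⟨μ, hμ⟩ : ∃ μ, rootMultiplicity x β = μ + 1 := ⟨rootMultiplicity x β - 1, by omega⟩
  have hco : ∀ i j, i ≠ j → (X - C x) ^ μ ∣ l0 + l1 * (P i - P j) ^ (p - 1) := fun i j h =>
    dvd_cofactor p (by omega) x (hne i j h) (hz i j) (hL i j) μ ((dvd_iff_le_rm hβ x _).2 hμ.ge)
  set m := rootMultiplicity x (P i0 - P j0) with hm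
  have hm1 : 1 ≤ m := (rootMultiplicity_pos (hne _ _ hij)).2 (hz _ _)
  obtain ⟨q, rfl⟩ : ∃ q, p = q + 1 := ⟨p - 1, by omega⟩
  simp only [Nat.add_sub_cancel] at hco
  by_contra hcon
  have hlt : q * m + 1 ≤ μ := by rw [hμ] at hcon; nlinarith
  -- every difference has the same valuation
  have hco' : ∀ i j, i ≠ j → (X - C x) ^ (q * m + 1) ∣ l0 + l1 * (P i - P j) ^ q := fun i j h =>
    (pow_dvd_pow _ hlt).trans (hco i j h)
  obtain ⟨u0, hu0, hnd0⟩ := exists_eq_pow_rootMultiplicity_mul_and_not_dvd _ (hne _ _ hij) x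
  rw [← hm] at hu0
  have hl0d : (X - C x) ^ (q * m) ∣ l0 := by
    have h1 := (pow_dvd_pow _ (Nat.le_succ _)).trans (hco' _ _ hij)
    refine (dvd_add_left ?_).1 h1
    rw [hu0, mul_pow, ← pow_mul, mul_comm m q]
    exact (Dvd.intro _ rfl).mul_left _
  obtain ⟨g, hg⟩ := hl0d
  have key : ∀ i j, i ≠ j → ∀ u, P i - P j = (X - C x) ^ m * u →
      g.eval x + l1.eval x * u.eval x ^ q = 0 := by
    intro i j h u hu
    have h1 := hco' i j h
    rw [hu, hg, mul_pow, ← pow_mul, mul_comm m q, pow_succ] at h1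
    have h2 : (X - C x) ^ (q * m) * (X - C x) ∣ (X - C x) ^ (q * m) * (g + l1 * u ^ q) := by
      convert h1 using 1; ring
    have h3 := (mul_dvd_mul_iff_left (pow_ne_zero _ (X_sub_C_ne_zero x))).1 h2
    simpa [dvd_iff_isRoot, IsRoot] using h3
  have hu0x : u0.eval x ≠ 0 := fun h0 => hnd0 (dvd_iff_isRoot.2 h0)
  have hgx : g.eval x ≠ 0 := by
    intro h0
    have := key _ _ hij u0 hu0
    rw [h0, zero_add, mul_eq_zero] at this
    exact hu0x (pow_eq_zero_iff (by omega) |>.1 (this.resolve_left hl1))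
  have hdiv : ∀ i j, (X - C x) ^ m ∣ P i - P j := by
    intro i j
    by_cases h : i = j
    · simp [h]
    have h1 := (pow_dvd_pow _ (Nat.le_succ _)).trans (hco' _ _ h)
    have h2 : (X - C x) ^ (q * m) ∣ l1 * (P i - P j) ^ q :=
      (dvd_add_right (by rw [hg]; exact Dvd.intro _ rfl)).1 h1
    have h3 := dvd_of_dvd_mul_unit x _ hl1 h2
    rw [mul_comm q m, pow_mul] at h3
    exact (IsIntegrallyClosed.pow_dvd_pow_iff (by omega)).1 h3
  choose u hu using fun i => hdiv i i0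
  obtain ⟨i, j, hij', he⟩ := pigeon (q + 1) hp hs (fun i => (u i).eval x) (g.eval x) (l1.eval x)
    (Or.inr hl1) (by
      intro i
      by_cases h : i = i0
      · have h1 := hu i
        rw [h, sub_self] at h1
        have h2 : u i0 = 0 :=
          (mul_eq_zero.1 h1.symm).resolve_left (pow_ne_zero _ (X_sub_C_ne_zero x))
        simp [h, h2]
      · have := key i i0 h (u i) (hu i)
        linear_combination (u i).eval x * this)
  have h1 := key i j hij' (u i - u j) (by rw [mul_sub, ← hu, ← hu]; ring)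
  have hq : q ≠ 0 := by omega
  simp only [eval_sub] at h1
  rw [he, sub_self, zero_pow hq, mul_zero, add_zero] at h1
  exact hgx h1

theorem natDegree_mul_deriv_lt {β v : k[X]} (hβ : β ≠ 0) (hv : v ≠ 0) :
    (β * derivative v).degree < (β.natDegree + v.natDegree : ℕ) := by
  rw [degree_mul, degree_eq_natDegree hβ, Nat.cast_add]
  have := degree_derivative_lt hv
  rw [degree_eq_natDegree hv] at this
  exact WithBot.add_lt_add_left (by simp) this

/-- degree pigeonhole -/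
theorem deg_beta (p : ℕ) (hp : 2 ≤ p) (hs : p < s) {β l0 l1 : k[X]} (hβ : β ≠ 0) (hl1 : l1 ≠ 0)
    (P : Fin s → k[X]) (hP : Function.Injective P)
    (hL : ∀ i j, β * derivative (P i - P j) = l0 * (P i - P j) + l1 * (P i - P j) ^ p)
    (v : k[X]) (hv : v ≠ 0) (h : β * derivative v = l0 * v + l1 * v ^ p) :
    l1.natDegree + (p - 1) * v.natDegree + 1 ≤ β.natDegree := by
  obtain ⟨q, rfl⟩ : ∃ q, p = q + 1 := ⟨p - 1, by omega⟩
  simp only [Nat.add_sub_cancel]
  by_contra hcon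
  have hq : 1 ≤ q := by omega
  have hne : ∀ i j, i ≠ j → P i - P j ≠ 0 := fun i j h => sub_ne_zero.2 fun h' => h (hP h')
  have hdp : ∀ w : k[X], w ≠ 0 → (l1 * w ^ (q + 1)).natDegree =
      l1.natDegree + (q + 1) * w.natDegree := fun w hw => by
    rw [natDegree_mul hl1 (pow_ne_zero _ hw), natDegree_pow]
  -- the degree of `l0`
  have h1 : (β * derivative v).degree < (l1 * v ^ (q + 1)).degree := by
    refine lt_of_lt_of_le (natDegree_mul_deriv_lt hβ hv) ?_
    rw [degree_eq_natDegree (mul_ne_zero hl1 (pow_ne_zero _ hv)), hdp v hv]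
    exact_mod_cast (by nlinarith)
  have h2 : (l0 * v).degree = (l1 * v ^ (q + 1)).degree := by
    have : l0 * v = β * derivative v - l1 * v ^ (q + 1) := by rw [h]; ring
    rw [this, degree_sub_eq_right_of_degree_lt h1]
  have hl0v : l0 * v ≠ 0 := by
    intro h0
    rw [h0, degree_zero, eq_comm, degree_eq_bot] at h2
    exact mul_ne_zero hl1 (pow_ne_zero _ hv) h2
  have hl0 : l0 ≠ 0 := left_ne_zero_of_mul hl0v
  have h3 : l0.natDegree = l1.natDegree + q * v.natDegree := by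
    have := natDegree_eq_of_degree_eq h2
    rw [natDegree_mul hl0 hv, hdp v hv] at this
    nlinarith
  have hall : ∀ w : k[X], w ≠ 0 → β * derivative w = l0 * w + l1 * w ^ (q + 1) →
      w.natDegree = v.natDegree ∧ l0.leadingCoeff * w.leadingCoeff +
        l1.leadingCoeff * w.leadingCoeff ^ (q + 1) = 0 := by
    intro w hw hw'
    have h4 : (β * derivative w).degree < (l0 * w).degree := by
      refine lt_of_lt_of_le (natDegree_mul_deriv_lt hβ hw) ?_
      rw [degree_eq_natDegree (mul_ne_zero hl0 hw), natDegree_mul hl0 hw]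
      exact_mod_cast (by omega)
    have h5 : l1 * w ^ (q + 1) = β * derivative w - l0 * w := by rw [hw']; ring
    have h6 : (l1 * w ^ (q + 1)).degree = (l0 * w).degree := by
      rw [h5, degree_sub_eq_right_of_degree_lt h4]
    have h7 := natDegree_eq_of_degree_eq h6
    rw [natDegree_mul hl0 hw, hdp w hw, h3] at h7
    have h8 : q * w.natDegree = q * v.natDegree := by nlinarith
    refine ⟨Nat.eq_of_mul_eq_mul_left hq h8, ?_⟩
    have h9 := congrArg leadingCoeff h5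
    rw [leadingCoeff_sub_of_degree_lt' h4, leadingCoeff_mul, leadingCoeff_mul,
      leadingCoeff_pow] at h9
    rw [h9]; ring
  have i0 : Fin s := ⟨0, by omega⟩
  obtain ⟨i, j, hij, he⟩ := pigeon (q + 1) hp hs (fun i => (P i - P i0).coeff v.natDegree)
    l0.leadingCoeff l1.leadingCoeff (Or.inr (leadingCoeff_ne_zero.2 hl1)) (by
      intro i
      by_cases hi : i = i0
      · simp [hi]
      · obtain ⟨h4, h5⟩ := hall _ (hne i i0 hi) (hL i i0)
        rw [← h4]
        exact h5)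
  obtain ⟨h4, -⟩ := hall _ (hne i j hij) (hL i j)
  have h5 : (P i - P j).coeff v.natDegree = 0 := by
    have : P i - P j = (P i - P i0) - (P j - P i0) := by ring
    rw [this, coeff_sub, he, sub_self]
  rw [← h4] at h5
  exact hne i j hij (leadingCoeff_eq_zero.1 h5)

end Pool.Agent.P.MP_9d026e_co
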