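import Pool.Agent.P.MP_9d026e_co.Defs

/-! Orders of vanishing, and the subgroup form of the Fourier estimate. -/

open Polynomial Finset

namespace Pool.Agent.P.MP_9d026e_co

section ord
variable {k : Type*} [Field k]

lemma sum_ord_le {f : k[X]} (T : Finset k) :
    ∑ a ∈ T, rootMultiplicity a f ≤ f.natDegree := by
  classical
  refine le_trans ?_ (card_roots' f)
  simp_rw [← count_roots]
  calc ∑ a ∈ T, f.roots.count a ≤ ∑ a ∈ T ∪ f.roots.toFinset, f.roots.count a :=
        Finset.sum_le_sum_of_subset subset_union_left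
    _ = Multiset.card f.roots :=
        Multiset.sum_count_eq_card fun a ha => mem_union_right _ (Multiset.mem_toFinset.2 ha)

lemma sum_ord_eq [IsAlgClosed k] {f : k[X]} (T : Finset k) (hT : ∀ a ∈ f.roots, a ∈ T) :
    ∑ a ∈ T, rootMultiplicity a f = f.natDegree := by
  classical
  rw [(IsAlgClosed.splits f).natDegree_eq_card_roots]
  simp_rw [← count_roots]
  exact Multiset.sum_count_eq_card hT

lemma even_ord {f : k[X]} (hf : IsSquare f) (h0 : f ≠ 0) (a : k) :
    Even (rootMultiplicity a f) := by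
  obtain ⟨y, rfl⟩ := hf
  rw [rootMultiplicity_mul h0]
  exact ⟨_, rfl⟩

open Classical in
lemma ord_eq_card {f : k[X]} (h0 : f ≠ 0) (a : k) (E : ℕ) (hE : rootMultiplicity a f ≤ E) :
    rootMultiplicity a f = ∑ l ∈ Icc 1 E, if (X - C a) ^ l ∣ f then 1 else 0 := by
  rw [← Finset.card_filter]
  have : (Icc 1 E).filter (fun l => (X - C a) ^ l ∣ f) = Icc 1 (rootMultiplicity a f) := by
    ext l
    simp only [mem_filter, mem_Icc, ← le_rootMultiplicity_iff h0]
    omega
  rw [this]; simp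

lemma pow_card_dvd {R : Type*} [CommRing R] (π v : R) (E : ℕ) [DecidablePred fun l => π ^ l ∣ v] :
    π ^ (∑ l ∈ Icc 1 E, if π ^ l ∣ v then 1 else 0) ∣ v := by
  rw [← Finset.card_filter]
  set T := (Icc 1 E).filter (fun l => π ^ l ∣ v) with hT
  rcases T.eq_empty_or_nonempty with h | h
  · simp [h]
  · have h1 : T ⊆ Icc 1 (T.max' h) := fun l hl =>
      mem_Icc.2 ⟨(mem_Icc.1 (mem_filter.1 hl).1).1, T.le_max' l hl⟩
    have h2 : T.card ≤ T.max' h := by simpa using card_le_card h1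
    exact (pow_dvd_pow π h2).trans (mem_filter.1 (T.max'_mem h)).2

lemma card_le_self (P : ℕ → Prop) [DecidablePred P] (E : ℕ) :
    (∑ l ∈ Icc 1 E, if P l then 1 else 0) ≤ E := by
  rw [← Finset.card_filter]
  simpa using card_le_card (filter_subset P (Icc 1 E))

lemma pow_dvd_derivative {f π : k[X]} {m : ℕ} (hm : (m : k) = 0) (h : π ^ m ∣ f) :
    π ^ m ∣ derivative f := by
  obtain ⟨g, rfl⟩ := h
  rw [derivative_mul, derivative_pow, hm]
  simp

end ord

/-- the statement of the Fourier estimate for given parameters -/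
def FourierOK (p r e b : ℕ) (η : ℝ) : Prop :=
  ∀ (Γ : Type) [AddCommGroup Γ] [Fintype Γ] [DecidableEq Γ],
      (∀ γ : Γ, p • γ = 0) → ∀ (δ : Fin r × Fin e × Fin b → Γ) (t : Γ) (c : Fin e → ℕ),
      |((Finset.univ.filter fun S : Finset (Fin r × Fin e × Fin b) =>
            t + ∑ j ∈ S, δ j = 0).card : ℝ) / 2 ^ (r * e * b) - 1 / Fintype.card Γ| ≤
        (((Om r e b).filter fun w => ∑ k, c k • uu δ w k = 0).card : ℝ) / (Om r e b).card
          - 1 / Fintype.card Γ + η

lemma map_uu {Γ Γ' : Type*} [AddCommGroup Γ] [AddCommGroup Γ'] (φ : Γ →+ Γ') {r e b : ℕ}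
    (δ : Fin r × Fin e × Fin b → Γ) (w) (k : Fin e) :
    φ (uu δ w k) = uu (fun j => φ (δ j)) w k := by
  simp [uu, map_sub, map_sum]

open Classical in
lemma fourier_subgroup {p r e b : ℕ} [Fact p.Prime] {η : ℝ} (hF : FourierOK p r e b η)
    {R : Type} [AddCommGroup R] [Module (ZMod p) R] (H : AddSubgroup R)
    (d : Fin r × Fin e × Fin b → R) (a : R) (c : Fin e → ℕ) :
    ((Finset.univ.filter fun S : Finset (Fin r × Fin e × Fin b) =>
            a + ∑ j ∈ S, d j ∈ H).card : ℝ) / 2 ^ (r * e * b) ≤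
        (((Om r e b).filter fun w => ∑ k, c k • uu d w k ∈ H).card : ℝ) / (Om r e b).card + η := by
  let v : Option (Fin r × Fin e × Fin b) → R := fun o => o.elim a d
  let ψ : (Option (Fin r × Fin e × Fin b) → ZMod p) →+ R ⧸ H :=
    (QuotientAddGroup.mk' H).comp (Fintype.linearCombination (ZMod p) v).toAddMonoidHom
  have hfin : Finite ψ.range := Finite.of_surjective _ ψ.rangeRestrict_surjective
  let := Fintype.ofFinite ψ.range
  have hv : ∀ o, (QuotientAddGroup.mk' H) (v o) ∈ ψ.range := fun o =>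
    ⟨Pi.single o 1, by simp [ψ, Fintype.linearCombination_apply_single]⟩
  have hp : ∀ γ : ψ.range, p • γ = 0 := by
    rintro ⟨_, x, rfl⟩
    apply Subtype.ext
    have : p • x = 0 := by ext o; simp
    simp [← map_nsmul, this]
  have h := hF ψ.range hp (fun j => ⟨_, hv (some j)⟩) ⟨_, hv none⟩ c
  have e1 : ∀ S : Finset (Fin r × Fin e × Fin b),
      ((⟨_, hv none⟩ : ψ.range) + ∑ j ∈ S, (⟨_, hv (some j)⟩ : ψ.range) = 0) ↔
        a + ∑ j ∈ S, d j ∈ H := by
    intro S
    rw [← QuotientAddGroup.eq_zero_iff, Subtype.ext_iff]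
    simp [v]
  have e2 : ∀ w, (∑ k, c k • uu (fun j => (⟨_, hv (some j)⟩ : ψ.range)) w k = 0) ↔
      ∑ k, c k • uu d w k ∈ H := by
    intro w
    rw [← QuotientAddGroup.eq_zero_iff, Subtype.ext_iff]
    have h1 : ∀ k, ((uu (fun j => (⟨_, hv (some j)⟩ : ψ.range)) w k : ψ.range) : R ⧸ H) =
        (QuotientAddGroup.mk' H) (uu d w k) := by
      intro k
      rw [map_uu]
      exact map_uu ψ.range.subtype (fun j => (⟨_, hv (some j)⟩ : ψ.range)) w k
    rw [AddSubmonoidClass.coe_finsetSum]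
    simp only [AddSubmonoidClass.coe_nsmul, h1]
    simp
  simp only [e1, e2] at h
  have := (abs_le.1 h).2
  linarith

lemma linearIndependent_uu {p r e b : ℕ} [Fact p.Prime] {R : Type*} [AddCommGroup R]
    [Module (ZMod p) R] {d : Fin r × Fin e × Fin b → R} (hd : LinearIndependent (ZMod p) d)
    {w} (hw : w ∈ Om r e b) : LinearIndependent (ZMod p) (uu d w) := by
  classical
  rw [Fintype.linearIndependent_iff] at hd ⊢
  intro c hc k
  let g : Fin r × Fin e × Fin b → ZMod p := fun j =>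
    if j.1 = w.1 then c j.2.1 * ((if j.2.2 ∈ w.2.1 j.2.1 then 1 else 0) -
      (if j.2.2 ∈ w.2.2 j.2.1 then 1 else 0)) else 0
  have hg : ∑ j, g j • d j = 0 := by
    rw [← hc, Fintype.sum_prod_type, Finset.sum_eq_single w.1]
    · rw [Fintype.sum_prod_type]
      refine Finset.sum_congr rfl fun k _ => ?_
      simp only [g, if_true, uu, mul_smul, ← Finset.smul_sum, sub_smul, ite_smul, one_smul,
        zero_smul, Finset.sum_sub_distrib, ← Finset.sum_filter]
      simp
    · intro i _ hi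
      simp [g, hi]
    · simp
  have hne : w.2.1 k ≠ w.2.2 k := (mem_filter.1 hw).2 k
  obtain ⟨l, hl⟩ : ∃ l, ¬ (l ∈ w.2.1 k ↔ l ∈ w.2.2 k) := by
    by_contra h
    push Not at h
    exact hne (Finset.ext h)
  have h0 := hd g hg (w.1, k, l)
  by_cases h1 : l ∈ w.2.1 k <;> by_cases h2 : l ∈ w.2.2 k <;> simp_all [g]

end Pool.Agent.P.MP_9d026e_co
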