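import Pool.Agent.P.MP_9d026e_co.ReduceA

/-! Wronskian classes, Frobenius descent and lines of squares. -/

open Polynomial Pointwise

namespace Pool.Agent.P.MP_9d026e_co

section Wr

variable {F : Type*} [Field F]

lemma wr_trans {u v w : F[X]} (h1 : wronskian u v = 0) (h2 : wronskian v w = 0) (hv : v ≠ 0) :
    wronskian u w = 0 := by
  unfold wronskian at *
  refine (mul_eq_zero.1 ?_).resolve_left hv
  linear_combination w * h1 + u * h2

lemma wr_symm {u v : F[X]} (h : wronskian u v = 0) : wronskian v u = 0 := by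
  rw [← wronskian_neg_eq, h, neg_zero]

lemma wr_sub {u v g : F[X]} (h1 : wronskian u g = 0) (h2 : wronskian v g = 0) :
    wronskian (u - v) g = 0 := by
  rw [sub_eq_add_neg, wronskian_add_left, wronskian_neg_left, h1, h2, neg_zero, add_zero]

lemma sq_div {π z : F[X]} (hπ : Prime π) (h : π ∣ z) (hz : IsSquare z) :
    ∃ w, z = π ^ 2 * w ∧ IsSquare w := by
  obtain ⟨y, rfl⟩ := hz
  obtain ⟨t, rfl⟩ : π ∣ y := (hπ.dvd_or_dvd h).elim id id
  exact ⟨t * t, by ring, t, rfl⟩

lemma natDegree_sq_mul {π w : F[X]} (hπ : Prime π) (hw : w ≠ 0) :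
    w.natDegree < (π ^ 2 * w).natDegree := by
  rw [natDegree_mul (pow_ne_zero _ hπ.ne_zero) hw, natDegree_pow]
  have := hπ.irreducible.natDegree_pos
  omega

lemma natDegree_sq_mul_le {π w : F[X]} (hπ : Prime π) :
    w.natDegree ≤ (π ^ 2 * w).natDegree := by
  by_cases hw : w = 0
  · simp [hw]
  · exact (natDegree_sq_mul hπ hw).le

lemma exists_prime_dvd {g : F[X]} (h0 : g ≠ 0) (hu : ¬ IsUnit g) : ∃ π, Prime π ∧ π ∣ g := by
  obtain ⟨π, h1, h2⟩ := WfDvdMonoid.exists_irreducible_factor hu h0
  exact ⟨π, h1.prime, h2⟩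

end Wr

section Frob

variable {p : ℕ} [Fact p.Prime]

lemma two_ne_zero_poly (hp : 5 ≤ p) : (2 : (ZMod p)[X]) ≠ 0 := by
  intro h
  have h2 : ((2 : ℕ) : (ZMod p)[X]) = 0 := by exact_mod_cast h
  have := Nat.le_of_dvd two_pos ((CharP.cast_eq_zero_iff _ p 2).1 h2)
  omega

lemma sq_contract (hp : 5 ≤ p) {z : (ZMod p)[X]} (h : derivative z = 0) (hz : IsSquare z) :
    ∃ w, z = expand (ZMod p) p w ∧ IsSquare w := by
  obtain ⟨y, rfl⟩ := hz
  have hy : derivative y = 0 := by
    have h2 : 2 * (y * derivative y) = 0 := by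
      rw [derivative_mul] at h
      linear_combination h
    rcases mul_eq_zero.1 ((mul_eq_zero.1 h2).resolve_left (two_ne_zero_poly hp)) with h3 | h3
    · rw [h3, derivative_zero]
    · exact h3
  refine ⟨contract p y * contract p y, ?_, _, rfl⟩
  rw [map_mul, expand_contract p hy (by omega)]

lemma natDegree_expand_le (hp : 5 ≤ p) (w : (ZMod p)[X]) :
    w.natDegree ≤ (expand (ZMod p) p w).natDegree ∧
      (0 < (expand (ZMod p) p w).natDegree → w.natDegree < (expand (ZMod p) p w).natDegree) := by
  rw [natDegree_expand]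
  have : w.natDegree * 5 ≤ w.natDegree * p := Nat.mul_le_mul_left _ hp
  refine ⟨by omega, fun h => ?_⟩
  have : 0 < w.natDegree := Nat.pos_of_mul_pos_right h
  omega

lemma descent_class (hp : 5 ≤ p) (A : Finset (ZMod p)[X]) (hsq : ∀ z ∈ A, IsSquare z)
    (hW : ∀ z ∈ A, ∀ z' ∈ A, wronskian z z' = 0) (z0 : (ZMod p)[X]) (hz0 : z0 ∈ A)
    (hz0' : z0 ≠ 0) :
    ∃ φ : (ZMod p)[X] →+ (ZMod p)[X], Function.Injective φ ∧ ∀ z ∈ A, ∃ w, φ w = z ∧
      IsSquare w ∧ w.natDegree ≤ z.natDegree ∧ (0 < z.natDegree → w.natDegree < z.natDegree) := by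
  classical
  by_cases hu : IsUnit (A.gcd id)
  · refine ⟨(expand (ZMod p) p : (ZMod p)[X] →+* (ZMod p)[X]).toAddMonoidHom,
      expand_injective (by omega), fun z hz => ?_⟩
    have h1 : z ∣ A.gcd fun x => derivative z * id x := by
      refine Finset.dvd_gcd fun x hx => ⟨derivative x, ?_⟩
      have := hW z hz x hx
      unfold wronskian at this
      simp only [id]
      linear_combination -this
    have h2 : z ∣ derivative z :=
      (hu.dvd_mul_right).1 (h1.trans (Finset.gcd_mul_left' A id (derivative z)).dvd)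
    have h3 : derivative z = 0 := by
      by_contra hne
      have hz' : z.natDegree ≠ 0 := by
        intro h0
        exact hne (derivative_of_natDegree_zero h0)
      exact absurd (natDegree_le_of_dvd h2 hne) (not_le.2 (natDegree_derivative_lt hz'))
    obtain ⟨w, rfl, hw⟩ := sq_contract hp h3 (hsq z hz)
    exact ⟨w, rfl, hw, natDegree_expand_le hp w⟩
  · have h0 : A.gcd id ≠ 0 := fun h => hz0' (Finset.gcd_eq_zero_iff.1 h z0 hz0)
    obtain ⟨π, hπ, hd⟩ := exists_prime_dvd h0 hu
    refine ⟨AddMonoidHom.mulLeft (π ^ 2), mul_right_injective₀ (pow_ne_zero _ hπ.ne_zero),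
      fun z hz => ?_⟩
    obtain ⟨w, rfl, hw⟩ := sq_div hπ (hd.trans (Finset.gcd_dvd hz)) (hsq z hz)
    refine ⟨w, rfl, hw, natDegree_sq_mul_le hπ, fun h => natDegree_sq_mul hπ ?_⟩
    rintro rfl
    simp at h

lemma wr_line (hp : 5 ≤ p) {a d : (ZMod p)[X]} (hc : IsCoprime a d)
    (hsq : ∀ i : ZMod p, IsSquare (a + C i * d)) : wronskian a d = 0 := by
  classical
  by_contra hW
  choose y hy using hsq
  set n := max a.natDegree d.natDegree with hn
  have hlt : (wronskian a d).natDegree < 2 * n := by
    have := natDegree_wronskian_lt_add hW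
    omega
  have hcomb : ∀ i j : ZMod p, i ≠ j → ∃ s t s' t' : ZMod p,
      a = C s * (a + C i * d) + C t * (a + C j * d) ∧
      d = C s' * (a + C i * d) + C t' * (a + C j * d) := by
    intro i j hij
    have h : C (j - i)⁻¹ * (C j - C i) = (1 : (ZMod p)[X]) := by
      rw [← C_sub, ← C_mul, inv_mul_cancel₀ (sub_ne_zero.2 hij.symm), C_1]
    refine ⟨j * (j - i)⁻¹, -(i * (j - i)⁻¹), -(j - i)⁻¹, (j - i)⁻¹, ?_, ?_⟩
    · rw [C_neg, C_mul, C_mul]; linear_combination (-a) * h
    · rw [C_neg]; linear_combination (-d) * h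
  have hcop : ∀ i j : ZMod p, i ≠ j → IsCoprime (y i) (y j) := by
    intro i j hij
    obtain ⟨s, t, s', t', h1, h2⟩ := hcomb i j hij
    obtain ⟨u, v, huv⟩ := hc
    rw [hy i, hy j] at h1 h2
    exact ⟨(u * C s + v * C s') * y i, (u * C t + v * C t') * y j,
      by linear_combination huv - u * h1 - v * h2⟩
  have hdvd : ∀ i : ZMod p, y i ∣ wronskian a d := by
    intro i
    refine ⟨y i * derivative d - 2 * derivative (y i) * d, ?_⟩
    have h1 := congrArg derivative (hy i)
    simp only [derivative_add, derivative_mul, derivative_C, zero_mul, zero_add] at h1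
    unfold wronskian
    linear_combination derivative d * hy i - d * h1
  set S : Finset (ZMod p) := Finset.univ.filter fun i => n ≤ (a + C i * d).natDegree with hS
  have hbad : (Finset.univ.filter fun i : ZMod p => ¬ n ≤ (a + C i * d).natDegree).card ≤ 1 := by
    rw [Finset.card_le_one]
    intro i hi j hj
    by_contra hij
    obtain ⟨s, t, s', t', h1, h2⟩ := hcomb i j hij
    have hi' := not_le.1 (Finset.mem_filter.1 hi).2
    have hj' := not_le.1 (Finset.mem_filter.1 hj).2
    have key : ∀ s t : ZMod p, (C s * (a + C i * d) + C t * (a + C j * d)).natDegree < n :=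
      fun s t => (natDegree_add_le _ _).trans_lt
        (max_lt ((natDegree_C_mul_le _ _).trans_lt hi') ((natDegree_C_mul_le _ _).trans_lt hj'))
    have k1 := key s t
    have k2 := key s' t'
    rw [← h1] at k1
    rw [← h2] at k2
    omega
  have hcard : 4 ≤ S.card := by
    have := Finset.card_filter_add_card_filter_not (s := Finset.univ)
      (fun i : ZMod p => n ≤ (a + C i * d).natDegree)
    rw [Finset.card_univ, ZMod.card, ← hS] at this
    omega
  have hdeg : ∀ i ∈ S, n ≤ 2 * (y i).natDegree := by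
    intro i hi
    have := (Finset.mem_filter.1 hi).2
    rw [hy i] at this
    have h2 := natDegree_mul_le (p := y i) (q := y i)
    omega
  have hne : ∀ i ∈ S, y i ≠ 0 := fun i _ h => hW (zero_dvd_iff.1 (h ▸ hdvd i))
  have hprod : ∏ i ∈ S, y i ∣ wronskian a d :=
    Finset.prod_dvd_of_coprime (fun i _ j _ hij => hcop i j hij) fun i _ => hdvd i
  have h1 := natDegree_le_of_dvd hprod hW
  rw [natDegree_prod _ _ hne] at h1
  have h2 : S.card • n ≤ ∑ i ∈ S, 2 * (y i).natDegree := Finset.card_nsmul_le_sum _ _ _ hdeg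
  rw [← Finset.mul_sum, smul_eq_mul] at h2
  have h3 : 4 * n ≤ S.card * n := Nat.mul_le_mul_right _ hcard
  omega

lemma no_line (hp : 5 ≤ p) (n : ℕ) : ∀ a d : (ZMod p)[X], a.natDegree + d.natDegree = n → d ≠ 0 →
    (∀ i : ZMod p, IsSquare (a + C i * d)) → False := by
  induction n using Nat.strong_induction_on with
  | _ n ih =>
    intro a d hn hd hsq
    by_cases hc : IsCoprime a d
    · obtain ⟨ha', hd'⟩ := hc.wronskian_eq_zero_iff.1 (wr_line hp hc hsq)
      rcases Nat.eq_zero_or_pos n with h0 | hpos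
      · obtain ⟨r, hr⟩ := FiniteField.exists_nonsquare (F := ZMod p) (by
          rw [ZMod.ringChar_zmod_n]; omega)
        obtain ⟨α, rfl⟩ := natDegree_eq_zero.1 (show a.natDegree = 0 by omega)
        obtain ⟨δ, rfl⟩ := natDegree_eq_zero.1 (show d.natDegree = 0 by omega)
        have hδ : δ ≠ 0 := fun h => hd (by rw [h, C_0])
        have := (hsq ((r - α) / δ)).map (evalRingHom (0 : ZMod p))
        simp only [coe_evalRingHom, eval_add, eval_C, eval_mul] at this
        rw [div_mul_cancel₀ _ hδ, add_sub_cancel] at this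
        exact hr this
      · have hp0 : p ≠ 0 := by omega
        have ea := expand_contract p ha' hp0
        have ed := expand_contract p hd' hp0
        have k1 := natDegree_expand_le hp (contract p a)
        have k2 := natDegree_expand_le hp (contract p d)
        rw [ea] at k1
        rw [ed] at k2
        refine ih _ (by omega) (contract p a) (contract p d) rfl ?_ fun i => ?_
        · intro h
          rw [h, map_zero] at ed
          exact hd ed.symm
        · obtain ⟨w, hw, hw2⟩ := sq_contract hp (z := a + C i * d) (by simp [ha', hd']) (hsq i)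
          have : expand (ZMod p) p (contract p a + C i * contract p d) = expand (ZMod p) p w := by
            rw [map_add, map_mul, expand_C, ea, ed, hw]
          rwa [expand_injective (by omega) this]
    · classical
      have hu : ¬ IsUnit (EuclideanDomain.gcd a d) := fun h =>
        hc (EuclideanDomain.gcd_isUnit_iff.1 h)
      have h0 : EuclideanDomain.gcd a d ≠ 0 := fun h => hd (EuclideanDomain.gcd_eq_zero_iff.1 h).2
      obtain ⟨π, hπ, hdv⟩ := exists_prime_dvd h0 hu
      have h1 : π ∣ a := hdv.trans (EuclideanDomain.gcd_dvd_left _ _)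
      have h2 : π ∣ d := hdv.trans (EuclideanDomain.gcd_dvd_right _ _)
      have key : ∀ i : ZMod p, ∃ w, a + C i * d = π ^ 2 * w ∧ IsSquare w := fun i =>
        sq_div hπ (h1.add (h2.mul_left _)) (hsq i)
      obtain ⟨a1, ha1, -⟩ := key 0
      obtain ⟨b1, hb1, -⟩ := key 1
      rw [C_0, zero_mul, add_zero] at ha1
      rw [C_1, one_mul] at hb1
      have hd1 : d = π ^ 2 * (b1 - a1) := by linear_combination hb1 - ha1
      have hne : b1 - a1 ≠ 0 := fun h => hd (by rw [hd1, h, mul_zero])
      have k1 := natDegree_sq_mul_le (w := a1) hπ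
      have k2 := natDegree_sq_mul hπ hne
      rw [← ha1] at k1
      rw [← hd1] at k2
      refine ih _ (by omega) a1 (b1 - a1) rfl hne fun i => ?_
      obtain ⟨w, hw, hw2⟩ := key i
      have : π ^ 2 * (a1 + C i * (b1 - a1)) = π ^ 2 * w := by
        rw [← hw, mul_add, ← ha1, mul_left_comm, ← hd1]
      rwa [mul_left_cancel₀ (pow_ne_zero _ hπ.ne_zero) this]

lemma small_growth (hp : 5 ≤ p) (A : Finset (ZMod p)[X]) (hsq : ∀ z ∈ A, IsSquare z)
    (h2 : 2 ≤ A.card) : A.card + 1 ≤ (A + A).card := by
  by_contra hcon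
  obtain ⟨a, ha, b, hb, hab⟩ := Finset.one_lt_card.1 (show 1 < A.card by omega)
  have himg : A.image (a + ·) = A + A := by
    refine Finset.eq_of_subset_of_card_le ?_ ?_
    · intro x hx
      obtain ⟨c, hc, rfl⟩ := Finset.mem_image.1 hx
      exact Finset.add_mem_add ha hc
    · rw [Finset.card_image_of_injective _ (add_right_injective a)]
      omega
  have hstep : ∀ n : ℕ, a + n * (b - a) ∈ A := by
    intro n
    induction n with
    | zero => simpa using ha
    | succ n ih =>
      have := Finset.add_mem_add ih hb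
      rw [← himg] at this
      obtain ⟨y, hy, hy2⟩ := Finset.mem_image.1 this
      convert hy using 1
      push_cast
      linear_combination -hy2
  refine no_line hp _ a (b - a) rfl (sub_ne_zero.2 hab.symm) fun i => hsq _ ?_
  have := hstep i.val
  rwa [← C_eq_natCast, ZMod.natCast_zmod_val] at this

end Frob

end Pool.Agent.P.MP_9d026e_co
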