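import Pool.Agent.P.MP_9d026e_co.Defs
import Pool.Agent.P.MP_9d026e_co.ReduceB

/-! From the absence of Hilbert cubes of squares to growth of sumsets. -/

open Polynomial Pointwise

namespace Pool.Agent.P.MP_9d026e_co

section Steps

variable {p : ℕ} [Fact p.Prime]

/-- all elements are nonzero squares -/
def NZ (A : Finset (ZMod p)[X]) : Prop := ∀ z ∈ A, IsSquare z ∧ z ≠ 0

/-- nonzero squares with small sumset and small Wronskian classes -/
def Good (σ : ℕ) (D : Finset (ZMod p)[X]) : Prop :=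
  NZ D ∧ (D + D).card ≤ σ ∧ ∀ g, g ≠ 0 → (D.filter fun z => wronskian z g = 0).card ^ 2 ≤ σ

lemma step_descent (hp : 5 ≤ p) (A : Finset (ZMod p)[X]) (hA : NZ A) (hM : p < A.card)
    (hW : ∀ z ∈ A, ∀ z' ∈ A, wronskian z z' = 0) :
    ∃ C : Finset (ZMod p)[X], NZ C ∧ ∑ z ∈ C, (z.natDegree + 1) < ∑ z ∈ A, (z.natDegree + 1) ∧
      A.card ≤ C.card ∧ (C + C).card ≤ (A + A).card := by
  obtain ⟨z0, hz0, hz0'⟩ : ∃ z ∈ A, 0 < z.natDegree := by
    by_contra hcon
    push Not at hcon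
    have : A ⊆ Finset.univ.image (C : ZMod p → (ZMod p)[X]) := by
      intro z hz
      obtain ⟨c, hc⟩ := natDegree_eq_zero.1 (Nat.le_zero.1 (hcon z hz))
      exact Finset.mem_image.2 ⟨c, Finset.mem_univ _, hc⟩
    have h2 := (Finset.card_le_card this).trans Finset.card_image_le
    rw [Finset.card_univ, ZMod.card] at h2
    omega
  obtain ⟨φ, hφ, h⟩ := descent_class hp A (fun z hz => (hA z hz).1) hW z0 hz0 (hA z0 hz0).2
  choose! ψ h1 h2 h3 h4 using h
  have hinj : Set.InjOn ψ A := fun x hx y hy hxy => by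
    rw [← h1 x hx, ← h1 y hy, hxy]
  refine ⟨A.image ψ, ?_, ?_, (Finset.card_image_of_injOn hinj).ge, ?_⟩
  · intro w hw
    obtain ⟨z, hz, rfl⟩ := Finset.mem_image.1 hw
    refine ⟨h2 z hz, fun h0 => (hA z hz).2 ?_⟩
    rw [← h1 z hz, h0, map_zero]
  · rw [Finset.sum_image hinj]
    exact Finset.sum_lt_sum (fun z hz => Nat.succ_le_succ (h3 z hz))
      ⟨z0, hz0, Nat.succ_lt_succ (h4 z0 hz0 hz0')⟩
  · refine card_image_add_le φ hφ _ _ fun w hw => ?_
    obtain ⟨z, hz, rfl⟩ := Finset.mem_image.1 hw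
    rw [h1 z hz]
    exact hz

lemma step_classes (hp : 5 ≤ p) (A : Finset (ZMod p)[X]) (hA : NZ A) (hM : p < A.card) :
    Good (A + A).card A ∨
      (∃ C : Finset (ZMod p)[X], NZ C ∧
        ∑ z ∈ C, (z.natDegree + 1) < ∑ z ∈ A, (z.natDegree + 1) ∧
        A.card ≤ C.card ∧ (C + C).card ≤ (A + A).card) ∨
      (∃ C E : Finset (ZMod p)[X], NZ C ∧
        ∑ z ∈ C, (z.natDegree + 1) < ∑ z ∈ A, (z.natDegree + 1) ∧
        A.card ≤ C.card + E.card ∧ Good (A + A).card E ∧
        (C + C).card + C.card ≤ (A + A).card) := by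
  by_cases hg : ∀ g, g ≠ 0 → (A.filter fun z => wronskian z g = 0).card ^ 2 ≤ (A + A).card
  · exact Or.inl ⟨hA, le_rfl, hg⟩
  push Not at hg
  obtain ⟨g, hg0, hg⟩ := hg
  set C := A.filter fun z => wronskian z g = 0 with hC
  set E := A.filter fun z => ¬ wronskian z g = 0 with hE
  have hCA : C ⊆ A := Finset.filter_subset _ _
  have hEA : E ⊆ A := Finset.filter_subset _ _
  rcases E.eq_empty_or_nonempty with h0 | ⟨e, he⟩
  · have hall : ∀ z ∈ A, wronskian z g = 0 := by
      intro z hz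
      by_contra hne
      have : z ∈ E := Finset.mem_filter.2 ⟨hz, hne⟩
      rw [h0] at this
      exact Finset.notMem_empty _ this
    exact Or.inr (Or.inl (step_descent hp A hA hM fun z hz z' hz' =>
      wr_trans (hall z hz) (wr_symm (hall z' hz')) hg0))
  have he' := Finset.mem_filter.1 he
  refine Or.inr (Or.inr ⟨C, E, fun z hz => hA z (hCA hz), ?_, ?_,
    ⟨fun z hz => hA z (hEA hz), Finset.card_le_card (Finset.add_subset_add hEA hEA), ?_⟩, ?_⟩)
  · exact Finset.sum_lt_sum_of_subset hCA he'.1 (fun h => he'.2 (Finset.mem_filter.1 h).2)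
      (Nat.succ_pos _) fun _ _ _ => Nat.zero_le _
  · exact (Finset.card_filter_add_card_filter_not (s := A) fun z => wronskian z g = 0).ge
  · intro g2 hg2
    set C2 := E.filter fun z => wronskian z g2 = 0 with hC2
    have hprod : C.card * C2.card ≤ (A + A).card := by
      rw [← Finset.card_product]
      refine Finset.card_le_card_of_injOn (fun w => w.1 + w.2) ?_ ?_
      · intro w hw
        have hw' := Finset.mem_product.1 (Finset.mem_coe.1 hw)
        exact Finset.mem_coe.2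
          (Finset.add_mem_add (hCA hw'.1) (hEA (Finset.mem_filter.1 hw'.2).1))
      · intro w hw w' hw' h
        have h' : w.1 + w.2 = w'.1 + w'.2 := h
        obtain ⟨a1, a2⟩ := Finset.mem_product.1 (Finset.mem_coe.1 hw)
        obtain ⟨b1, b2⟩ := Finset.mem_product.1 (Finset.mem_coe.1 hw')
        have hv : w.1 - w'.1 = 0 := by
          by_contra hv
          have k1 := wr_sub (Finset.mem_filter.1 a1).2 (Finset.mem_filter.1 b1).2
          have k2 := wr_sub (Finset.mem_filter.1 b2).2 (Finset.mem_filter.1 a2).2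
          rw [show w'.2 - w.2 = w.1 - w'.1 by linear_combination -h'] at k2
          have k3 := wr_trans (wr_symm k2) k1 hv
          exact (Finset.mem_filter.1 (Finset.mem_filter.1 a2).1).2
            (wr_trans (Finset.mem_filter.1 a2).2 k3 hg2)
        have h1 : w.1 = w'.1 := sub_eq_zero.1 hv
        rw [h1] at h'
        exact Prod.ext h1 (add_left_cancel h')
    have hle : C2.card ≤ C.card := by
      by_contra hlt
      have : C.card * C.card ≤ C.card * C2.card := Nat.mul_le_mul_left _ (by omega)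
      nlinarith
    calc C2.card ^ 2 = C2.card * C2.card := sq _
      _ ≤ C.card * C2.card := Nat.mul_le_mul_right _ hle
      _ ≤ _ := hprod
  · refine card_add_split hCA he'.1 fun c hc hmem => he'.2 ?_
    obtain ⟨c1, h1, c2, h2, h3⟩ := Finset.mem_add.1 hmem
    rw [show e = c1 + c2 - c by linear_combination -h3]
    refine wr_sub ?_ (Finset.mem_filter.1 hc).2
    rw [wronskian_add_left, (Finset.mem_filter.1 h1).2, (Finset.mem_filter.1 h2).2, add_zero]

lemma exists_good (hp : 5 ≤ p) (A : Finset (ZMod p)[X]) (hA : NZ A) (hN : 2 * p ≤ A.card) :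
    ∃ D : Finset (ZMod p)[X], Good (A + A).card D ∧ A.card ^ 2 ≤ 18 * (A + A).card * D.card := by
  obtain ⟨D, hD, h⟩ := peel (G := (ZMod p)[X]) (Good (p := p))
    (fun s t D hst h => ⟨h.1, h.2.1.trans hst, fun g hg => (h.2.2 g hg).trans hst⟩)
    (fun s => ⟨fun z hz => absurd hz (Finset.notMem_empty _), by simp, fun g _ => by simp⟩)
    (NZ (p := p)) (fun A => ∑ z ∈ A, (z.natDegree + 1)) (A.card / 2)
    (fun B hB hM => step_classes hp B hB (by omega)) A hA
  exact ⟨D, hD, peel_bound (by omega)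
    (Finset.card_le_card_add_left (Finset.card_pos.1 (by omega))) h⟩

lemma exists_one_degree (D : Finset (ZMod p)[X]) (hD : 2 ≤ D.card) :
    ∃ B ⊆ D, (∃ n, ∀ z ∈ B, z.natDegree = n) ∧ D.card ^ 2 ≤ 18 * (D + D).card * B.card := by
  obtain ⟨B, hB, h⟩ := peel (G := (ZMod p)[X])
    (fun _ B => B ⊆ D ∧ ∃ n, ∀ z ∈ B, z.natDegree = n) (fun _ _ _ _ h => h)
    (fun _ => ⟨Finset.empty_subset _, 0, fun z hz => absurd hz (Finset.notMem_empty _)⟩)
    (fun A => A ⊆ D) Finset.card (D.card / 2) (by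
      intro A hA hM
      obtain ⟨e, he, hmax⟩ := Finset.exists_max_image A natDegree (Finset.card_pos.1 (by omega))
      have hlt : ∀ c ∈ A.filter fun z => ¬ z.natDegree = e.natDegree,
          c.natDegree < e.natDegree := fun c hc =>
        lt_of_le_of_ne (hmax c (Finset.mem_filter.1 hc).1) (Finset.mem_filter.1 hc).2
      refine Or.inr (Or.inr ⟨A.filter fun z => ¬ z.natDegree = e.natDegree,
        A.filter fun z => z.natDegree = e.natDegree, (Finset.filter_subset _ _).trans hA, ?_, ?_,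
        ⟨(Finset.filter_subset _ _).trans hA, _, fun z hz => (Finset.mem_filter.1 hz).2⟩, ?_⟩)
      · exact Finset.card_lt_card (Finset.filter_ssubset.2 ⟨e, he, by simp⟩)
      · have := Finset.card_filter_add_card_filter_not (s := A) fun z => z.natDegree = e.natDegree
        omega
      · refine card_add_split (Finset.filter_subset _ _) he fun c hc hmem => ?_
        obtain ⟨c1, h1, c2, h2, h3⟩ := Finset.mem_add.1 hmem
        have k1 := natDegree_add_eq_left_of_natDegree_lt (hlt c hc)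
        have k2 := (natDegree_add_le c1 c2).trans_lt (max_lt (hlt c1 h1) (hlt c2 h2))
        rw [h3] at k2
        omega) D subset_rfl
  exact ⟨B, hB.1, hB.2, peel_bound hD
    (Finset.card_le_card_add_left (Finset.card_pos.1 (by omega))) h⟩

lemma cube_small {K : ℕ} (h : NoCube p K) {σ : ℕ} {D B A : Finset (ZMod p)[X]} (hD : Good σ D)
    (hB : B ⊆ D) {n : ℕ} (hn : ∀ z ∈ B, z.natDegree = n) {d : Fin K → (ZMod p)[X]}
    (hd : LinearIndependent (ZMod p) d)
    (hA : ∀ a ∈ A, ∀ S : Finset (Fin K), a + ∑ j ∈ S, d j ∈ B) : A.card ^ 2 ≤ K ^ 2 * σ := by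
  have hsub : A ⊆ Finset.univ.biUnion fun j : Fin K => D.filter fun z => wronskian z (d j) = 0 := by
    intro a ha
    by_contra hcon
    refine h a d n hd (fun S => ?_) fun j hj => hcon ?_
    · have := hA a ha S
      exact ⟨(hD.1 _ (hB this)).1, (hD.1 _ (hB this)).2, hn _ this⟩
    · refine Finset.mem_biUnion.2 ⟨j, Finset.mem_univ _, Finset.mem_filter.2 ⟨hB ?_, hj⟩⟩
      simpa using hA a ha ∅
  have h1 := (Finset.card_le_card hsub).trans (Finset.card_biUnion_le_card_mul _ _ σ.sqrt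
    fun j _ => Nat.le_sqrt'.2 (hD.2.2 _ (hd.ne_zero j)))
  rw [Finset.card_univ, Fintype.card_fin] at h1
  calc A.card ^ 2 ≤ (K * σ.sqrt) ^ 2 := Nat.pow_le_pow_left h1 2
    _ = K ^ 2 * σ.sqrt ^ 2 := mul_pow _ _ _
    _ ≤ _ := Nat.mul_le_mul_left _ (Nat.sqrt_le' σ)

lemma large_growth (hp : 5 ≤ p) {K : ℕ} (h : NoCube p K) : ∃ c F : ℕ,
    ∀ A : Finset (ZMod p)[X], (∀ f ∈ A, IsSquare f) →
      A.card ^ (F + 1) ≤ c * (A + A).card ^ F := by
  set E := 8 * 2 ^ K with hE
  set c0 := 2 * p ^ K + K ^ 2 + 2 * p + 2 with hc0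
  refine ⟨c0 * 72 ^ (2 * E + 1), 2 * E + 1, fun A hsq => ?_⟩
  by_contra hcon
  have hcon' : c0 * 72 ^ (2 * E + 1) * (A + A).card ^ (2 * E + 1) < A.card ^ (2 * E + 1 + 1) :=
    not_le.1 hcon
  have hAne : A.Nonempty := by
    rw [Finset.nonempty_iff_ne_empty]
    rintro rfl
    simp at hcon'
  have hNσ : A.card ≤ (A + A).card := Finset.card_le_card_add_left hAne
  have hN0 : (0 : ℝ) < A.card := by exact_mod_cast hAne.card_pos
  have hNσ' : (A.card : ℝ) ≤ (A + A).card := by exact_mod_cast hNσ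
  set N : ℝ := (A.card : ℝ) with hN
  set σ : ℝ := ((A + A).card : ℝ) with hσ
  have hσ0 : 0 < σ := hN0.trans_le hNσ'
  set ρ : ℝ := N / (72 * σ) with hρ
  have hρ0 : 0 < ρ := by positivity
  have hρ1 : ρ ≤ 1 := by rw [hρ, div_le_one (by positivity)]; linarith
  have hρσ : 72 * σ * ρ = N := by rw [hρ]; field_simp
  have hmain : (c0 : ℝ) < N * ρ ^ (2 * E + 1) := by
    have h1 : (c0 : ℝ) * 72 ^ (2 * E + 1) * σ ^ (2 * E + 1) < N ^ (2 * E + 1 + 1) := by
      rw [hN, hσ]; exact_mod_cast hcon'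
    rw [hρ, div_pow, ← mul_div_assoc, lt_div_iff₀ (by positivity), mul_pow, ← pow_succ', ← mul_assoc]
    exact h1
  have hmono : ∀ e, e ≤ 2 * E + 1 → (c0 : ℝ) < N * ρ ^ e := fun e he =>
    hmain.trans_le (mul_le_mul_of_nonneg_left (pow_le_pow_of_le_one hρ0.le hρ1 he) hN0.le)
  have hc0' : (c0 : ℝ) = 2 * (p : ℝ) ^ K + (K : ℝ) ^ 2 + 2 * p + 2 := by rw [hc0]; push_cast; ring
  have hbig : 2 * p + 2 < A.card := by
    have h1 := hmono 0 (by omega)
    rw [pow_zero, mul_one, hN] at h1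
    have h2 : c0 < A.card := by exact_mod_cast h1
    omega
  have hcard : (A.erase 0).card + 1 ≥ A.card := by
    have := Finset.pred_card_le_card_erase (s := A) (a := 0)
    omega
  obtain ⟨D, hD, hD2⟩ := exists_good hp (A.erase 0)
    (fun z hz => ⟨hsq z (Finset.mem_erase.1 hz).2, (Finset.mem_erase.1 hz).1⟩) (by omega)
  have hσ' : (A.erase 0 + A.erase 0).card ≤ (A + A).card :=
    Finset.card_le_card (Finset.add_subset_add (Finset.erase_subset _ _) (Finset.erase_subset _ _))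
  have hD' : Good (A + A).card D := ⟨hD.1, hD.2.1.trans hσ', fun g hg => (hD.2.2 g hg).trans hσ'⟩
  have hD3 : N * ρ ≤ D.card := by
    have h1 : A.card ^ 2 ≤ 72 * (A + A).card * D.card := by
      calc A.card ^ 2 ≤ (2 * (A.erase 0).card) ^ 2 := Nat.pow_le_pow_left (by omega) 2
        _ = 4 * (A.erase 0).card ^ 2 := by ring
        _ ≤ 4 * (18 * (A + A).card * D.card) := by
          refine Nat.mul_le_mul_left _ (hD2.trans ?_)
          gcongr
        _ = _ := by ring
    have h2 : N ^ 2 ≤ 72 * σ * D.card := by rw [hN, hσ]; exact_mod_cast h1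
    refine le_of_mul_le_mul_left ?_ (show 0 < 72 * σ by positivity)
    calc 72 * σ * (N * ρ) = N * (72 * σ * ρ) := by ring
      _ = N ^ 2 := by rw [hρσ]; ring
      _ ≤ _ := h2
  have hD4 : 2 ≤ D.card := by
    have h1 := hmono 1 (by omega)
    rw [pow_one] at h1
    have h2 : c0 < D.card := by exact_mod_cast h1.trans_le hD3
    omega
  obtain ⟨B, hBD, ⟨n, hn⟩, hB2⟩ := exists_one_degree D hD4
  have hB3 : N * ρ ^ 3 ≤ B.card := by
    have h1 : D.card ^ 2 ≤ 18 * (A + A).card * B.card := hB2.trans (by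
      have := hD'.2.1
      gcongr)
    have h2 : (D.card : ℝ) ^ 2 ≤ 18 * σ * B.card := by rw [hσ]; exact_mod_cast h1
    have h3 : (N * ρ) ^ 2 ≤ (D.card : ℝ) ^ 2 := by gcongr
    have h4 : (0 : ℝ) ≤ B.card := Nat.cast_nonneg _
    refine le_of_mul_le_mul_left ?_ hN0
    calc N * (N * ρ ^ 3) = ρ * (N * ρ) ^ 2 := by ring
      _ ≤ ρ * (18 * σ * B.card) := mul_le_mul_of_nonneg_left (h3.trans h2) hρ0.le
      _ ≤ ρ * (72 * σ * B.card) := by gcongr; norm_num
      _ = 72 * σ * ρ * B.card := by ring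
      _ = _ := by rw [hρσ]
  have hτ : 2 * ((B - B).card : ℝ) ≤ N / ρ ^ 5 := by
    have h1 := Finset.ruzsa_triangle_inequality_sub_add_add B B B
    have h2 : (B + B).card ≤ (A + A).card :=
      (Finset.card_le_card (Finset.add_subset_add hBD hBD)).trans hD'.2.1
    have h3 : ((B - B).card : ℝ) * B.card ≤ σ * σ := by
      rw [hσ]; exact_mod_cast h1.trans (Nat.mul_le_mul h2 h2)
    have h4 : ((B - B).card : ℝ) * (N * ρ ^ 3) ≤ σ * σ :=
      (mul_le_mul_of_nonneg_left hB3 (Nat.cast_nonneg _)).trans h3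
    rw [le_div_iff₀ (by positivity)]
    refine le_of_mul_le_mul_left ?_ hN0
    calc N * (2 * ((B - B).card : ℝ) * ρ ^ 5)
        = 2 * ρ ^ 2 * (((B - B).card : ℝ) * (N * ρ ^ 3)) := by ring
      _ ≤ 2 * ρ ^ 2 * (σ * σ) := by gcongr
      _ ≤ 72 ^ 2 * ρ ^ 2 * (σ * σ) := by gcongr; norm_num
      _ = (72 * σ * ρ) ^ 2 := by ring
      _ = _ := by rw [hρσ]; ring
  have hT : N * ρ ^ E ≤ N / ρ ^ 5 * (ρ ^ 8) ^ 2 ^ K := by
    rw [← pow_mul, ← hE]
    refine mul_le_mul_of_nonneg_right ?_ (by positivity)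
    rw [le_div_iff₀ (by positivity)]
    exact mul_le_of_le_one_right hN0.le (pow_le_one₀ hρ0.le hρ1)
  obtain ⟨d, A', hd, hA', hcube⟩ := exists_cube (F := ZMod p) B (N / ρ ^ 5) (ρ ^ 8) hτ
    (by positivity) (by positivity) (pow_le_one₀ hρ0.le hρ1)
    (le_trans (le_of_eq (by field_simp)) hB3) K (by
      rw [ZMod.card]
      refine le_trans ?_ ((hmono E (by omega)).le.trans hT)
      rw [hc0']
      have : (0 : ℝ) ≤ (K : ℝ) ^ 2 + 2 * p + 2 := by positivity
      linarith)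
  have h1 := cube_small h hD' hBD hn hd hcube
  have h2 : (A'.card : ℝ) ^ 2 ≤ (K : ℝ) ^ 2 * σ := by rw [hσ]; exact_mod_cast h1
  have h3 : (N * ρ ^ E) ^ 2 ≤ (A'.card : ℝ) ^ 2 := by
    have := hT.trans hA'
    gcongr
  have h4 : N * (N * ρ ^ (2 * E + 1)) ≤ N * (K : ℝ) ^ 2 := by
    calc N * (N * ρ ^ (2 * E + 1)) = ρ * (N * ρ ^ E) ^ 2 := by ring
      _ ≤ ρ * ((K : ℝ) ^ 2 * σ) := mul_le_mul_of_nonneg_left (h3.trans h2) hρ0.le
      _ ≤ ρ * ((K : ℝ) ^ 2 * (72 * σ)) := by gcongr; linarith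
      _ = 72 * σ * ρ * (K : ℝ) ^ 2 := by ring
      _ = _ := by rw [hρσ]
  have h5 := le_of_mul_le_mul_left h4 hN0
  have h6 : (0 : ℝ) ≤ 2 * (p : ℝ) ^ K + 2 * p + 2 := by positivity
  linarith

end Steps

theorem growth_of_noCube (p : ℕ) [Fact p.Prime] (hp : 5 ≤ p) (K : ℕ) (h : NoCube p K) :
    ∃ ε : ℝ, 0 < ε ∧ ∀ A : Finset (ZMod p)[X], (∀ f ∈ A, IsSquare f) →
      (A.card : ℝ) ^ (1 + ε) ≤ ((A + A).card : ℝ) := by
  obtain ⟨c, F, hF⟩ := large_growth hp h
  obtain ⟨L, hL, hL2⟩ := exists_exponent c F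
  refine ⟨1 / (L : ℝ), by positivity, fun A hA => rpow_le_of_pow_le hL ?_⟩
  refine hL2 _ _ ?_ (small_growth hp A hA) (hF A hA)
  rcases A.eq_empty_or_nonempty with rfl | hne
  · simp
  · exact Finset.card_le_card_add_left hne

lemma zmod_three_cases : ∀ j : ZMod 3, j = 0 ∨ j = 1 ∨ j = -1 := by decide

theorem three_fails : ∀ ε : ℝ, 0 < ε → ∃ A : Finset (ZMod 3)[X], (∀ f ∈ A, IsSquare f) ∧
      ((A + A).card : ℝ) < (A.card : ℝ) ^ (1 + ε) := by
  intro ε hε
  have : Fact (Nat.Prime 3) := ⟨Nat.prime_three⟩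
  set a : (ZMod 3)[X] := (X ^ 2 + 1) ^ 2 with ha
  set d : (ZMod 3)[X] := X ^ 3 - X with hd
  have h3 : (3 : (ZMod 3)[X]) = 0 := by exact_mod_cast CharP.cast_eq_zero (ZMod 3)[X] 3
  have hd0 : d ≠ 0 := by
    intro h
    have := congrArg (fun f => coeff f 3) h
    simp [hd, coeff_X] at this
  have hinj : Function.Injective fun i : ZMod 3 => a + C i * d := fun i j hij =>
    C_injective (mul_right_cancel₀ hd0 (add_left_cancel hij))
  refine ⟨Finset.univ.image fun i : ZMod 3 => a + C i * d, ?_, ?_⟩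
  · intro f hf
    obtain ⟨i, -, rfl⟩ := Finset.mem_image.1 hf
    have hi : i = 0 ∨ i = 1 ∨ i = -1 := zmod_three_cases i
    rcases hi with rfl | rfl | rfl
    · exact ⟨X ^ 2 + 1, by rw [C_0, ha]; ring⟩
    · exact ⟨X ^ 2 + 2 * X - 1, by
        rw [C_1, ha, hd]; linear_combination (X - X ^ 3) * h3⟩
    · exact ⟨X ^ 2 - 2 * X - 1, by
        rw [C_neg, C_1, ha, hd]; linear_combination (X ^ 3 - X) * h3⟩
  · have h1 : ((Finset.univ.image fun i : ZMod 3 => a + C i * d) +
        Finset.univ.image fun i : ZMod 3 => a + C i * d).card ≤ 3 := by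
      have : ((Finset.univ.image fun i : ZMod 3 => a + C i * d) +
          Finset.univ.image fun i : ZMod 3 => a + C i * d) ⊆
          Finset.univ.image fun i : ZMod 3 => 2 * a + C i * d := by
        intro x hx
        obtain ⟨u, hu, v, hv, rfl⟩ := Finset.mem_add.1 hx
        obtain ⟨i, -, rfl⟩ := Finset.mem_image.1 hu
        obtain ⟨j, -, rfl⟩ := Finset.mem_image.1 hv
        exact Finset.mem_image.2 ⟨i + j, Finset.mem_univ _, by rw [C_add]; ring⟩
      refine (Finset.card_le_card this).trans (Finset.card_image_le.trans ?_)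
      rw [Finset.card_univ, ZMod.card]
    rw [Finset.card_image_of_injective _ hinj, Finset.card_univ, ZMod.card]
    have h2 : ((3 : ℕ) : ℝ) ^ (1 : ℝ) < ((3 : ℕ) : ℝ) ^ (1 + ε) :=
      Real.rpow_lt_rpow_of_exponent_lt (by norm_num) (by linarith)
    rw [Real.rpow_one] at h2
    exact lt_of_le_of_lt (by exact_mod_cast h1) h2

end Pool.Agent.P.MP_9d026e_co
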