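import Mathlib

/-! Abstract additive combinatorics used in the reduction to Hilbert cubes. -/

open Pointwise Finset

namespace Pool.Agent.P.MP_9d026e_co

section Peel

variable {G : Type*} [AddCommGroup G] [DecidableEq G]

lemma peel (Good : ℕ → Finset G → Prop) (hmono : ∀ s t D, s ≤ t → Good s D → Good t D)
    (hempty : ∀ s, Good s ∅) (P : Finset G → Prop) (μ : Finset G → ℕ) (M : ℕ)
    (step : ∀ A, P A → M < #A → Good #(A + A) A ∨
      (∃ C, P C ∧ μ C < μ A ∧ #A ≤ #C ∧ #(C + C) ≤ #(A + A)) ∨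
      (∃ C E, P C ∧ μ C < μ A ∧ #A ≤ #C + #E ∧ Good #(A + A) E ∧ #(C + C) + #C ≤ #(A + A))) :
    ∀ A, P A → ∃ D, Good #(A + A) D ∧ #A * M ≤ #D * (#(A + A) + M) + M * M := by
  intro A
  induction hn : μ A using Nat.strong_induction_on generalizing A with
  | _ n ih =>
    intro hA
    rcases le_or_gt #A M with hle | hlt
    · exact ⟨∅, hempty _, by simpa using Nat.mul_le_mul_right M hle⟩
    rcases step A hA hlt with h | ⟨C, hC, hμ, h1, h2⟩ | ⟨C, E, hC, hμ, h1, hE, h2⟩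
    · exact ⟨A, h, by nlinarith [Nat.zero_le (#A * #(A + A)), Nat.zero_le (M * M)]⟩
    · obtain ⟨D, hD, hD2⟩ := ih _ (hn ▸ hμ) C rfl hC
      refine ⟨D, hmono _ _ _ h2 hD, ?_⟩
      calc #A * M ≤ #C * M := Nat.mul_le_mul_right M h1
        _ ≤ _ := hD2
        _ ≤ _ := by gcongr
    · rcases le_or_gt #C M with hle | hlt'
      · refine ⟨E, hE, ?_⟩
        calc #A * M ≤ (M + #E) * M := Nat.mul_le_mul_right M (by omega)
          _ ≤ _ := by nlinarith [Nat.zero_le (#E * #(A + A))]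
      · obtain ⟨D, hD, hD2⟩ := ih _ (hn ▸ hμ) C rfl hC
        have h3 : #(C + C) + M ≤ #(A + A) := by omega
        have h4 : #A * M ≤ #C * M + #E * M := by
          rw [← add_mul]; exact Nat.mul_le_mul_right M h1
        rcases le_total #D #E with h5 | h5
        · refine ⟨E, hE, ?_⟩
          have : #D * (#(C + C) + M) ≤ #E * #(A + A) := Nat.mul_le_mul h5 h3
          nlinarith
        · refine ⟨D, hmono _ _ _ (by omega) hD, ?_⟩
          have h6 : #D * (#(C + C) + M) ≤ #D * #(A + A) := Nat.mul_le_mul_left _ h3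
          have h7 : #E * M ≤ #D * M := Nat.mul_le_mul_right _ h5
          nlinarith

lemma peel_bound {s σ d : ℕ} (hs : 2 ≤ s) (hσ : s ≤ σ)
    (h : s * (s / 2) ≤ d * (σ + s / 2) + s / 2 * (s / 2)) : s ^ 2 ≤ 18 * σ * d := by
  set M := s / 2 with hM
  have h1 : 2 * M ≤ s := by omega
  have h2 : s ≤ 3 * M := by omega
  have h3 : M * M ≤ d * (σ + M) := by nlinarith
  have h4 : d * (σ + M) ≤ d * (2 * σ) := Nat.mul_le_mul_left _ (by omega)
  have h5 : s ^ 2 ≤ (3 * M) ^ 2 := Nat.pow_le_pow_left h2 2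
  nlinarith

lemma card_add_split {A C : Finset G} (hC : C ⊆ A) {e : G} (he : e ∈ A)
    (h : ∀ c ∈ C, e + c ∉ C + C) : #(C + C) + #C ≤ #(A + A) := by
  have h1 : #(C.image (e + ·)) = #C := card_image_of_injective _ (add_right_injective e)
  have h2 : Disjoint (C + C) (C.image (e + ·)) := by
    rw [disjoint_right]
    intro x hx
    obtain ⟨c, hc, rfl⟩ := mem_image.1 hx
    exact h c hc
  rw [← h1, ← card_union_of_disjoint h2]
  refine card_le_card (union_subset (add_subset_add hC hC) ?_)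
  intro x hx
  obtain ⟨c, hc, rfl⟩ := mem_image.1 hx
  exact add_mem_add he (hC hc)

lemma card_image_add_le {H : Type*} [AddCommGroup H] [DecidableEq H] (φ : G →+ H)
    (hφ : Function.Injective φ) (C : Finset G) (A : Finset H) (h : ∀ c ∈ C, φ c ∈ A) :
    #(C + C) ≤ #(A + A) := by
  refine card_le_card_of_injOn φ ?_ hφ.injOn
  intro x hx
  obtain ⟨a, ha, b, hb, rfl⟩ := mem_add.1 (mem_coe.1 hx)
  rw [map_add]
  exact mem_coe.2 (add_mem_add (h a ha) (h b hb))

end Peel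

section Cube

variable {F G : Type*} [Field F] [Fintype F] [AddCommGroup G] [Module F G] [DecidableEq G]

lemma popular (B A U : Finset G) (hA : A ⊆ B) (T x : ℝ) (hT : 2 * (#(B - B) : ℝ) ≤ T)
    (hx : 0 < x) (hxA : x ≤ #A) (hU : 2 * (#U : ℝ) ≤ x) :
    ∃ d, d ∉ U ∧ x ^ 2 / T ≤ #(A.filter fun a => a + d ∈ A) := by
  have hApos : (0 : ℝ) < #A := hx.trans_le hxA
  have hAne : A.Nonempty := card_pos.1 (by exact_mod_cast hApos)
  have hBne : (B - B).Nonempty := (hAne.mono hA).sub (hAne.mono hA)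
  have hτ : (0 : ℝ) < #(B - B) := by exact_mod_cast hBne.card_pos
  have hTpos : 0 < T := by linarith
  set P := (A ×ˢ A).filter fun w : G × G => w.2 - w.1 ∉ U with hP
  have hbad : #((A ×ˢ A).filter fun w : G × G => ¬ w.2 - w.1 ∉ U) ≤ #A * #U := by
    rw [← card_product]
    refine card_le_card_of_injOn (fun w => (w.1, w.2 - w.1)) ?_ ?_
    · intro w hw
      have hw' := mem_filter.1 (mem_coe.1 hw)
      exact mem_coe.2 (mem_product.2 ⟨(mem_product.1 hw'.1).1, not_not.1 hw'.2⟩)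
    · intro w _ w' _ h
      obtain ⟨h1, h2⟩ := Prod.mk.inj h
      rw [h1] at h2
      exact Prod.ext h1 (sub_left_injective h2)
  have hsum := card_filter_add_card_filter_not (s := A ×ˢ A) (fun w : G × G => w.2 - w.1 ∉ U)
  rw [card_product, ← hP] at hsum
  have hPc : (#A : ℝ) * #A ≤ #P + #A * #U := by
    have : #A * #A ≤ #P + #A * #U := by omega
    exact_mod_cast this
  have hP2 : x ^ 2 / 2 ≤ #P := by nlinarith
  have hb : #(B - B) • (x ^ 2 / T) ≤ (#P : ℝ) := by
    rw [nsmul_eq_mul]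
    refine le_trans ?_ hP2
    rw [← mul_div_assoc, div_le_div_iff₀ hTpos two_pos]
    nlinarith [sq_nonneg x]
  obtain ⟨d, -, hd⟩ := exists_le_card_fiber_of_nsmul_le_card_of_maps_to
    (f := fun w : G × G => w.2 - w.1) (s := P) (t := B - B) (by
      intro w hw
      have hw' := mem_product.1 (mem_filter.1 hw).1
      exact sub_mem_sub (hA hw'.2) (hA hw'.1)) hBne hb
  have hpos : (0 : ℝ) < #{w ∈ P | w.2 - w.1 = d} := lt_of_lt_of_le (by positivity) hd
  obtain ⟨w, hw⟩ : {w ∈ P | w.2 - w.1 = d}.Nonempty := card_pos.1 (by exact_mod_cast hpos)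
  refine ⟨d, ?_, hd.trans ?_⟩
  · rw [← (mem_filter.1 hw).2]
    exact (mem_filter.1 (mem_filter.1 hw).1).2
  · have : #{w ∈ P | w.2 - w.1 = d} ≤ #(A.filter fun a => a + d ∈ A) := by
      refine card_le_card_of_injOn (fun w => w.1) ?_ ?_
      · intro v hv
        have hv' := mem_filter.1 (mem_coe.1 hv)
        have hv2 := mem_product.1 (mem_filter.1 hv'.1).1
        refine mem_coe.2 (mem_filter.2 ⟨hv2.1, ?_⟩)
        rw [← hv'.2, add_sub_cancel]
        exact hv2.2
      · intro v hv v' hv' h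
        have h1 := (mem_filter.1 (mem_coe.1 hv)).2
        have h2 := (mem_filter.1 (mem_coe.1 hv')).2
        have h0 : v.1 = v'.1 := h
        rw [← h2, h0] at h1
        exact Prod.ext h0 (sub_left_injective h1)
    exact_mod_cast this

lemma exists_cube (B : Finset G) (T θ : ℝ) (hT : 2 * (#(B - B) : ℝ) ≤ T) (hTpos : 0 < T)
    (hθ : 0 < θ) (hθ1 : θ ≤ 1) (hB : T * θ ≤ #B) (i : ℕ)
    (hi : 2 * (Fintype.card F : ℝ) ^ i ≤ T * θ ^ 2 ^ i) :
    ∃ (d : Fin i → G) (A : Finset G), LinearIndependent F d ∧ T * θ ^ 2 ^ i ≤ #A ∧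
      ∀ a ∈ A, ∀ S : Finset (Fin i), a + ∑ j ∈ S, d j ∈ B := by
  classical
  induction i with
  | zero =>
    refine ⟨Fin.elim0, B, linearIndependent_empty_type, by simpa using hB, fun a ha S => ?_⟩
    rw [Subsingleton.elim S ∅, sum_empty, add_zero]
    exact ha
  | succ i ih =>
    have hq : (1 : ℝ) ≤ Fintype.card F := by exact_mod_cast Fintype.card_pos
    have hi' : 2 * (Fintype.card F : ℝ) ^ i ≤ T * θ ^ 2 ^ i := by
      calc 2 * (Fintype.card F : ℝ) ^ i ≤ 2 * (Fintype.card F : ℝ) ^ (i + 1) := by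
            gcongr; omega
        _ ≤ T * θ ^ 2 ^ (i + 1) := hi
        _ ≤ T * θ ^ 2 ^ i := by
            refine mul_le_mul_of_nonneg_left ?_ hTpos.le
            exact pow_le_pow_of_le_one hθ.le hθ1 (Nat.pow_le_pow_right two_pos (by omega))
    obtain ⟨d, A, hd, hA, hcube⟩ := ih hi'
    have hAB : A ⊆ B := fun a ha => by simpa using hcube a ha ∅
    set U : Finset G := univ.image fun c : Fin i → F => ∑ j, c j • d j with hU
    have hUc : (#U : ℝ) ≤ (Fintype.card F : ℝ) ^ i := by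
      have : #U ≤ Fintype.card F ^ i := by
        refine card_image_le.trans ?_
        simp
      exact_mod_cast this
    obtain ⟨e, he, hA'⟩ := popular B A U hAB T (T * θ ^ 2 ^ i) hT (by positivity) hA (by linarith)
    refine ⟨Fin.cons e d, A.filter fun a => a + e ∈ A, ?_, ?_, ?_⟩
    · refine linearIndependent_finCons.2 ⟨hd, fun h => he ?_⟩
      obtain ⟨c, hc⟩ := (Submodule.mem_span_range_iff_exists_fun F).1 h
      exact mem_image.2 ⟨c, mem_univ _, hc⟩
    · refine le_trans (le_of_eq ?_) hA'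
      rw [pow_succ 2 i, pow_mul]
      field_simp
    · intro a ha S
      have ha' := mem_filter.1 ha
      have hs : ∑ j ∈ S, (Fin.cons e d : Fin (i + 1) → G) j =
          (if (0 : Fin (i + 1)) ∈ S then e else 0) +
            ∑ j ∈ univ.filter (fun j : Fin i => j.succ ∈ S), d j := by
        rw [← univ_inter S, ← sum_ite_mem, Fin.sum_univ_succ, sum_filter]
        simp
      rw [hs, ← add_assoc]
      refine hcube _ ?_ _
      split_ifs
      · exact ha'.2
      · rw [add_zero]; exact ha'.1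

end Cube

section Numeric

lemma pow_le_succ_pow {N L : ℕ} (hN : 1 ≤ N) (hL : N ^ 2 ≤ L) : N ^ (L + 1) ≤ (N + 1) ^ L := by
  have hN' : (0 : ℝ) < N := by exact_mod_cast hN
  have hL' : (N : ℝ) ^ 2 ≤ L := by exact_mod_cast hL
  have h1 : 1 + (L : ℝ) * (1 / N) ≤ (1 + 1 / N) ^ L :=
    one_add_mul_le_pow (by have : (0 : ℝ) ≤ 1 / N := by positivity
                           linarith) L
  have h2 : (N : ℝ) ≤ 1 + (L : ℝ) * (1 / N) := by
    have : (N : ℝ) ≤ L * (1 / N) := by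
      rw [mul_one_div, le_div_iff₀ hN']; nlinarith
    linarith
  have h3 : ((N : ℝ) + 1) ^ L = N ^ L * (1 + 1 / N) ^ L := by
    rw [← mul_pow]; congr 1; field_simp
  have : (N : ℝ) ^ (L + 1) ≤ (N + 1) ^ L := by
    rw [h3, pow_succ]
    exact mul_le_mul_of_nonneg_left (h2.trans h1) (by positivity)
  exact_mod_cast this

lemma exists_exponent (c F : ℕ) : ∃ L : ℕ, 0 < L ∧ ∀ N σ : ℕ, N ≤ σ → (2 ≤ N → N + 1 ≤ σ) →
    N ^ (F + 1) ≤ c * σ ^ F → N ^ (L + 1) ≤ σ ^ L := by
  refine ⟨2 * F + (c ^ 2) ^ 2 + 1, by omega, fun N σ h1 h2 h3 => ?_⟩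
  set L := 2 * F + (c ^ 2) ^ 2 + 1 with hL
  rcases Nat.lt_or_ge N 2 with hN | hN
  · interval_cases N
    · simp
    · simpa using Nat.one_le_pow _ _ h1
  rcases le_total N (c ^ 2) with hc | hc
  · refine (pow_le_succ_pow (by omega) ?_).trans (Nat.pow_le_pow_left (h2 hN) _)
    have := Nat.pow_le_pow_left hc 2
    omega
  · have h4 : N ^ (2 * F + 1) * N ≤ σ ^ (2 * F) * N := by
      calc N ^ (2 * F + 1) * N = (N ^ (F + 1)) ^ 2 := by ring
        _ ≤ (c * σ ^ F) ^ 2 := Nat.pow_le_pow_left h3 2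
        _ = σ ^ (2 * F) * c ^ 2 := by ring
        _ ≤ _ := Nat.mul_le_mul_left _ hc
    have h5 : N ^ (2 * F + 1) ≤ σ ^ (2 * F) := Nat.le_of_mul_le_mul_right h4 (by omega)
    calc N ^ (L + 1) = N ^ (2 * F + 1) * N ^ ((c ^ 2) ^ 2 + 1) := by rw [hL]; ring
      _ ≤ σ ^ (2 * F) * σ ^ ((c ^ 2) ^ 2 + 1) := Nat.mul_le_mul h5 (Nat.pow_le_pow_left h1 _)
      _ = σ ^ L := by rw [hL]; ring

lemma rpow_le_of_pow_le {N σ L : ℕ} (hL : 0 < L) (h : N ^ (L + 1) ≤ σ ^ L) :
    (N : ℝ) ^ (1 + 1 / (L : ℝ)) ≤ σ := by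
  have hL' : (0 : ℝ) < L := by exact_mod_cast hL
  have h' : (N : ℝ) ^ (L + 1) ≤ (σ : ℝ) ^ L := by exact_mod_cast h
  refine le_of_pow_le_pow_left₀ hL.ne' (Nat.cast_nonneg _) (le_trans (le_of_eq ?_) h')
  rw [← Real.rpow_natCast, ← Real.rpow_mul (Nat.cast_nonneg _), ← Real.rpow_natCast]
  congr 1
  push_cast
  field_simp

end Numeric

end Pool.Agent.P.MP_9d026e_co
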